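import Pool.Agent.F3.FT.Ok

/-!
# F3, world T: counting apexes, the link at an atypical vertex
-/

set_option autoImplicit false
set_option linter.unusedSectionVars false

namespace F3.FT

open Finset Classical NW F1

variable {V : Type} [Fintype V] [DecidableEq V] {E H R : Finset (Sym2 V)} {sd pt : V → Bool}
  {ty : Sym2 V → Fin 3} {At : Finset V} {B : Finset (Tri V)} {ε κ c : ℝ}

/-- typical apexes outside of the parts of `u`, `v` -/
def App (sd pt : V → Bool) (ty : Sym2 V → Fin 3) (G : Finset (Sym2 V)) (B : Finset (Tri V))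
    (At : Finset V) (u v w : V) : Prop :=
  w ∉ At ∧ Ok sd pt ty G B u v w ∧ ¬ Sa sd pt u w ∧ ¬ Sa sd pt v w

theorem App.symm {G : Finset (Sym2 V)} {u v w : V} (h : App sd pt ty G B At u v w) :
    App sd pt ty G B At v u w := ⟨h.1, h.2.1.swap12, h.2.2.2, h.2.2.1⟩

theorem mem_H (hW : WT E H sd pt ty At ε c) {u v : V} (h : s(u, v) ∈ H) : s(u, v) ∈ E := by
  have h1 := hW.H_eq
  rw [h1] at h
  exact (mem_filter.1 h).1

theorem apx (hW : WT E H sd pt ty At ε c) (hRs : Sm κ R) (hB : SmT κ B) {u v : V}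
    (h : s(u, v) ∈ E \ R) : (c - 3 * κ) * nn V ≤
      ((univ.filter (fun w => App sd pt ty (E \ R) B At u v w)).card : ℝ) := by
  have hE : s(u, v) ∈ E := (mem_sdiff.1 h).1
  have key : ∀ S : Finset V, c * nn V ≤ (S.card : ℝ) → (∀ w ∈ S, w ∉ nbr R u → w ∉ nbr R v →
      ¬ BdB B u v w → App sd pt ty (E \ R) B At u v w) → (c - 3 * κ) * nn V ≤
      ((univ.filter (fun w => App sd pt ty (E \ R) B At u v w)).card : ℝ) := by
    intro S hS hw
    have h1 : S ⊆ univ.filter (fun w => App sd pt ty (E \ R) B At u v w) ∪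
        (nbr R u ∪ (nbr R v ∪ univ.filter (fun w => BdB B u v w))) := by
      intro w hwS
      by_cases a : w ∈ nbr R u
      · exact mem_union_right _ (mem_union_left _ a)
      by_cases b : w ∈ nbr R v
      · exact mem_union_right _ (mem_union_right _ (mem_union_left _ b))
      by_cases d : BdB B u v w
      · exact mem_union_right _ (mem_union_right _ (mem_union_right _ (by simp [d])))
      exact mem_union_left _ (by simpa using hw w hwS a b d)
    have h2 : S.card ≤ (univ.filter (fun w => App sd pt ty (E \ R) B At u v w)).card +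
        ((nbr R u).card + ((nbr R v).card + (univ.filter (fun w => BdB B u v w)).card)) :=
      (card_le_card h1).trans ((card_union_le _ _).trans (Nat.add_le_add_left
        ((card_union_le _ _).trans (Nat.add_le_add_left (card_union_le _ _) _)) _))
    have h3 : (S.card : ℝ) ≤ ((univ.filter (fun w => App sd pt ty (E \ R) B At u v w)).card : ℝ) +
        (((nbr R u).card : ℝ) + (((nbr R v).card : ℝ) +
          ((univ.filter (fun w => BdB B u v w)).card : ℝ))) := by
      exact_mod_cast h2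
    have h4 : ((nbr R u).card : ℝ) ≤ κ * nn V := hRs u
    have h5 : ((nbr R v).card : ℝ) ≤ κ * nn V := hRs v
    have h6 := card_BdB hB u v
    linarith
  by_cases hs : Sa sd pt u v
  · refine key _ (hW.feas u v hE hs) ?_
    intro w hw h1 h2 h3
    simp only [mem_filter, mem_sdiff, mem_univ, true_and] at hw
    obtain ⟨a, b, d, e⟩ := hw
    have b' := CT_Sa_left hs b
    refine ⟨a, ⟨h, mem_sdiff.2 ⟨mem_H hW d, fun hc => h1 (mem_nbr.2 hc)⟩,
      mem_sdiff.2 ⟨mem_H hW e, fun hc => h2 (mem_nbr.2 hc)⟩, h3, Or.inr (Or.inl ⟨hs, b⟩)⟩,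
      b.2, b'.2⟩
  · refine key _ (hW.feasC u v hE hs) ?_
    intro w hw h1 h2 h3
    simp only [mem_filter, mem_sdiff, mem_univ, true_and] at hw
    obtain ⟨a, b, b', d, e⟩ := hw
    exact ⟨a, ⟨h, mem_sdiff.2 ⟨mem_H hW d, fun hc => h1 (mem_nbr.2 hc)⟩,
      mem_sdiff.2 ⟨mem_H hW e, fun hc => h2 (mem_nbr.2 hc)⟩, h3, Or.inl ⟨hs, b, b'⟩⟩, b, b'⟩

/-- good pairs in the link of `a` -/
def Gdd (G : Finset (Sym2 V)) (B : Finset (Tri V)) (a x y : V) : Prop :=
  s(x, y) ∈ G ∧ ¬ BdB B a x y

theorem miss' (hW : WT E H sd pt ty At ε c) (hRs : Sm κ R) (hB : SmT κ B) {x : V}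
    (hx : x ∉ At) (a : V) (S : Finset V) (hS : ∀ w ∈ S, ¬ Sa sd pt x w) :
    ((S.filter (fun w => ¬ Gdd (E \ R) B a x w)).card : ℝ) ≤ (ε + 2 * κ) * nn V := by
  have h1 : S.filter (fun w => ¬ Gdd (E \ R) B a x w) ⊆
      univ.filter (fun w => ¬ (sd x = sd w ∧ pt x = pt w) ∧ s(x, w) ∉ E) ∪
        (nbr R x ∪ univ.filter (fun w => BdB B a x w)) := by
    intro w hw
    simp only [Gdd, mem_filter, not_and, not_not] at hw
    by_cases h2 : s(x, w) ∈ E
    · by_cases h3 : s(x, w) ∈ R
      · exact mem_union_right _ (mem_union_left _ (mem_nbr.2 h3))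
      · have h4 := hw.2 (mem_sdiff.2 ⟨h2, h3⟩)
        exact mem_union_right _ (mem_union_right _ (by simp [h4]))
    · refine mem_union_left _ (mem_filter.2 ⟨mem_univ _, hS w hw.1, h2⟩)
  have h2 := (card_le_card h1).trans ((card_union_le _ _).trans (Nat.add_le_add_left
    (card_union_le _ _) _))
  have h3 : ((S.filter (fun w => ¬ Gdd (E \ R) B a x w)).card : ℝ) ≤
      ((univ.filter (fun w => ¬ (sd x = sd w ∧ pt x = pt w) ∧ s(x, w) ∉ E)).card : ℝ) +
      (((nbr R x).card : ℝ) + ((univ.filter (fun w => BdB B a x w)).card : ℝ)) := by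
    exact_mod_cast h2
  have h4 := hW.miss x hx
  have h5 : ((nbr R x).card : ℝ) ≤ κ * nn V := hRs x
  have h6 := card_BdB hB a x
  linarith

end F3.FT
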