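import Pool.Agent.F3.FT.Ts

/-!
# F3, world T: assembly of the fractional decomposition
-/

set_option autoImplicit false
set_option linter.unusedSectionVars false

namespace F3.FT

open Finset Classical NW F1

/-- the statement of `four` for a given constant -/
def FourSt (ε₀ : ℝ) : Prop := ∀ (V : Type) [Fintype V] [DecidableEq V] (W : Finset V)
    (sd pt : V → Bool) (G : V → V → Prop) (Bd : V → V → V → Prop) (D : V → V → ℝ),
    0 < nn V → (∀ u v, G u v → G v u) → (∀ u v w, Bd u v w → Bd v u w) →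
    (∀ u v w, Bd u v w → Bd u w v) →
    (∀ a b, |((W.filter (fun v => sd v = a ∧ pt v = b)).card : ℝ) - nn V / 4| ≤ ε₀ * nn V) →
    (∀ u ∈ W, ((W.filter (fun v => ¬ Sa sd pt u v ∧ ¬ G u v)).card : ℝ) ≤ ε₀ * nn V) →
    (∀ u v, ((univ.filter (fun w => Bd u v w)).card : ℝ) ≤ ε₀ * nn V) →
    (∀ u v, D u v = D v u) →
    (∀ u ∈ W, ∀ v ∈ W, ¬ Sa sd pt u v → G u v → |D u v - 1| ≤ ε₀) →
    (∀ t t' : Fin 3,
      ∑ x ∈ (W ×ˢ W).filter (fun x => CT sd pt t x.1 x.2 ∧ G x.1 x.2), D x.1 x.2 =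
      ∑ x ∈ (W ×ˢ W).filter (fun x => CT sd pt t' x.1 x.2 ∧ G x.1 x.2), D x.1 x.2) →
    ∃ f : V → V → V → ℝ, (∀ u v w, 0 ≤ f u v w) ∧ (∀ u v w, f u v w ≤ 1 / nn V) ∧
      (∀ u v w, f u v w ≠ 0 → u ∈ W ∧ v ∈ W ∧ w ∈ W ∧ ¬ Sa sd pt u v ∧ ¬ Sa sd pt u w ∧
        ¬ Sa sd pt v w ∧ G u v ∧ G u w ∧ G v w ∧ ¬ Bd u v w) ∧
      ∀ u ∈ W, ∀ v ∈ W, ¬ Sa sd pt u v → G u v → ld f u v = D u v

section

variable {V : Type} [Fintype V] [DecidableEq V] {E H R : Finset (Sym2 V)} {sd pt : V → Bool}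
  {ty : Sym2 V → Fin 3} {At : Finset V} {B : Finset (Tri V)} {ε κ c : ℝ}

/-- edges inside `At` -/
def P1 (At : Finset V) (G : Finset (Sym2 V)) (u v : V) : Prop := u ∈ At ∧ v ∈ At ∧ s(u, v) ∈ G

/-- exceptional edges between typical vertices -/
def P3 (sd pt : V → Bool) (At : Finset V) (G : Finset (Sym2 V)) (u v : V) : Prop :=
  u ∉ At ∧ v ∉ At ∧ Sa sd pt u v ∧ s(u, v) ∈ G

theorem z_of {f : V → V → V → ℝ} {Q : V → V → V → Prop}
    (h : ∀ a b c, f a b c ≠ 0 → Q a b c) {a b c : V} (hn : ¬ Q a b c) : f a b c = 0 :=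
  by_contra fun hc => hn (h a b c hc)

theorem asm {ε₀ δ₀ K : ℝ} (hF : FourSt ε₀) (hL : LinkSt δ₀ K) (hK : 0 < K) (hc : 0 < c)
    (hW : WT E H sd pt ty At ε c) (hRE : R ⊆ E)
    (hRc : ∀ e ∈ R, ¬ Exc sd pt e) (hRs : Sm κ R)
    (hRt : ∀ t, ∑ e ∈ R, gam (cut sd pt t) e = 0) (hB : SmT κ B) (hn : 0 < nn V)
    (hε0 : 0 ≤ ε) (hκ0 : 0 ≤ κ)
    (hε : ε ≤ 1 / 2000) (hκ : κ ≤ 1 / 2000) (hκc : κ ≤ c / 6) (hδ : ε + 2 * κ ≤ δ₀)
    (hδ' : 2 * ε / c ≤ δ₀) (hε₀ : 2 * K * ε + 4 * ε / c ≤ ε₀) (hε₀' : 2 * ε + κ ≤ ε₀) :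
    Frac (6 * (K + 1 + 4 / c)) (alT sd pt ty) (E \ R) B := by
  set G := E \ R with hGdef
  have hGnl : NW.NL G := hW.div.1.mono sdiff_subset
  set m := c / 2 * nn V with hmdef
  have hm : 0 < m := by positivity
  have hAc : (At.card : ℝ) ≤ ε * nn V := hW.At_card
  -- the apex count
  have hap : ∀ u v, s(u, v) ∈ G →
      m ≤ ((univ.filter (fun w => App sd pt ty G B At u v w)).card : ℝ) := by
    intro u v h
    refine le_trans ?_ (apx hW hRs hB h)
    rw [hmdef]
    exact mul_le_mul_of_nonneg_right (by linarith) hn.le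
  -- edges inside `At`
  obtain ⟨f1, f1n, f1K, f1s, f1l, f1b⟩ := spread hm
    (P1 At G) (App sd pt ty G B At)
    (fun u v h => ⟨h.2.1, h.1, by rw [Sym2.eq_swap]; exact h.2.2⟩) (fun u v w _ h => h.symm)
    (fun u v h => hap u v h.2.2) (fun u v w h _ hc => hc.1 h.2.1)
  -- exceptional edges between typical vertices
  obtain ⟨f3, f3n, f3K, f3s, f3l, f3b⟩ := spread hm
    (P3 sd pt At G) (App sd pt ty G B At)
    (fun u v h => ⟨h.2.1, h.1, h.2.2.1.symm, by rw [Sym2.eq_swap]; exact h.2.2.2⟩)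
    (fun u v w _ h => h.symm) (fun u v h => hap u v h.2.2.2) (fun u v w h _ hc => hc.2.2.1 h.2.2.1)
  have f1s' : ∀ a b e, f1 a b e ≠ 0 → a ∈ At ∧ b ∈ At ∧ e ∉ At ∧ Ok sd pt ty G B a b e :=
    fun a b e h => ⟨(f1s a b e h).1.1, (f1s a b e h).1.2.1, (f1s a b e h).2.1,
      (f1s a b e h).2.2.1⟩
  have f3s' : ∀ a b e, f3 a b e ≠ 0 → a ∉ At ∧ b ∉ At ∧ e ∉ At ∧ Ok sd pt ty G B a b e :=
    fun a b e h => ⟨(f3s a b e h).1.1, (f3s a b e h).1.2.1, (f3s a b e h).2.1,
      (f3s a b e h).2.2.1⟩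
  -- loads of `f1` at the pairs atypical - typical
  have c1 : ∀ u, ((univ.filter (fun w => P1 At G u w)).card : ℝ) ≤
      ε * nn V := by
    intro u
    refine le_trans ?_ hAc
    have : univ.filter (fun w => P1 At G u w) ⊆ At := fun w hw => (mem_filter.1 hw).2.2.1
    exact_mod_cast card_le_card this
  have c1' : ∀ u, u ∉ At →
      ((univ.filter (fun w => P1 At G u w)).card : ℝ) = 0 := by
    intro u hu
    rw [Finset.filter_false_of_mem (fun w _ hc => hu hc.1)]
    simp
  have c3 : ∀ u, u ∉ At →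
      ((univ.filter (fun w => P3 sd pt At G u w)).card : ℝ) ≤
      ε * nn V := by
    intro u hu
    refine le_trans ?_ (hW.exc u hu)
    have : univ.filter (fun w => P3 sd pt At G u w) ⊆
        (nbr E u).filter (fun w => sd u = sd w ∧ pt u = pt w) := by
      intro w hw
      obtain ⟨-, -, -, h3, h4⟩ := mem_filter.1 hw
      exact mem_filter.2 ⟨mem_nbr.2 (mem_sdiff.1 h4).1, h3⟩
    exact_mod_cast card_le_card this
  have hm1 : 1 / m = 2 / (c * nn V) := by
    rw [hmdef]
    field_simp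
  have ld1 : ∀ a v, a ∈ At → v ∉ At → 0 ≤ ld f1 a v ∧ ld f1 a v ≤ 2 * ε / c := by
    intro a v ha hv
    refine ⟨ld_nonneg f1n a v, ?_⟩
    have h1 := f1b a v (fun hc => hv hc.2.1)
    rw [c1' v hv, add_zero] at h1
    refine h1.trans ?_
    have h2 : ((univ.filter (fun w => P1 At G a w)).card : ℝ) * (1 / m) ≤
        ε * nn V * (1 / m) := mul_le_mul_of_nonneg_right (c1 a) (by positivity)
    refine h2.trans (le_of_eq ?_)
    rw [hm1]
    field_simp
  -- the links
  have hlink : ∀ a, a ∈ At → ∃ g : V → V → ℝ, (∀ x y, 0 ≤ g x y) ∧ (∀ x y, g x y ≤ K / nn V) ∧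
      (∀ x y, g x y ≠ 0 → x ∉ At ∧ y ∉ At ∧ ¬ Sa sd pt x y ∧ Ok sd pt ty G B a x y) ∧
      ∀ x, x ∉ At → s(a, x) ∈ G → ∑ y, (g x y + g y x) = 1 - ld f1 a x := by
    intro a ha
    obtain ⟨g, g0, g1, g2, g3⟩ := link_at hL hW hRc hRs hB hn hε0 hκ0 hε hκ hδ a
      (fun v => if v ∈ At then 1 else 1 - ld f1 a v) (by
        intro v
        have hd0 : 0 ≤ δ₀ := le_trans (by positivity) hδ
        by_cases hv : v ∈ At
        · simp [hv, hd0]
        · simp only [hv, if_false]
          obtain ⟨h1, h2⟩ := ld1 a v ha hv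
          rw [abs_le]
          constructor <;> linarith)
    refine ⟨g, g0, g1, g2, ?_⟩
    intro x hx hax
    rw [g3 x hx hax, if_neg hx]
  choose! g g0 g1 g2 g3 using hlink
  obtain ⟨f2, hf2⟩ : ∃ f2 : V → V → V → ℝ, f2 = fun u v w => if u ∈ At then g u v w else 0 :=
    ⟨_, rfl⟩
  have f2n : ∀ u v w, 0 ≤ f2 u v w := by
    intro u v w
    rw [hf2]
    simp only
    split_ifs with h
    · exact g0 u h v w
    · exact le_refl _
  have f2K : ∀ u v w, f2 u v w ≤ K / nn V := by
    intro u v w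
    rw [hf2]
    simp only
    split_ifs with h
    · exact g1 u h v w
    · positivity
  have f2s : ∀ a b e, f2 a b e ≠ 0 → a ∈ At ∧ b ∉ At ∧ e ∉ At ∧ ¬ Sa sd pt b e ∧
      Ok sd pt ty G B a b e := by
    intro a b e h
    rw [hf2] at h
    simp only at h
    split_ifs at h with h1
    · exact ⟨h1, g2 a h1 b e h⟩
    · exact absurd rfl h
  -- the sum
  obtain ⟨F, hFd⟩ : ∃ F : V → V → V → ℝ, F = fun u v w => (f1 u v w + f2 u v w) + f3 u v w :=
    ⟨_, rfl⟩
  have ldF : ∀ u v, ld F u v = ld f1 u v + ld f2 u v + ld f3 u v := by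
    intro u v
    rw [hFd, ld_add, ld_add]
  have Fn : ∀ u v w, 0 ≤ F u v w := by
    intro u v w
    rw [hFd]
    have := f1n u v w
    have := f2n u v w
    have := f3n u v w
    simp only
    linarith
  have FK : ∀ u v w, F u v w ≤ (K + 4 / c) / nn V := by
    intro u v w
    have h1 := f1K u v w
    have h2 := f2K u v w
    have h3 := f3K u v w
    rw [hm1] at h1 h3
    have h4 : (K + 4 / c) / nn V = 2 / (c * nn V) + K / nn V + 2 / (c * nn V) := by
      field_simp
      ring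
    rw [h4, hFd]
    simp only
    linarith
  have Fs : ∀ a b e, F a b e ≠ 0 → Ok sd pt ty G B a b e := by
    intro a b e h
    by_contra hcon
    apply h
    rw [hFd]
    simp only
    rw [z_of f1s' (fun h => hcon h.2.2.2), z_of f2s (fun h => hcon h.2.2.2.2),
      z_of f3s' (fun h => hcon h.2.2.2)]
    norm_num
  have Ff : ∀ u v, s(u, v) ∈ G → (u ∈ At ∨ v ∈ At ∨ Sa sd pt u v) → ld F u v = 1 := by
    have key : ∀ u v, s(u, v) ∈ G → u ∈ At → ld F u v = 1 := by
      intro u v hg hu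
      rw [ldF]
      have e3 : ld f3 u v = 0 := ld_supp fun w => ⟨z_of f3s' fun h => h.1 hu,
        z_of f3s' fun h => h.1 hu, z_of f3s' fun h => h.2.1 hu, z_of f3s' fun h => h.2.2.1 hu,
        z_of f3s' fun h => h.2.1 hu, z_of f3s' fun h => h.2.2.1 hu⟩
      by_cases hv : v ∈ At
      · have e1 := f1l u v ⟨hu, hv, hg⟩
        have e2 : ld f2 u v = 0 := ld_supp fun w => ⟨z_of f2s fun h => h.2.1 hv,
          z_of f2s fun h => h.2.2.1 hv, z_of f2s fun h => h.2.1 hu, z_of f2s fun h => h.2.2.1 hu,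
          z_of f2s fun h => h.2.1 hu, z_of f2s fun h => h.2.1 hv⟩
        rw [e1, e2, e3]
        norm_num
      · have e2 : ld f2 u v = 1 - ld f1 u v := by
          rw [← g3 u hu v hv hg]
          unfold ld
          refine Finset.sum_congr rfl fun w _ => ?_
          have a1 : f2 v u w = 0 := z_of f2s fun h => hv h.1
          have a2 : f2 v w u = 0 := z_of f2s fun h => hv h.1
          have a3 : f2 w u v = 0 := z_of f2s fun h => h.2.1 hu
          have a4 : f2 w v u = 0 := z_of f2s fun h => h.2.2.1 hu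
          have a5 : f2 u v w = g u v w := by
            rw [hf2]
            simp [hu]
          have a6 : f2 u w v = g u w v := by
            rw [hf2]
            simp [hu]
          rw [a1, a2, a3, a4, a5, a6]
          ring
        rw [e2, e3]
        ring
    intro u v hg h
    rcases h with h | h | h
    · exact key u v hg h
    · rw [ld_comm]
      exact key v u (by rwa [Sym2.eq_swap]) h
    · by_cases hu : u ∈ At
      · exact key u v hg hu
      by_cases hv : v ∈ At
      · rw [ld_comm]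
        exact key v u (by rwa [Sym2.eq_swap]) hv
      rw [ldF]
      have e1 : ld f1 u v = 0 := ld_supp fun w => ⟨z_of f1s' fun h => hu h.1,
        z_of f1s' fun h => hu h.1, z_of f1s' fun h => hv h.1, z_of f1s' fun h => hv h.1,
        z_of f1s' fun h => hu h.2.1, z_of f1s' fun h => hv h.2.1⟩
      have e2 : ld f2 u v = 0 := ld_supp fun w => ⟨z_of f2s fun h => hu h.1,
        z_of f2s fun h => hu h.1, z_of f2s fun h => hv h.1, z_of f2s fun h => hv h.1,
        z_of f2s fun h' => h'.2.2.2.1 h, z_of f2s fun h' => h'.2.2.2.1 h.symm⟩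
      have e3 := f3l u v ⟨hu, hv, h, hg⟩
      rw [e1, e2, e3]
      norm_num
  have Fb : ∀ u v, u ∉ At → v ∉ At → ¬ Sa sd pt u v → ld F u v ≤ ε₀ := by
    intro u v hu hv hs
    refine le_trans ?_ hε₀
    rw [ldF]
    have e1 : ld f1 u v = 0 := ld_supp fun w => ⟨z_of f1s' fun h => hu h.1,
      z_of f1s' fun h => hu h.1, z_of f1s' fun h => hv h.1, z_of f1s' fun h => hv h.1,
      z_of f1s' fun h => hu h.2.1, z_of f1s' fun h => hv h.2.1⟩
    have e3 : ld f3 u v ≤ 4 * ε / c := by
      have h1 := f3b u v (fun hc => hs hc.2.2.1)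
      refine h1.trans ?_
      have h2 := mul_le_mul_of_nonneg_right (add_le_add (c3 u hu) (c3 v hv))
        (show (0 : ℝ) ≤ 1 / m by positivity)
      refine h2.trans (le_of_eq ?_)
      rw [hm1]
      field_simp
      ring
    have e2 : ld f2 u v ≤ 2 * K * ε := by
      have h1 : ld f2 u v = ∑ w, (f2 w u v + f2 w v u) := by
        unfold ld
        refine Finset.sum_congr rfl fun w _ => ?_
        have a1 : f2 u v w = 0 := z_of f2s fun h => hu h.1
        have a2 : f2 u w v = 0 := z_of f2s fun h => hu h.1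
        have a3 : f2 v u w = 0 := z_of f2s fun h => hv h.1
        have a4 : f2 v w u = 0 := z_of f2s fun h => hv h.1
        rw [a1, a2, a3, a4]
        ring
      rw [h1]
      have h2 : ∀ w, f2 w u v + f2 w v u ≤ if w ∈ At then 2 * K / nn V else 0 := by
        intro w
        split_ifs with hw
        · have := f2K w u v
          have := f2K w v u
          have h3 : 2 * K / nn V = K / nn V + K / nn V := by ring
          rw [h3]
          linarith
        · rw [z_of f2s fun h => hw h.1, z_of f2s fun h => hw h.1]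
          norm_num
      refine (Finset.sum_le_sum fun w _ => h2 w).trans ?_
      rw [Finset.sum_ite_mem, Finset.univ_inter, Finset.sum_const, nsmul_eq_mul]
      have h3 := mul_le_mul_of_nonneg_right hAc (show (0 : ℝ) ≤ 2 * K / nn V by positivity)
      refine h3.trans (le_of_eq ?_)
      field_simp
    linarith
  -- type sums
  have htot : ∀ t, ∑ e ∈ G, gamT sd pt ty t e = 0 := by
    intro t
    have h1 := hW.tot t
    have h2 : ∑ e ∈ R, gamT sd pt ty t e = 0 := by
      rw [← hRt t]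
      refine Finset.sum_congr rfl fun e he => ?_
      unfold gamT
      rw [if_neg (fun hc => hRc e he hc.1)]
    have h3 := Finset.sum_sdiff (f := fun e => gamT sd pt ty t e) hRE
    rw [hGdef]
    linarith
  have hts : ∀ t, 3 * ∑ x ∈ ((univ \ At) ×ˢ (univ \ At)).filter
        (fun x => CT sd pt t x.1 x.2 ∧ Gr G x.1 x.2), (1 - ld F x.1 x.2) =
      ∑ x ∈ ((univ \ At) ×ˢ (univ \ At)).filter
        (fun x => ¬ Sa sd pt x.1 x.2 ∧ Gr G x.1 x.2), (1 - ld F x.1 x.2) :=
    fun t => type_sum hGnl Fs Ff t (htot t)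
  obtain ⟨f4, f4n, f4K, f4s, f4l⟩ := hF V (univ \ At) sd pt (Gr G) (BdB B)
    (fun u v => 1 - ld F u v) hn (fun u v h => by unfold Gr at h ⊢; rw [Sym2.eq_swap]; exact h)
    (fun u v w h => h.swap12) (fun u v w h => h.swap23) (by
      intro a b
      have h1 := abs_le.1 (hW.part a b)
      have h2 : ((univ \ At).filter (fun v => sd v = a ∧ pt v = b)).card ≤ (Pa sd pt a b).card := by
        refine card_le_card fun v hv => ?_
        unfold Pa
        exact mem_filter.2 ⟨mem_univ _, (mem_filter.1 hv).2⟩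
      have h3 : (Pa sd pt a b).card ≤ ((univ \ At).filter (fun v => sd v = a ∧ pt v = b)).card +
          At.card := by
        refine le_trans (card_le_card fun v hv => ?_) (card_union_le _ _)
        unfold Pa at hv
        by_cases h : v ∈ At
        · exact mem_union_right _ h
        · exact mem_union_left _ (mem_filter.2 ⟨mem_sdiff.2 ⟨mem_univ _, h⟩, (mem_filter.1 hv).2⟩)
      have h2' : (((univ \ At).filter (fun v => sd v = a ∧ pt v = b)).card : ℝ) ≤
        ((Pa sd pt a b).card : ℝ) := by exact_mod_cast h2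
      have h3' : ((Pa sd pt a b).card : ℝ) ≤
        (((univ \ At).filter (fun v => sd v = a ∧ pt v = b)).card : ℝ) + (At.card : ℝ) := by
        exact_mod_cast h3
      have h4 : (2 * ε + κ) * nn V ≤ ε₀ * nn V := mul_le_mul_of_nonneg_right hε₀' hn.le
      have h5 : 0 ≤ κ * nn V := by positivity
      have h6 : 0 ≤ ε * nn V := by positivity
      rw [abs_le]
      constructor <;> nlinarith) (by
      intro u hu
      have hu' : u ∉ At := (mem_sdiff.1 hu).2
      have h1 : (univ \ At).filter (fun v => ¬ Sa sd pt u v ∧ ¬ Gr G u v) ⊆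
          univ.filter (fun w => ¬ (sd u = sd w ∧ pt u = pt w) ∧ s(u, w) ∉ E) ∪ nbr R u := by
        intro w hw
        obtain ⟨-, h1, h2⟩ := mem_filter.1 hw
        by_cases h3 : s(u, w) ∈ E
        · refine mem_union_right _ (mem_nbr.2 ?_)
          by_contra h4
          exact h2 (mem_sdiff.2 ⟨h3, h4⟩)
        · exact mem_union_left _ (mem_filter.2 ⟨mem_univ _, h1, h3⟩)
      have h2 : (((univ \ At).filter (fun v => ¬ Sa sd pt u v ∧ ¬ Gr G u v)).card : ℝ) ≤
          ((univ.filter (fun w => ¬ (sd u = sd w ∧ pt u = pt w) ∧ s(u, w) ∉ E)).card : ℝ) +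
          ((nbr R u).card : ℝ) := by
        exact_mod_cast (card_le_card h1).trans (card_union_le _ _)
      have h3 := hW.miss u hu'
      have h4 : ((nbr R u).card : ℝ) ≤ κ * nn V := hRs u
      have h5 : (2 * ε + κ) * nn V ≤ ε₀ * nn V := mul_le_mul_of_nonneg_right hε₀' hn.le
      have h6 : 0 ≤ ε * nn V := by positivity
      nlinarith) (by
      intro u v
      have h1 := card_BdB hB u v
      have h5 : (2 * ε + κ) * nn V ≤ ε₀ * nn V := mul_le_mul_of_nonneg_right hε₀' hn.le
      have h6 : 0 ≤ ε * nn V := by positivity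
      nlinarith) (fun u v => by rw [ld_comm]) (by
      intro u hu v hv hs hg
      have h1 := Fb u v (mem_sdiff.1 hu).2 (mem_sdiff.1 hv).2 hs
      have h2 := ld_nonneg Fn u v
      rw [abs_le]
      constructor <;> linarith) (by
      intro t t'
      have h1 := hts t
      have h2 := hts t'
      linarith)
  have hfr := frac_of_fun (K := K + 1 + 4 / c) (al := alT sd pt ty) (E := G) (B := B) hGnl
    (fun u v w => F u v w + f4 u v w)
    (fun u v w => add_nonneg (Fn u v w) (f4n u v w)) (by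
      intro u v w
      have h1 := FK u v w
      have h2 := f4K u v w
      have h3 : (K + 1 + 4 / c) / nn V = (K + 4 / c) / nn V + 1 / nn V := by
        ring
      rw [h3]
      exact add_le_add h1 h2) (by
      intro u v w h
      by_cases h1 : F u v w = 0
      · have h2 : f4 u v w ≠ 0 := by
          intro hc
          apply h
          rw [h1, hc, add_zero]
        obtain ⟨-, -, -, a1, a2, a3, b1, b2, b3, b4⟩ := f4s u v w h2
        exact ok_tri hGnl ⟨b1, b2, b3, b4, Or.inl ⟨a1, a2, a3⟩⟩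
      · exact ok_tri hGnl (Fs u v w h1)) (by
      intro u v hg
      rw [ld_add]
      by_cases hu : u ∈ At ∨ v ∈ At ∨ Sa sd pt u v
      · rw [Ff u v hg hu]
        have f4z : ∀ a b e, f4 a b e ≠ 0 → a ∉ At ∧ b ∉ At ∧ e ∉ At ∧ ¬ Sa sd pt a b ∧
            ¬ Sa sd pt a e ∧ ¬ Sa sd pt b e := by
          intro a b e h
          obtain ⟨a1, a2, a3, a4, a5, a6, -⟩ := f4s a b e h
          exact ⟨(mem_sdiff.1 a1).2, (mem_sdiff.1 a2).2, (mem_sdiff.1 a3).2, a4, a5, a6⟩
        have : ld f4 u v = 0 := by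
          refine ld_supp fun w => ?_
          rcases hu with h | h | h
          · exact ⟨z_of f4z fun h' => h'.1 h, z_of f4z fun h' => h'.1 h,
              z_of f4z fun h' => h'.2.1 h, z_of f4z fun h' => h'.2.2.1 h,
              z_of f4z fun h' => h'.2.1 h, z_of f4z fun h' => h'.2.2.1 h⟩
          · exact ⟨z_of f4z fun h' => h'.2.1 h, z_of f4z fun h' => h'.2.2.1 h,
              z_of f4z fun h' => h'.1 h, z_of f4z fun h' => h'.1 h,
              z_of f4z fun h' => h'.2.2.1 h, z_of f4z fun h' => h'.2.1 h⟩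
          · exact ⟨z_of f4z fun h' => h'.2.2.2.1 h, z_of f4z fun h' => h'.2.2.2.2.1 h,
              z_of f4z fun h' => h'.2.2.2.1 h.symm, z_of f4z fun h' => h'.2.2.2.2.1 h.symm,
              z_of f4z fun h' => h'.2.2.2.2.2 h, z_of f4z fun h' => h'.2.2.2.2.2 h.symm⟩
        rw [this, add_zero]
      · push Not at hu
        obtain ⟨c1, c2, c3⟩ := hu
        rw [f4l u (mem_sdiff.2 ⟨mem_univ _, c1⟩) v (mem_sdiff.2 ⟨mem_univ _, c2⟩) c3 hg]
        ring)
  exact hfr

end

end F3.FT
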