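import Mathlib

/-!
# An approximate right inverse gives an exact one (sup norm, finite dimensional)
-/

set_option autoImplicit false

namespace F3.FT

theorem approx_inv {ι : Type} [Fintype ι] (Z : Submodule ℝ (ι → ℝ))
    (L : (ι → ℝ) →ₗ[ℝ] (ι → ℝ)) (hZ : ∀ φ ∈ Z, L φ ∈ Z)
    (hL : ∀ φ ∈ Z, ∀ M : ℝ, (∀ i, |φ i| ≤ M) → ∀ i, |L φ i - φ i| ≤ M / 2) :
    ∀ φ ∈ Z, ∀ M : ℝ, (∀ i, |φ i| ≤ M) → ∃ ψ ∈ Z, L ψ = φ ∧ ∀ i, |ψ i| ≤ 2 * M := by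
  intro φ hφ M hM
  rcases isEmpty_or_nonempty ι with hι | hι
  · refine ⟨φ, hφ, ?_, fun i => isEmptyElim i⟩
    funext i
    exact isEmptyElim i
  -- the key estimate
  have key : ∀ ψ ∈ Z, ∀ C : ℝ, (∀ i, |L ψ i| ≤ C) → ∀ i, |ψ i| ≤ 2 * C := by
    intro ψ hψ C hC
    obtain ⟨i₀, hi₀⟩ := Finite.exists_max (fun i => |ψ i|)
    have h1 := hL ψ hψ |ψ i₀| hi₀ i₀
    have h2 := hC i₀
    have h3 : |ψ i₀| ≤ |L ψ i₀| + |L ψ i₀ - ψ i₀| := by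
      have h4 : ψ i₀ = L ψ i₀ - (L ψ i₀ - ψ i₀) := by ring
      calc |ψ i₀| = |L ψ i₀ - (L ψ i₀ - ψ i₀)| := by rw [← h4]
        _ ≤ |L ψ i₀| + |L ψ i₀ - ψ i₀| := abs_sub _ _
    intro i
    have h5 := hi₀ i
    linarith
  have hinj : Function.Injective (L.restrict hZ) := by
    rw [← LinearMap.ker_eq_bot, LinearMap.ker_eq_bot']
    intro ψ hψ
    have h1 : L (ψ : ι → ℝ) = 0 := congrArg Subtype.val hψ
    have h2 := key ψ ψ.2 0 (fun i => by rw [h1]; simp)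
    apply Subtype.ext
    funext i
    have h3 := h2 i
    rw [mul_zero] at h3
    exact abs_nonpos_iff.1 h3
  have hsur : Function.Surjective (L.restrict hZ) := LinearMap.injective_iff_surjective.1 hinj
  obtain ⟨ψ, hψ⟩ := hsur ⟨φ, hφ⟩
  have h1 : L (ψ : ι → ℝ) = φ := congrArg Subtype.val hψ
  exact ⟨ψ, ψ.2, h1, key ψ ψ.2 M (by rw [h1]; exact hM)⟩

end F3.FT
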