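import Pool.Agent.F3.FT.Tw
import Pool.Agent.F3.FT.Contr

/-!
# F3, world T: the typical part. Nearly complete 4-partite graphs
-/

set_option autoImplicit false
set_option linter.unusedSectionVars false

namespace F3.FT

open Finset Classical

/-- labels of the four parts -/
abbrev B4 : Type := Bool × Bool

/-- the fourth part -/
def fo (a b c : B4) : B4 := (xor (xor a.1 b.1) c.1, xor (xor a.2 b.2) c.2)

/-- the pair of labels has type `t` -/
def ct (t : Fin 3) (a b : B4) : Bool :=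
  (if t = 0 then a.1 == b.1 else if t = 1 then a.2 == b.2 else (xor a.1 a.2) == (xor b.1 b.2)) &&
    !(a == b)

def shf (a b : B4) : B4 := (xor a.1 b.1, xor a.2 b.2)
def cc (a b : B4) : B4 := if shf a b = (false, true) then (true, false) else (false, true)
def p3 (a b : B4) : B4 := shf a (cc a b)
def p4 (a b : B4) : B4 := shf b (cc a b)

theorem four_comb : ∀ a b : B4, a ≠ b → a ≠ p3 a b ∧ a ≠ p4 a b ∧ b ≠ p3 a b ∧ b ≠ p4 a b ∧
    p3 a b ≠ p4 a b ∧ fo a b (p3 a b) = p4 a b ∧ fo a b (p4 a b) = p3 a b ∧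
    ∀ q : B4, q ≠ a → q ≠ b → q = p3 a b ∨ q = p4 a b := by decide

theorem ct_one : ∀ (t : Fin 3) (a b c : B4), a ≠ b → a ≠ c → b ≠ c →
    (if ct t a b = true then 1 else 0) + (if ct t a c = true then 1 else 0) +
      (if ct t b c = true then 1 else 0) = 1 := by decide

theorem ct_comm : ∀ (t : Fin 3) (a b : B4), ct t a b = ct t b a := by decide

theorem fo_swap : ∀ a b c : B4, fo a b c = fo b a c ∧ fo a b c = fo a c b := by decide

theorem pairing (m : B4 → B4 → ℝ) (hm : ∀ a b, m a b = m b a) (s : ℝ)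
    (hs : ∀ t : Fin 3, ∑ a : B4, ∑ b : B4, (if ct t a b = true then m a b else 0) = 2 * s) :
    ∀ a b : B4, a ≠ b → m a (p3 a b) + m b (p4 a b) = s ∧ m a (p4 a b) + m b (p3 a b) = s := by
  have e0 := hs 0
  have e1 := hs 1
  have e2 := hs 2
  simp [Fintype.sum_prod_type, ct] at e0 e1 e2
  have h1 := hm (false, false) (false, true)
  have h2 := hm (false, false) (true, false)
  have h3 := hm (false, false) (true, true)
  have h4 := hm (false, true) (true, false)
  have h5 := hm (false, true) (true, true)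
  have h6 := hm (true, false) (true, true)
  intro a b hab
  rcases a with ⟨_ | _, _ | _⟩ <;> rcases b with ⟨_ | _, _ | _⟩ <;>
    first
      | exact absurd rfl hab
      | (simp only [p3, p4, cc, shf]; constructor <;> simp <;> linarith)

section Ops

variable {V : Type} [Fintype V]

/-- the vertices of `W` in the part `q` -/
noncomputable def Wq (W : Finset V) (p : V → B4) (q : B4) : Finset V := W.filter (fun x => p x = q)

/-- evaluation -/
noncomputable def prj (i : V × V) : (V × V → ℝ) →ₗ[ℝ] ℝ := LinearMap.proj i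

theorem prj_apply (i : V × V) (φ : V × V → ℝ) : prj i φ = φ i := rfl

/-- row average -/
noncomputable def Rl (W : Finset V) (p : V → B4) (N : ℝ) (u : V) (q : B4) :
    (V × V → ℝ) →ₗ[ℝ] ℝ :=
  (1 / N) • ∑ x ∈ Wq W p q, prj (u, x)

/-- block average -/
noncomputable def Ml (W : Finset V) (p : V → B4) (N : ℝ) (q q' : B4) :
    (V × V → ℝ) →ₗ[ℝ] ℝ :=
  (1 / N) • ∑ x ∈ Wq W p q, Rl W p N x q'

/-- half of the sum over a type -/
noncomputable def Sl (W : Finset V) (p : V → B4) (N : ℝ) : (V × V → ℝ) →ₗ[ℝ] ℝ :=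
  (1 / 2 : ℝ) • ∑ q : B4, Ml W p N q (q.1, !q.2)

/-- the weight of the triple `u v w` -/
noncomputable def Yl (W : Finset V) (p : V → B4) (N : ℝ) (u v w : V) :
    (V × V → ℝ) →ₗ[ℝ] ℝ :=
  (1 / (2 * N)) • ((prj (u, v) + prj (u, w) + prj (v, w)) -
    (Rl W p N u (fo (p u) (p v) (p w)) + Rl W p N v (fo (p u) (p v) (p w)) +
      Rl W p N w (fo (p u) (p v) (p w))) +
    (Ml W p N (p u) (fo (p u) (p v) (p w)) + Ml W p N (p v) (fo (p u) (p v) (p w)) +
      Ml W p N (p w) (fo (p u) (p v) (p w))) - Sl W p N)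

theorem Rl_apply (W : Finset V) (p : V → B4) (N : ℝ) (u : V) (q : B4) (φ : V × V → ℝ) :
    Rl W p N u q φ = (1 / N) * ∑ x ∈ Wq W p q, φ (u, x) := by
  unfold Rl
  rw [LinearMap.smul_apply, LinearMap.sum_apply, smul_eq_mul]
  rfl

theorem Ml_apply (W : Finset V) (p : V → B4) (N : ℝ) (q q' : B4) (φ : V × V → ℝ) :
    Ml W p N q q' φ = (1 / N) * ∑ x ∈ Wq W p q, Rl W p N x q' φ := by
  unfold Ml
  rw [LinearMap.smul_apply, LinearMap.sum_apply, smul_eq_mul]

theorem Sl_apply (W : Finset V) (p : V → B4) (N : ℝ) (φ : V × V → ℝ) :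
    Sl W p N φ = (1 / 2) * ∑ q : B4, Ml W p N q (q.1, !q.2) φ := by
  unfold Sl
  rw [LinearMap.smul_apply, LinearMap.sum_apply, smul_eq_mul]

theorem Yl_apply (W : Finset V) (p : V → B4) (N : ℝ) (u v w : V) (φ : V × V → ℝ) :
    Yl W p N u v w φ = (1 / (2 * N)) * ((φ (u, v) + φ (u, w) + φ (v, w)) -
    (Rl W p N u (fo (p u) (p v) (p w)) φ + Rl W p N v (fo (p u) (p v) (p w)) φ +
      Rl W p N w (fo (p u) (p v) (p w)) φ) +
    (Ml W p N (p u) (fo (p u) (p v) (p w)) φ + Ml W p N (p v) (fo (p u) (p v) (p w)) φ +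
      Ml W p N (p w) (fo (p u) (p v) (p w)) φ) - Sl W p N φ) := by
  unfold Yl
  simp only [LinearMap.smul_apply, LinearMap.add_apply, LinearMap.sub_apply, smul_eq_mul,
    prj_apply]

theorem Yl_swap12 (W : Finset V) (p : V → B4) (N : ℝ) (u v w : V) (φ : V × V → ℝ)
    (hφ : ∀ x y, φ (x, y) = φ (y, x)) : Yl W p N u v w φ = Yl W p N v u w φ := by
  rw [Yl_apply, Yl_apply, (fo_swap (p u) (p v) (p w)).1, hφ u v]
  ring

theorem Yl_swap23 (W : Finset V) (p : V → B4) (N : ℝ) (u v w : V) (φ : V × V → ℝ)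
    (hφ : ∀ x y, φ (x, y) = φ (y, x)) : Yl W p N u v w φ = Yl W p N u w v φ := by
  rw [Yl_apply, Yl_apply, (fo_swap (p u) (p v) (p w)).2, hφ v w]
  ring

/-- bounds -/
theorem Rl_bound (W : Finset V) (p : V → B4) {N : ℝ} (hN : 0 < N)
    (hW : ∀ q, ((Wq W p q).card : ℝ) ≤ 2 * N) {M : ℝ} (φ : V × V → ℝ) (hM : ∀ i, |φ i| ≤ M)
    (u : V) (q : B4) : |Rl W p N u q φ| ≤ 2 * M := by
  have hM0 : 0 ≤ M := (abs_nonneg _).trans (hM (u, u))
  rw [Rl_apply, abs_mul, abs_of_pos (by positivity : (0:ℝ) < 1 / N), one_div,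
    inv_mul_le_iff₀ hN]
  calc |∑ x ∈ Wq W p q, φ (u, x)| ≤ ∑ x ∈ Wq W p q, |φ (u, x)| := abs_sum_le_sum_abs _ _
    _ ≤ ∑ x ∈ Wq W p q, M := sum_le_sum (fun x _ => hM _)
    _ = ((Wq W p q).card : ℝ) * M := by rw [sum_const, nsmul_eq_mul]
    _ ≤ (2 * N) * M := mul_le_mul_of_nonneg_right (hW q) hM0
    _ = N * (2 * M) := by ring

theorem Ml_bound (W : Finset V) (p : V → B4) {N : ℝ} (hN : 0 < N)
    (hW : ∀ q, ((Wq W p q).card : ℝ) ≤ 2 * N) {M : ℝ} (hM0 : 0 ≤ M) (φ : V × V → ℝ)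
    (hM : ∀ i, |φ i| ≤ M) (q q' : B4) : |Ml W p N q q' φ| ≤ 4 * M := by
  rw [Ml_apply, abs_mul, abs_of_pos (by positivity : (0:ℝ) < 1 / N), one_div,
    inv_mul_le_iff₀ hN]
  calc |∑ x ∈ Wq W p q, Rl W p N x q' φ| ≤ ∑ x ∈ Wq W p q, |Rl W p N x q' φ| :=
        abs_sum_le_sum_abs _ _
    _ ≤ ∑ x ∈ Wq W p q, (2 * M) := sum_le_sum (fun x _ => Rl_bound W p hN hW φ hM x q')
    _ = ((Wq W p q).card : ℝ) * (2 * M) := by rw [sum_const, nsmul_eq_mul]
    _ ≤ (2 * N) * (2 * M) := mul_le_mul_of_nonneg_right (hW q) (by positivity)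
    _ = N * (4 * M) := by ring

theorem Sl_bound (W : Finset V) (p : V → B4) {N : ℝ} (hN : 0 < N)
    (hW : ∀ q, ((Wq W p q).card : ℝ) ≤ 2 * N) {M : ℝ} (hM0 : 0 ≤ M) (φ : V × V → ℝ)
    (hM : ∀ i, |φ i| ≤ M) : |Sl W p N φ| ≤ 8 * M := by
  rw [Sl_apply, abs_mul, abs_of_pos (by norm_num : (0:ℝ) < 1 / 2)]
  have : |∑ q : B4, Ml W p N q (q.1, !q.2) φ| ≤ 16 * M := by
    calc |∑ q : B4, Ml W p N q (q.1, !q.2) φ| ≤ ∑ q : B4, |Ml W p N q (q.1, !q.2) φ| :=
          abs_sum_le_sum_abs _ _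
      _ ≤ ∑ q : B4, 4 * M := sum_le_sum (fun q _ => Ml_bound W p hN hW hM0 φ hM _ _)
      _ = 16 * M := by simp [sum_const, nsmul_eq_mul]; ring
  linarith

theorem Yl_bound (W : Finset V) (p : V → B4) {N : ℝ} (hN : 0 < N)
    (hW : ∀ q, ((Wq W p q).card : ℝ) ≤ 2 * N) {M : ℝ} (φ : V × V → ℝ)
    (hM : ∀ i, |φ i| ≤ M) (u v w : V) : |Yl W p N u v w φ| ≤ 29 * M / (2 * N) := by
  have hM0 : 0 ≤ M := (abs_nonneg _).trans (hM (u, u))
  rw [Yl_apply, abs_mul, abs_of_pos (by positivity : (0:ℝ) < 1 / (2 * N)), one_div,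
    inv_mul_le_iff₀ (by positivity : (0:ℝ) < 2 * N)]
  have e : (2 * N) * (29 * M / (2 * N)) = 29 * M := by field_simp
  rw [e]
  set l := fo (p u) (p v) (p w)
  have a1 := abs_le.1 (hM (u, v))
  have a2 := abs_le.1 (hM (u, w))
  have a3 := abs_le.1 (hM (v, w))
  have b1 := abs_le.1 (Rl_bound W p hN hW φ hM u l)
  have b2 := abs_le.1 (Rl_bound W p hN hW φ hM v l)
  have b3 := abs_le.1 (Rl_bound W p hN hW φ hM w l)
  have c1 := abs_le.1 (Ml_bound W p hN hW hM0 φ hM (p u) l)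
  have c2 := abs_le.1 (Ml_bound W p hN hW hM0 φ hM (p v) l)
  have c3 := abs_le.1 (Ml_bound W p hN hW hM0 φ hM (p w) l)
  have d := abs_le.1 (Sl_bound W p hN hW hM0 φ hM)
  rw [abs_le]
  constructor <;> linarith [a1.1, a1.2, a2.1, a2.2, a3.1, a3.2, b1.1, b1.2, b2.1, b2.2, b3.1,
    b3.2, c1.1, c1.2, c2.1, c2.2, c3.1, c3.2, d.1, d.2]

end Ops

section Types

variable {V : Type} [Fintype V]

/-- the sum over the ordered pairs of type `t` -/
noncomputable def TS (p : V → B4) (t : Fin 3) (φ : V × V → ℝ) : ℝ :=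
  ∑ x, ∑ y, if ct t (p x) (p y) = true then φ (x, y) else 0

theorem sum_parts (W : Finset V) (p : V → B4) (F : B4 → V → ℝ) :
    ∑ q : B4, ∑ x ∈ Wq W p q, F q x = ∑ x ∈ W, F (p x) x := by
  unfold Wq
  simp_rw [sum_filter]
  rw [sum_comm]
  refine sum_congr rfl (fun x _ => ?_)
  rw [sum_ite_eq]
  simp

theorem NMl (W : Finset V) (p : V → B4) {N : ℝ} (hN : 0 < N) (q q' : B4) (φ : V × V → ℝ) :
    N ^ 2 * Ml W p N q q' φ = ∑ x ∈ Wq W p q, ∑ y ∈ Wq W p q', φ (x, y) := by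
  rw [Ml_apply]
  simp_rw [Rl_apply]
  rw [← mul_sum]
  field_simp

theorem Ml_symm (W : Finset V) (p : V → B4) {N : ℝ} (hN : 0 < N) (q q' : B4) (φ : V × V → ℝ)
    (hφ : ∀ x y, φ (x, y) = φ (y, x)) : Ml W p N q q' φ = Ml W p N q' q φ := by
  have h1 := NMl W p hN q q' φ
  have h2 := NMl W p hN q' q φ
  rw [sum_comm] at h2
  have h3 : N ^ 2 * Ml W p N q q' φ = N ^ 2 * Ml W p N q' q φ := by
    rw [h1, h2]
    exact sum_congr rfl (fun x _ => sum_congr rfl (fun y _ => hφ x y))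
  exact mul_left_cancel₀ (by positivity) h3

theorem TS_eq (W : Finset V) (p : V → B4) {N : ℝ} (hN : 0 < N) (t : Fin 3) (φ : V × V → ℝ)
    (h0 : ∀ x y, ¬ (x ∈ W ∧ y ∈ W) → φ (x, y) = 0) :
    N ^ 2 * ∑ q : B4, ∑ q' : B4, (if ct t q q' = true then Ml W p N q q' φ else 0) =
      TS p t φ := by
  have e1 : N ^ 2 * ∑ q : B4, ∑ q' : B4, (if ct t q q' = true then Ml W p N q q' φ else 0) =
      ∑ q : B4, ∑ x ∈ Wq W p q, ∑ y ∈ W, (if ct t q (p y) = true then φ (x, y) else 0) := by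
    rw [mul_sum]
    refine sum_congr rfl (fun q _ => ?_)
    rw [mul_sum]
    have e2 : ∀ q' : B4, N ^ 2 * (if ct t q q' = true then Ml W p N q q' φ else 0) =
        ∑ x ∈ Wq W p q, ∑ y ∈ Wq W p q', (if ct t q q' = true then φ (x, y) else 0) := by
      intro q'
      by_cases h : ct t q q' = true
      · simp only [h, if_true]
        exact NMl W p hN q q' φ
      · simp [h]
    simp_rw [e2]
    rw [sum_comm]
    refine sum_congr rfl (fun x _ => ?_)
    exact sum_parts W p (fun q' y => if ct t q q' = true then φ (x, y) else 0)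
  rw [e1, sum_parts W p (fun q x => ∑ y ∈ W, (if ct t q (p y) = true then φ (x, y) else 0))]
  unfold TS
  have e3 : ∀ x, ∑ y, (if ct t (p x) (p y) = true then φ (x, y) else 0) =
      if x ∈ W then ∑ y ∈ W, (if ct t (p x) (p y) = true then φ (x, y) else 0) else 0 := by
    intro x
    split_ifs with hx
    · symm
      apply sum_subset (subset_univ _)
      intro y _ hy
      rw [h0 x y (fun h => hy h.2)]
      simp
    · apply sum_eq_zero
      intro y _
      rw [h0 x y (fun h => hx h.1)]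
      simp
  simp_rw [e3]
  rw [← sum_filter]
  congr 1
  ext x
  simp

theorem two_Sl (W : Finset V) (p : V → B4) (N : ℝ) (φ : V × V → ℝ) :
    ∑ q : B4, ∑ q' : B4, (if ct 0 q q' = true then Ml W p N q q' φ else 0) =
      2 * Sl W p N φ := by
  rw [Sl_apply]
  simp [Fintype.sum_prod_type, ct]

theorem TS_triple (p : V → B4) (g : V → V → V → ℝ) (h12 : ∀ u v w, g u v w = g v u w)
    (h23 : ∀ u v w, g u v w = g u w v)
    (hs : ∀ u v w, g u v w ≠ 0 → p u ≠ p v ∧ p u ≠ p w ∧ p v ≠ p w) (t : Fin 3) :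
    3 * TS p t (fun i => ∑ w, g i.1 i.2 w) = ∑ u, ∑ v, ∑ w, g u v w := by
  have a1 : TS p t (fun i => ∑ w, g i.1 i.2 w) =
      ∑ u, ∑ v, ∑ w, (if ct t (p u) (p v) = true then g u v w else 0) := by
    unfold TS
    refine sum_congr rfl (fun u _ => sum_congr rfl (fun v _ => ?_))
    split_ifs <;> simp
  have a2 : TS p t (fun i => ∑ w, g i.1 i.2 w) =
      ∑ u, ∑ v, ∑ w, (if ct t (p u) (p w) = true then g u v w else 0) := by
    rw [a1]
    refine sum_congr rfl (fun u _ => ?_)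
    rw [sum_comm]
    refine sum_congr rfl (fun v _ => sum_congr rfl (fun w _ => ?_))
    rw [h23 u w v]
  have a3 : TS p t (fun i => ∑ w, g i.1 i.2 w) =
      ∑ u, ∑ v, ∑ w, (if ct t (p v) (p w) = true then g u v w else 0) := by
    rw [a2, sum_comm]
    refine sum_congr rfl (fun u _ => sum_congr rfl (fun v _ => sum_congr rfl (fun w _ => ?_)))
    rw [h12 v u w]
  have a4 : 3 * TS p t (fun i => ∑ w, g i.1 i.2 w) =
      TS p t (fun i => ∑ w, g i.1 i.2 w) + TS p t (fun i => ∑ w, g i.1 i.2 w) +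
        TS p t (fun i => ∑ w, g i.1 i.2 w) := by ring
  rw [a4]
  nth_rewrite 1 [a1]
  nth_rewrite 1 [a2]
  rw [a3]
  rw [← sum_add_distrib, ← sum_add_distrib]
  refine sum_congr rfl (fun u _ => ?_)
  rw [← sum_add_distrib, ← sum_add_distrib]
  refine sum_congr rfl (fun v _ => ?_)
  rw [← sum_add_distrib, ← sum_add_distrib]
  refine sum_congr rfl (fun w _ => ?_)
  by_cases h : g u v w = 0
  · simp [h]
  · obtain ⟨x1, x2, x3⟩ := hs u v w h
    have := ct_one t (p u) (p v) (p w) x1 x2 x3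
    have h2 : ((if ct t (p u) (p v) = true then (1:ℝ) else 0) +
        (if ct t (p u) (p w) = true then 1 else 0) +
      (if ct t (p v) (p w) = true then 1 else 0)) = 1 := by exact_mod_cast this
    calc _ = ((if ct t (p u) (p v) = true then (1:ℝ) else 0) +
        (if ct t (p u) (p w) = true then 1 else 0) +
      (if ct t (p v) (p w) = true then 1 else 0)) * g u v w := by
          split_ifs <;> ring
      _ = g u v w := by rw [h2, one_mul]

end Types

section MainF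

variable {V : Type} [Fintype V]

/-- allowed triples -/
def Al (W : Finset V) (p : V → B4) (G : V → V → Prop) (Bd : V → V → V → Prop) (u v w : V) : Prop :=
  u ∈ W ∧ v ∈ W ∧ w ∈ W ∧ p u ≠ p v ∧ p u ≠ p w ∧ p v ≠ p w ∧ G u v ∧ G u w ∧ G v w ∧ ¬ Bd u v w

/-- the hypotheses -/
structure FH (W : Finset V) (p : V → B4) (G : V → V → Prop) (Bd : V → V → V → Prop)
    (N e : ℝ) : Prop where
  N0 : 0 < N
  e0 : 0 ≤ e
  e1 : e ≤ 1 / 2000
  gs : ∀ u v, G u v → G v u
  b1 : ∀ u v w, Bd u v w → Bd v u w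
  b2 : ∀ u v w, Bd u v w → Bd u w v
  part : ∀ q, |((Wq W p q).card : ℝ) - N| ≤ 4 * e * N
  miss : ∀ u ∈ W, ((W.filter (fun v => p u ≠ p v ∧ ¬ G u v)).card : ℝ) ≤ 4 * e * N
  bad : ∀ u v, ((univ.filter (fun w => Bd u v w)).card : ℝ) ≤ 4 * e * N

variable {W : Finset V} {p : V → B4} {G : V → V → Prop} {Bd : V → V → V → Prop} {N e : ℝ}

theorem Al_12 (h : FH W p G Bd N e) (u v w : V) : Al W p G Bd u v w ↔ Al W p G Bd v u w := by
  unfold Al
  constructor
  · rintro ⟨a1, a2, a3, a4, a5, a6, a7, a8, a9, a10⟩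
    exact ⟨a2, a1, a3, a4.symm, a6, a5, h.gs _ _ a7, a9, a8, fun hb => a10 (h.b1 _ _ _ hb)⟩
  · rintro ⟨a1, a2, a3, a4, a5, a6, a7, a8, a9, a10⟩
    exact ⟨a2, a1, a3, a4.symm, a6, a5, h.gs _ _ a7, a9, a8, fun hb => a10 (h.b1 _ _ _ hb)⟩

theorem Al_23 (h : FH W p G Bd N e) (u v w : V) : Al W p G Bd u v w ↔ Al W p G Bd u w v := by
  unfold Al
  constructor
  · rintro ⟨a1, a2, a3, a4, a5, a6, a7, a8, a9, a10⟩
    exact ⟨a1, a3, a2, a5, a4, a6.symm, a8, a7, h.gs _ _ a9, fun hb => a10 (h.b2 _ _ _ hb)⟩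
  · rintro ⟨a1, a2, a3, a4, a5, a6, a7, a8, a9, a10⟩
    exact ⟨a1, a3, a2, a5, a4, a6.symm, a8, a7, h.gs _ _ a9, fun hb => a10 (h.b2 _ _ _ hb)⟩

theorem FH.two (h : FH W p G Bd N e) (q : B4) : ((Wq W p q).card : ℝ) ≤ 2 * N := by
  have h1 := (abs_le.1 (h.part q)).2
  have h2 : 4 * e * N ≤ N := by
    have := h.N0
    have := h.e1
    nlinarith
  linarith

/-- the operator -/
noncomputable def Lop (W : Finset V) (p : V → B4) (G : V → V → Prop) (Bd : V → V → V → Prop)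
    (N : ℝ) : (V × V → ℝ) →ₗ[ℝ] (V × V → ℝ) :=
  LinearMap.pi (fun i => ∑ w, if Al W p G Bd i.1 i.2 w then Yl W p N i.1 i.2 w else 0)

theorem Lop_apply (φ : V × V → ℝ) (i : V × V) : Lop W p G Bd N φ i =
    ∑ w, if Al W p G Bd i.1 i.2 w then Yl W p N i.1 i.2 w φ else 0 := by
  unfold Lop
  rw [LinearMap.pi_apply, LinearMap.sum_apply]
  refine sum_congr rfl (fun w _ => ?_)
  split_ifs <;> rfl

/-- the space -/
def Zf (W : Finset V) (p : V → B4) (G : V → V → Prop) : Submodule ℝ (V × V → ℝ) where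
  carrier := {φ | (∀ x y, φ (x, y) = φ (y, x)) ∧
    (∀ x y, ¬ (x ∈ W ∧ y ∈ W ∧ p x ≠ p y ∧ G x y) → φ (x, y) = 0) ∧
    ∀ t, TS p t φ = TS p 0 φ}
  add_mem' := by
    rintro φ ψ ⟨a1, a2, a3⟩ ⟨b1, b2, b3⟩
    refine ⟨fun x y => ?_, fun x y h => ?_, fun t => ?_⟩
    · rw [Pi.add_apply, Pi.add_apply, a1, b1]
    · rw [Pi.add_apply, a2 x y h, b2 x y h, add_zero]
    · have e : ∀ t, TS p t (φ + ψ) = TS p t φ + TS p t ψ := by
        intro t
        unfold TS
        rw [← sum_add_distrib]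
        refine sum_congr rfl (fun x _ => ?_)
        rw [← sum_add_distrib]
        refine sum_congr rfl (fun y _ => ?_)
        split_ifs <;> simp
      rw [e, e, a3, b3]
  zero_mem' := by
    refine ⟨fun x y => rfl, fun x y _ => rfl, fun t => ?_⟩
    unfold TS
    simp
  smul_mem' := by
    rintro c φ ⟨a1, a2, a3⟩
    refine ⟨fun x y => ?_, fun x y h => ?_, fun t => ?_⟩
    · rw [Pi.smul_apply, Pi.smul_apply, a1]
    · rw [Pi.smul_apply, a2 x y h, smul_zero]
    · have e : ∀ t, TS p t (c • φ) = c * TS p t φ := by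
        intro t
        unfold TS
        rw [mul_sum]
        refine sum_congr rfl (fun x _ => ?_)
        rw [mul_sum]
        refine sum_congr rfl (fun y _ => ?_)
        split_ifs <;> simp
      rw [e, e, a3]

theorem Zf_of (g : V → V → V → ℝ) (h12 : ∀ u v w, g u v w = g v u w)
    (h23 : ∀ u v w, g u v w = g u w v) (hs : ∀ u v w, g u v w ≠ 0 → Al W p G Bd u v w) :
    (fun i : V × V => ∑ w, g i.1 i.2 w) ∈ Zf W p G := by
  refine ⟨fun x y => ?_, fun x y hxy => ?_, fun t => ?_⟩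
  · exact sum_congr rfl (fun w _ => h12 x y w)
  · refine sum_eq_zero (fun w _ => ?_)
    by_contra h
    obtain ⟨a1, a2, a3, a4, a5, a6, a7, a8, a9, a10⟩ := hs x y w h
    exact hxy ⟨a1, a2, a4, a7⟩
  · have hs' : ∀ u v w, g u v w ≠ 0 → p u ≠ p v ∧ p u ≠ p w ∧ p v ≠ p w := by
      intro u v w h
      obtain ⟨a1, a2, a3, a4, a5, a6, a7, a8, a9, a10⟩ := hs u v w h
      exact ⟨a4, a5, a6⟩
    have e1 := TS_triple p g h12 h23 hs' t
    have e2 := TS_triple p g h12 h23 hs' 0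
    linarith

theorem Lop_mem (h : FH W p G Bd N e) (φ : V × V → ℝ) (hφ : φ ∈ Zf W p G) :
    Lop W p G Bd N φ ∈ Zf W p G := by
  have e1 : Lop W p G Bd N φ = fun i : V × V =>
      ∑ w, (fun u v w => if Al W p G Bd u v w then Yl W p N u v w φ else 0) i.1 i.2 w := by
    funext i
    rw [Lop_apply]
  rw [e1]
  refine Zf_of (Bd := Bd) (fun u v w => if Al W p G Bd u v w then Yl W p N u v w φ else 0)
    (fun u v w => ?_) (fun u v w => ?_) (fun u v w hne => ?_)
  · simp only [Al_12 h u v w, Yl_swap12 W p N u v w φ hφ.1]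
  · simp only [Al_23 h u v w, Yl_swap23 W p N u v w φ hφ.1]
  · by_contra hA
    exact hne (if_neg hA)

theorem near_full (h : FH W p G Bd N e) {u v : V} (hu : u ∈ W) (hv : v ∈ W) (hp : p u ≠ p v)
    (hG : G u v) (F : V → ℝ) {b : ℝ} (hb0 : 0 ≤ b) (hb : ∀ w, |F w| ≤ b) :
    |(∑ w, if Al W p G Bd u v w then F w else 0) -
      (∑ w ∈ Wq W p (p3 (p u) (p v)), F w + ∑ w ∈ Wq W p (p4 (p u) (p v)), F w)| ≤
      12 * e * N * b := by
  obtain ⟨c1, c2, c3, c4, c5, -, -, c8⟩ := four_comb (p u) (p v) hp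
  set q3 := p3 (p u) (p v)
  set q4 := p4 (p u) (p v)
  have e1 : ∑ w ∈ Wq W p q3, F w + ∑ w ∈ Wq W p q4, F w =
      ∑ w, if (w ∈ W ∧ p u ≠ p w ∧ p v ≠ p w) then F w else 0 := by
    unfold Wq
    rw [← sum_filter, ← sum_union]
    · refine sum_congr ?_ (fun _ _ => rfl)
      ext w
      simp only [mem_union, mem_filter, mem_univ, true_and]
      constructor
      · rintro (⟨a, b⟩ | ⟨a, b⟩)
        · exact ⟨a, by rw [b]; exact c1, by rw [b]; exact c3⟩
        · exact ⟨a, by rw [b]; exact c2, by rw [b]; exact c4⟩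
      · rintro ⟨a, b, c⟩
        rcases c8 (p w) (Ne.symm b) (Ne.symm c) with h | h
        · exact Or.inl ⟨a, h⟩
        · exact Or.inr ⟨a, h⟩
    · rw [disjoint_left]
      intro w h1 h2
      rw [mem_filter] at h1 h2
      exact c5 (h1.2.symm.trans h2.2)
  rw [e1, ← sum_sub_distrib]
  have e2 : ∀ w, (if Al W p G Bd u v w then F w else 0) -
      (if (w ∈ W ∧ p u ≠ p w ∧ p v ≠ p w) then F w else 0) =
      if ((w ∈ W ∧ p u ≠ p w ∧ p v ≠ p w) ∧ ¬ Al W p G Bd u v w) then -F w else 0 := by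
    intro w
    by_cases hA : Al W p G Bd u v w
    · have hP : w ∈ W ∧ p u ≠ p w ∧ p v ≠ p w := by
        obtain ⟨a1, a2, a3, a4, a5, a6, a7, a8, a9, a10⟩ := hA
        exact ⟨a3, a5, a6⟩
      rw [if_pos hA, if_pos hP, if_neg (fun h => h.2 hA), sub_self]
    · by_cases hP : w ∈ W ∧ p u ≠ p w ∧ p v ≠ p w
      · rw [if_neg hA, if_pos hP, if_pos ⟨hP, hA⟩, zero_sub]
      · rw [if_neg hA, if_neg hP, if_neg (fun h => hP h.1), sub_self]
  simp_rw [e2]
  rw [← sum_filter]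
  set B := univ.filter (fun w => (w ∈ W ∧ p u ≠ p w ∧ p v ≠ p w) ∧ ¬ Al W p G Bd u v w) with hB
  have hBc : (B.card : ℝ) ≤ 12 * e * N := by
    have hsub : B ⊆ (W.filter (fun w => p u ≠ p w ∧ ¬ G u w) ∪
        W.filter (fun w => p v ≠ p w ∧ ¬ G v w)) ∪ univ.filter (fun w => Bd u v w) := by
      intro w hw
      rw [hB, mem_filter] at hw
      obtain ⟨-, ⟨a1, a2, a3⟩, a4⟩ := hw
      simp only [mem_union, mem_filter, mem_univ, true_and]
      by_contra hcon
      push Not at hcon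
      obtain ⟨⟨b1, b2⟩, b3⟩ := hcon
      exact a4 ⟨hu, hv, a1, hp, a2, a3, hG, b1 a1 a2, b2 a1 a3, b3⟩
    have h1 := (card_le_card hsub).trans (card_union_le _ _)
    have h2 := card_union_le (W.filter (fun w => p u ≠ p w ∧ ¬ G u w))
      (W.filter (fun w => p v ≠ p w ∧ ¬ G v w))
    have h3 : (B.card : ℝ) ≤ (W.filter (fun w => p u ≠ p w ∧ ¬ G u w)).card +
        (W.filter (fun w => p v ≠ p w ∧ ¬ G v w)).card + (univ.filter (fun w => Bd u v w)).card := by
      exact_mod_cast h1.trans (Nat.add_le_add_right h2 _)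
    have := h.miss u hu
    have := h.miss v hv
    have := h.bad u v
    linarith
  calc |∑ w ∈ B, -F w| ≤ ∑ w ∈ B, |-F w| := abs_sum_le_sum_abs _ _
    _ ≤ ∑ w ∈ B, b := sum_le_sum (fun w _ => by rw [abs_neg]; exact hb w)
    _ = (B.card : ℝ) * b := by rw [sum_const, nsmul_eq_mul]
    _ ≤ 12 * e * N * b := mul_le_mul_of_nonneg_right hBc hb0

theorem block_sum {N : ℝ} (hN : 0 < N) (φ : V × V → ℝ) (u v : V) (q : B4) :
    ∑ w ∈ Wq W p q, Yl W p N u v w φ = (1 / (2 * N)) *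
      (((Wq W p q).card : ℝ) * φ (u, v) + N * Rl W p N u q φ + N * Rl W p N v q φ -
        ((Wq W p q).card : ℝ) * (Rl W p N u (fo (p u) (p v) q) φ +
          Rl W p N v (fo (p u) (p v) q) φ) - N * Ml W p N q (fo (p u) (p v) q) φ +
        ((Wq W p q).card : ℝ) * (Ml W p N (p u) (fo (p u) (p v) q) φ +
          Ml W p N (p v) (fo (p u) (p v) q) φ + Ml W p N q (fo (p u) (p v) q) φ) -
        ((Wq W p q).card : ℝ) * Sl W p N φ) := by
  have e1 : ∀ w ∈ Wq W p q, Yl W p N u v w φ = (1 / (2 * N)) *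
      (φ (u, v) + φ (u, w) + φ (v, w) - (Rl W p N u (fo (p u) (p v) q) φ +
          Rl W p N v (fo (p u) (p v) q) φ) - Rl W p N w (fo (p u) (p v) q) φ +
        (Ml W p N (p u) (fo (p u) (p v) q) φ +
          Ml W p N (p v) (fo (p u) (p v) q) φ + Ml W p N q (fo (p u) (p v) q) φ) -
        Sl W p N φ) := by
    intro w hw
    have hq : p w = q := (mem_filter.1 hw).2
    rw [Yl_apply, hq]
    ring
  rw [sum_congr rfl e1, ← mul_sum]
  congr 1
  have r1 : ∑ w ∈ Wq W p q, φ (u, w) = N * Rl W p N u q φ := by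
    rw [Rl_apply]; field_simp
  have r2 : ∑ w ∈ Wq W p q, φ (v, w) = N * Rl W p N v q φ := by
    rw [Rl_apply]; field_simp
  have r3 : ∑ w ∈ Wq W p q, Rl W p N w (fo (p u) (p v) q) φ =
      N * Ml W p N q (fo (p u) (p v) q) φ := by
    rw [Ml_apply]; field_simp
  simp only [sum_sub_distrib, sum_add_distrib, sum_const, nsmul_eq_mul, r1, r2, r3]
  ring

theorem Zf_pair (h : FH W p G Bd N e) (φ : V × V → ℝ) (hφ : φ ∈ Zf W p G) (a b : B4)
    (hab : a ≠ b) :
    Ml W p N a (p3 a b) φ + Ml W p N b (p4 a b) φ = Sl W p N φ ∧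
    Ml W p N a (p4 a b) φ + Ml W p N b (p3 a b) φ = Sl W p N φ := by
  have h0 : ∀ x y, ¬ (x ∈ W ∧ y ∈ W) → φ (x, y) = 0 := fun x y hxy =>
    hφ.2.1 x y (fun hh => hxy ⟨hh.1, hh.2.1⟩)
  refine pairing (fun a b => Ml W p N a b φ) (fun a b => Ml_symm W p h.N0 a b φ hφ.1)
    (Sl W p N φ) (fun t => ?_) a b hab
  have e1 := TS_eq W p h.N0 t φ h0
  have e2 := TS_eq W p h.N0 0 φ h0
  rw [hφ.2.2 t, ← e2] at e1
  have e3 := mul_left_cancel₀ (pow_ne_zero 2 h.N0.ne') e1
  rw [e3]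
  exact two_Sl W p N φ

theorem Lop_near (h : FH W p G Bd N e) (φ : V × V → ℝ) (hφ : φ ∈ Zf W p G) (M : ℝ)
    (hM : ∀ i, |φ i| ≤ M) (i : V × V) : |Lop W p G Bd N φ i - φ i| ≤ M / 2 := by
  obtain ⟨u, v⟩ := i
  have hM0 : 0 ≤ M := (abs_nonneg _).trans (hM (u, v))
  by_cases hc : u ∈ W ∧ v ∈ W ∧ p u ≠ p v ∧ G u v
  · obtain ⟨hu, hv, hp, hG⟩ := hc
    have hN := h.N0
    have h1 := near_full h hu hv hp hG (fun w => Yl W p N u v w φ)
      (b := 29 * M / (2 * N)) (by positivity) (fun w => Yl_bound W p hN h.two φ hM u v w)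
    obtain ⟨c1, c2, c3, c4, c5, c6, c7, c8⟩ := four_comb (p u) (p v) hp
    obtain ⟨z1, z2⟩ := Zf_pair h φ hφ (p u) (p v) hp
    rw [block_sum hN, block_sum hN, c6, c7] at h1
    rw [Lop_apply]
    set q3 := p3 (p u) (p v)
    set q4 := p4 (p u) (p v)
    have hM34 : Ml W p N q4 q3 φ = Ml W p N q3 q4 φ := Ml_symm W p hN q4 q3 φ hφ.1
    rw [hM34] at h1
    set n3 := ((Wq W p q3).card : ℝ)
    set n4 := ((Wq W p q4).card : ℝ)
    have p3' := abs_le.1 (h.part q3)
    have p4' := abs_le.1 (h.part q4)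
    set X3 := φ (u, v) - (Rl W p N u q4 φ + Rl W p N v q4 φ) +
      (Ml W p N (p u) q4 φ + Ml W p N (p v) q4 φ + Ml W p N q3 q4 φ) - Sl W p N φ with hX3
    set X4 := φ (u, v) - (Rl W p N u q3 φ + Rl W p N v q3 φ) +
      (Ml W p N (p u) q3 φ + Ml W p N (p v) q3 φ + Ml W p N q3 q4 φ) - Sl W p N φ with hX4
    have key : (1 / (2 * N)) * (n3 * φ (u, v) + N * Rl W p N u q3 φ + N * Rl W p N v q3 φ -
        n3 * (Rl W p N u q4 φ + Rl W p N v q4 φ) - N * Ml W p N q3 q4 φ +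
        n3 * (Ml W p N (p u) q4 φ + Ml W p N (p v) q4 φ + Ml W p N q3 q4 φ) -
        n3 * Sl W p N φ) + (1 / (2 * N)) * (n4 * φ (u, v) + N * Rl W p N u q4 φ +
        N * Rl W p N v q4 φ - n4 * (Rl W p N u q3 φ + Rl W p N v q3 φ) - N * Ml W p N q3 q4 φ +
        n4 * (Ml W p N (p u) q3 φ + Ml W p N (p v) q3 φ + Ml W p N q3 q4 φ) -
        n4 * Sl W p N φ) - φ (u, v) = ((n3 - N) * X3 + (n4 - N) * X4) / (2 * N) := by
      rw [hX3, hX4]
      have z1' : Sl W p N φ = Ml W p N (p u) q3 φ + Ml W p N (p v) q4 φ := z1.symm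
      have z3 : Ml W p N (p v) q3 φ = Ml W p N (p u) q3 φ + Ml W p N (p v) q4 φ -
        Ml W p N (p u) q4 φ := by linarith
      rw [z1', z3]
      field_simp
      ring
    have bR : ∀ x q, |Rl W p N x q φ| ≤ 2 * M := fun x q => Rl_bound W p hN h.two φ hM x q
    have bM : ∀ q q', |Ml W p N q q' φ| ≤ 4 * M := fun q q' =>
      Ml_bound W p hN h.two hM0 φ hM q q'
    have bS := abs_le.1 (Sl_bound W p hN h.two hM0 φ hM)
    have bX : ∀ q, |φ (u, v) - (Rl W p N u q φ + Rl W p N v q φ) +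
      (Ml W p N (p u) q φ + Ml W p N (p v) q φ + Ml W p N q3 q4 φ) - Sl W p N φ| ≤ 25 * M := by
      intro q
      have d1 := abs_le.1 (hM (u, v))
      have d2 := abs_le.1 (bR u q)
      have d3 := abs_le.1 (bR v q)
      have d4 := abs_le.1 (bM (p u) q)
      have d5 := abs_le.1 (bM (p v) q)
      have d6 := abs_le.1 (bM q3 q4)
      rw [abs_le]
      constructor <;> linarith [d1.1, d1.2, d2.1, d2.2, d3.1, d3.2, d4.1, d4.2, d5.1, d5.2,
        d6.1, d6.2, bS.1, bS.2]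
    have hE : |((n3 - N) * X3 + (n4 - N) * X4) / (2 * N)| ≤ 100 * e * M := by
      rw [abs_div, abs_of_pos (by positivity : (0:ℝ) < 2 * N), div_le_iff₀ (by positivity)]
      calc |(n3 - N) * X3 + (n4 - N) * X4| ≤ |(n3 - N) * X3| + |(n4 - N) * X4| :=
            abs_add_le _ _
        _ = |n3 - N| * |X3| + |n4 - N| * |X4| := by rw [abs_mul, abs_mul]
        _ ≤ (4 * e * N) * (25 * M) + (4 * e * N) * (25 * M) := by
            have := h.e0
            exact add_le_add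
              (mul_le_mul (h.part q3) (bX q4) (abs_nonneg _) (by positivity))
              (mul_le_mul (h.part q4) (bX q3) (abs_nonneg _) (by positivity))
        _ = 100 * e * M * (2 * N) := by ring
    rw [← key] at hE
    have e5 : 12 * e * N * (29 * M / (2 * N)) = 174 * e * M := by field_simp; ring
    rw [e5] at h1
    have e6 : 274 * e * M ≤ M / 2 := by
      have := h.e1
      nlinarith
    have t1 := abs_le.1 h1
    have t2 := abs_le.1 hE
    rw [abs_le]
    constructor <;> linarith [t1.1, t1.2, t2.1, t2.2]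
  · have e1 : Lop W p G Bd N φ (u, v) = 0 :=
      (Lop_mem h φ hφ).2.1 u v hc
    rw [e1, hφ.2.1 u v hc, sub_zero, abs_zero]
    linarith

end MainF

theorem ct_iff {V : Type} (sd pt : V → Bool) (t : Fin 3) (u v : V) :
    ct t (sd u, pt u) (sd v, pt v) = true ↔ CT sd pt t u v := by
  unfold CT cut ct
  generalize sd u = a
  generalize pt u = b
  generalize sd v = c
  generalize pt v = d
  revert t a b c d
  decide

/-- the same part -/
def Sa {V : Type} (sd pt : V → Bool) (u v : V) : Prop := sd u = sd v ∧ pt u = pt v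

/-- `W` typical vertices, `G` adjacency, `Bd` forbidden triples, `D` demands with equal sums over
the three types. -/
theorem four : ∃ ε₀ : ℝ, 0 < ε₀ ∧ ∀ (V : Type) [Fintype V] [DecidableEq V] (W : Finset V)
    (sd pt : V → Bool) (G : V → V → Prop) (Bd : V → V → V → Prop) (D : V → V → ℝ),
    0 < nn V → (∀ u v, G u v → G v u) → (∀ u v w, Bd u v w → Bd v u w) →
    (∀ u v w, Bd u v w → Bd u w v) →
    (∀ a b, |((W.filter (fun v => sd v = a ∧ pt v = b)).card : ℝ) - nn V / 4| ≤ ε₀ * nn V) →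
    (∀ u ∈ W, ((W.filter (fun v => ¬ Sa sd pt u v ∧ ¬ G u v)).card : ℝ) ≤ ε₀ * nn V) →
    (∀ u v, ((univ.filter (fun w => Bd u v w)).card : ℝ) ≤ ε₀ * nn V) →
    (∀ u v, D u v = D v u) →
    (∀ u ∈ W, ∀ v ∈ W, ¬ Sa sd pt u v → G u v → |D u v - 1| ≤ ε₀) →
    (∀ t t' : Fin 3,
      ∑ x ∈ (W ×ˢ W).filter (fun x => CT sd pt t x.1 x.2 ∧ G x.1 x.2), D x.1 x.2 =
      ∑ x ∈ (W ×ˢ W).filter (fun x => CT sd pt t' x.1 x.2 ∧ G x.1 x.2), D x.1 x.2) →
    ∃ f : V → V → V → ℝ, (∀ u v w, 0 ≤ f u v w) ∧ (∀ u v w, f u v w ≤ 1 / nn V) ∧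
      (∀ u v w, f u v w ≠ 0 → u ∈ W ∧ v ∈ W ∧ w ∈ W ∧ ¬ Sa sd pt u v ∧ ¬ Sa sd pt u w ∧
        ¬ Sa sd pt v w ∧ G u v ∧ G u w ∧ G v w ∧ ¬ Bd u v w) ∧
      ∀ u ∈ W, ∀ v ∈ W, ¬ Sa sd pt u v → G u v → ld f u v = D u v := by
  refine ⟨1 / 2000, by norm_num, ?_⟩
  intro V _ _ W sd pt G Bd D hn gs b1 b2 hpart hmiss hbad hDs hD1 hDt
  set n : ℝ := nn V with hnd
  set N : ℝ := n / 4 with hNd
  have hN : 0 < N := by positivity
  set p : V → B4 := fun v => (sd v, pt v) with hp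
  have hSa : ∀ u v, Sa sd pt u v ↔ p u = p v := by
    intro u v
    rw [hp]
    unfold Sa
    simp only [Prod.mk.injEq]
  have H : FH W p G Bd N (1 / 2000) := by
    refine ⟨hN, by norm_num, le_refl _, gs, b1, b2, fun q => ?_, fun u hu => ?_, fun u v => ?_⟩
    · have h1 := hpart q.1 q.2
      have h2 : Wq W p q = W.filter (fun v => sd v = q.1 ∧ pt v = q.2) := by
        unfold Wq
        refine filter_congr (fun v _ => ?_)
        rw [hp]
        exact Prod.ext_iff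
      rw [h2]
      refine h1.trans (le_of_eq ?_)
      rw [hNd]; ring
    · have h1 := hmiss u hu
      have h2 : W.filter (fun v => p u ≠ p v ∧ ¬ G u v) =
          W.filter (fun v => ¬ Sa sd pt u v ∧ ¬ G u v) := by
        refine filter_congr (fun v _ => ?_)
        rw [hSa]
      rw [h2]
      refine h1.trans (le_of_eq ?_)
      rw [hNd]; ring
    · refine (hbad u v).trans (le_of_eq ?_)
      rw [hNd]; ring
  -- the demand
  set d : V × V → ℝ := fun i =>
    if i.1 ∈ W ∧ i.2 ∈ W ∧ p i.1 ≠ p i.2 ∧ G i.1 i.2 then D i.1 i.2 else 0 with hd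
  have hdTS : ∀ t, TS p t d =
      ∑ x ∈ (W ×ˢ W).filter (fun x => CT sd pt t x.1 x.2 ∧ G x.1 x.2), D x.1 x.2 := by
    intro t
    rw [sum_filter, sum_product]
    unfold TS
    rw [← sum_subset (subset_univ W) (fun x _ hx => sum_eq_zero (fun y _ => by
      rw [hd]; simp [hx]))]
    refine sum_congr rfl (fun x hx => ?_)
    rw [← sum_subset (subset_univ W) (fun y _ hy => by rw [hd]; simp [hy])]
    refine sum_congr rfl (fun y hy => ?_)
    by_cases hc : CT sd pt t x y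
    · have hc' : ct t (p x) (p y) = true := (ct_iff sd pt t x y).2 hc
      have hne : p x ≠ p y := fun hh => hc.2 ((hSa x y).2 hh)
      rw [if_pos hc']
      by_cases hG : G x y
      · rw [if_pos ⟨hc, hG⟩, hd]
        simp only
        rw [if_pos ⟨hx, hy, hne, hG⟩]
      · rw [if_neg (fun h => hG h.2), hd]
        simp only
        rw [if_neg (fun h => hG h.2.2.2)]
    · have hc' : ¬ ct t (p x) (p y) = true := fun h => hc ((ct_iff sd pt t x y).1 h)
      rw [if_neg hc', if_neg (fun h => hc h.1)]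
  have hdZ : d ∈ Zf W p G := by
    refine ⟨fun x y => ?_, fun x y hxy => ?_, fun t => ?_⟩
    · rw [hd]
      simp only
      by_cases h : x ∈ W ∧ y ∈ W ∧ p x ≠ p y ∧ G x y
      · rw [if_pos h, if_pos ⟨h.2.1, h.1, h.2.2.1.symm, gs _ _ h.2.2.2⟩, hDs]
      · rw [if_neg h, if_neg (fun h' => h ⟨h'.2.1, h'.1, h'.2.2.1.symm, gs _ _ h'.2.2.2⟩)]
    · rw [hd]
      exact if_neg hxy
    · rw [hdTS, hdTS]
      exact hDt t 0
  set g : V → V → V → ℝ := fun u v w => if Al W p G Bd u v w then 2 / n else 0 with hg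
  have hgZ : (fun i : V × V => ∑ w, g i.1 i.2 w) ∈ Zf W p G := by
    refine Zf_of (Bd := Bd) g (fun u v w => ?_) (fun u v w => ?_) (fun u v w hne => ?_)
    · simp only [hg, Al_12 H u v w]
    · simp only [hg, Al_23 H u v w]
    · by_contra hA
      exact hne (if_neg hA)
  set φ0 : V × V → ℝ := d - (fun i : V × V => ∑ w, g i.1 i.2 w) with hφ0
  have hφZ : φ0 ∈ Zf W p G := (Zf W p G).sub_mem hdZ hgZ
  have hφb : ∀ i, |φ0 i| ≤ 11 / 2000 := by
    rintro ⟨u, v⟩
    by_cases hc : u ∈ W ∧ v ∈ W ∧ p u ≠ p v ∧ G u v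
    · obtain ⟨hu, hv, hne, hG⟩ := hc
      have h1 := near_full H hu hv hne hG (fun _ => 2 / n) (b := 2 / n) (by positivity)
        (fun w => by rw [abs_of_pos (by positivity)])
      rw [sum_const, sum_const, nsmul_eq_mul, nsmul_eq_mul] at h1
      have h2 := abs_le.1 (hD1 u hu v hv (fun h => hne ((hSa u v).1 h)) hG)
      have h3 := abs_le.1 (H.part (p3 (p u) (p v)))
      have h4 := abs_le.1 (H.part (p4 (p u) (p v)))
      have e1 : φ0 (u, v) = D u v - ∑ w, (if Al W p G Bd u v w then 2 / n else 0) := by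
        rw [hφ0, Pi.sub_apply, hd]
        simp only
        rw [if_pos ⟨hu, hv, hne, hG⟩]
      rw [e1]
      have e2 : 12 * (1 / 2000) * N * (2 / n) = 6 / 2000 := by
        rw [hNd]; field_simp; norm_num
      rw [e2] at h1
      have h1' := abs_le.1 h1
      have k3 : |((Wq W p (p3 (p u) (p v))).card : ℝ) * (2 / n) - 1 / 2| ≤ 2 / 2000 := by
        have : ((Wq W p (p3 (p u) (p v))).card : ℝ) * (2 / n) - 1 / 2 =
            (((Wq W p (p3 (p u) (p v))).card : ℝ) - N) * (2 / n) := by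
          rw [hNd]; field_simp; ring
        rw [this, abs_mul, abs_of_pos (by positivity : (0:ℝ) < 2 / n)]
        calc _ ≤ (4 * (1 / 2000) * N) * (2 / n) :=
              mul_le_mul_of_nonneg_right (H.part _) (by positivity)
          _ = 2 / 2000 := by rw [hNd]; field_simp
      have k4 : |((Wq W p (p4 (p u) (p v))).card : ℝ) * (2 / n) - 1 / 2| ≤ 2 / 2000 := by
        have : ((Wq W p (p4 (p u) (p v))).card : ℝ) * (2 / n) - 1 / 2 =
            (((Wq W p (p4 (p u) (p v))).card : ℝ) - N) * (2 / n) := by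
          rw [hNd]; field_simp; ring
        rw [this, abs_mul, abs_of_pos (by positivity : (0:ℝ) < 2 / n)]
        calc _ ≤ (4 * (1 / 2000) * N) * (2 / n) :=
              mul_le_mul_of_nonneg_right (H.part _) (by positivity)
          _ = 2 / 2000 := by rw [hNd]; field_simp
      have k3' := abs_le.1 k3
      have k4' := abs_le.1 k4
      rw [abs_le]
      constructor <;> linarith [h1'.1, h1'.2, h2.1, h2.2, k3'.1, k3'.2, k4'.1, k4'.2]
    · rw [hφZ.2.1 u v hc, abs_zero]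
      norm_num
  obtain ⟨ψ, hψZ, hψ, hψb⟩ := approx_inv (Zf W p G) (Lop W p G Bd N) (Lop_mem H)
    (fun φ hφ M hM i => Lop_near H φ hφ M hM i) φ0 hφZ _ hφb
  have hYb : ∀ u v w, |Yl W p N u v w ψ| ≤ 1 / n := by
    intro u v w
    refine (Yl_bound W p hN H.two ψ hψb u v w).trans ?_
    rw [hNd]
    rw [div_le_div_iff₀ (by positivity) hn]
    nlinarith
  set y : V → V → V → ℝ := fun u v w => if Al W p G Bd u v w then 2 / n + Yl W p N u v w ψ
    else 0 with hy
  have y12 : ∀ u v w, y u v w = y v u w := by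
    intro u v w
    simp only [hy, Al_12 H u v w, Yl_swap12 W p N u v w ψ hψZ.1]
  have y23 : ∀ u v w, y u v w = y u w v := by
    intro u v w
    simp only [hy, Al_23 H u v w, Yl_swap23 W p N u v w ψ hψZ.1]
  have y0 : ∀ u v w, 0 ≤ y u v w ∧ y u v w ≤ 3 / n := by
    intro u v w
    rw [hy]
    simp only
    have h1 := abs_le.1 (hYb u v w)
    have e1 : 2 / n = 2 * (1 / n) := by ring
    have e2 : 3 / n = 3 * (1 / n) := by ring
    have e3 : 0 < 1 / n := by positivity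
    split_ifs
    · rw [e1, e2]
      constructor <;> linarith [h1.1, h1.2]
    · rw [e2]
      constructor <;> linarith
  refine ⟨fun u v w => y u v w / 6, fun u v w => by linarith [(y0 u v w).1], fun u v w => ?_,
    fun u v w hne => ?_, ?_⟩
  · have e2 : 3 / n = 3 * (1 / n) := by ring
    have e3 : 0 < 1 / n := by positivity
    have := (y0 u v w).2
    rw [e2] at this
    linarith
  · have hA : Al W p G Bd u v w := by
      by_contra hA
      apply hne
      rw [hy]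
      simp only
      rw [if_neg hA, zero_div]
    obtain ⟨a1, a2, a3, a4, a5, a6, a7, a8, a9, a10⟩ := hA
    exact ⟨a1, a2, a3, fun h => a4 ((hSa _ _).1 h), fun h => a5 ((hSa _ _).1 h),
      fun h => a6 ((hSa _ _).1 h), a7, a8, a9, a10⟩
  · intro u hu v hv hns hG
    have hne : p u ≠ p v := fun h => hns ((hSa _ _).2 h)
    unfold ld
    have e1 : ∀ w, y u v w / 6 + y u w v / 6 + y v u w / 6 + y v w u / 6 + y w u v / 6 +
        y w v u / 6 = y u v w := by
      intro w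
      have s1 : y u w v = y u v w := (y23 u v w).symm
      have s2 : y v u w = y u v w := (y12 u v w).symm
      have s3 : y v w u = y u v w := by rw [← y23 v u w, s2]
      have s4 : y w u v = y u v w := by rw [← y12 u w v, s1]
      have s5 : y w v u = y u v w := by rw [← y12 v w u, s3]
      rw [s1, s2, s3, s4, s5]
      ring
    simp_rw [e1]
    have e2 : ∑ w, y u v w = ∑ w, g u v w + Lop W p G Bd N ψ (u, v) := by
      rw [Lop_apply, ← sum_add_distrib]
      refine sum_congr rfl (fun w _ => ?_)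
      rw [hy, hg]
      simp only
      split_ifs
      · rfl
      · rw [add_zero]
    rw [e2, hψ, hφ0, Pi.sub_apply, hd]
    simp only
    rw [if_pos ⟨hu, hv, hne, hG⟩]
    ring

end F3.FT
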