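import Pool.Agent.F3.FT.Ap

/-!
# F3, world T: the link at an atypical vertex
-/

set_option autoImplicit false
set_option linter.unusedSectionVars false

namespace F3.FT

open Finset Classical NW F1

variable {V : Type} [Fintype V] [DecidableEq V] {E H R : Finset (Sym2 V)} {sd pt : V → Bool}
  {ty : Sym2 V → Fin 3} {At : Finset V} {B : Finset (Tri V)} {ε κ c : ℝ}

/-- exceptional typical neighbours of type `t` -/
noncomputable def Xt (sd pt : V → Bool) (ty : Sym2 V → Fin 3) (G : Finset (Sym2 V)) (At : Finset V)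
    (a : V) (t : Fin 3) : Finset V :=
  univ.filter (fun x => x ∉ At ∧ s(a, x) ∈ G ∧ Sa sd pt a x ∧ ty s(a, x) = t)

/-- core typical neighbours of type `t` -/
noncomputable def Yt (sd pt : V → Bool) (G : Finset (Sym2 V)) (At : Finset V)
    (a : V) (t : Fin 3) : Finset V :=
  univ.filter (fun x => x ∉ At ∧ s(a, x) ∈ G ∧ CT sd pt t a x)

theorem mem_Xt {G : Finset (Sym2 V)} {a x : V} {t : Fin 3} : x ∈ Xt sd pt ty G At a t ↔
    x ∉ At ∧ s(a, x) ∈ G ∧ Sa sd pt a x ∧ ty s(a, x) = t := by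
  unfold Xt
  simp

theorem mem_Yt {G : Finset (Sym2 V)} {a x : V} {t : Fin 3} : x ∈ Yt sd pt G At a t ↔
    x ∉ At ∧ s(a, x) ∈ G ∧ CT sd pt t a x := by
  unfold Yt
  simp

theorem Yt_le (hW : WT E H sd pt ty At ε c) (a : V) (t : Fin 3) :
    ((Yt sd pt (E \ R) At a t).card : ℝ) ≤ NT sd pt E t a := by
  have : Yt sd pt (E \ R) At a t ⊆ (nbr E a).filter (fun w => CT sd pt t a w) := by
    intro w hw
    obtain ⟨-, h1, h2⟩ := mem_Yt.1 hw
    exact mem_filter.2 ⟨mem_nbr.2 (mem_sdiff.1 h1).1, h2⟩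
  unfold NT
  exact_mod_cast card_le_card this

theorem Yt_ge (hW : WT E H sd pt ty At ε c) (hRs : Sm κ R) (a : V) (t : Fin 3) :
    (NT sd pt E t a : ℝ) - (ε + κ) * nn V ≤ ((Yt sd pt (E \ R) At a t).card : ℝ) := by
  have h1 : (nbr E a).filter (fun w => CT sd pt t a w) ⊆ Yt sd pt (E \ R) At a t ∪
      (At ∪ nbr R a) := by
    intro w hw
    obtain ⟨h1, h2⟩ := mem_filter.1 hw
    by_cases h3 : w ∈ At
    · exact mem_union_right _ (mem_union_left _ h3)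
    by_cases h4 : w ∈ nbr R a
    · exact mem_union_right _ (mem_union_right _ h4)
    exact mem_union_left _ (mem_Yt.2 ⟨h3, mem_sdiff.2 ⟨mem_nbr.1 h1, fun hc => h4 (mem_nbr.2 hc)⟩,
      h2⟩)
  have h2 := (card_le_card h1).trans ((card_union_le _ _).trans (Nat.add_le_add_left
    (card_union_le _ _) _))
  have h3 : (NT sd pt E t a : ℝ) ≤ ((Yt sd pt (E \ R) At a t).card : ℝ) +
      ((At.card : ℝ) + ((nbr R a).card : ℝ)) := by
    unfold NT
    exact_mod_cast h2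
  have h4 := hW.At_card
  have h5 : ((nbr R a).card : ℝ) ≤ κ * nn V := hRs a
  linarith

theorem Xt_le (hW : WT E H sd pt ty At ε c) (a : V) (t : Fin 3) :
    ((Xt sd pt ty (E \ R) At a t).card : ℝ) ≤ mT sd pt ty E t a := by
  have : Xt sd pt ty (E \ R) At a t ⊆
      (nbr E a).filter (fun w => (sd a = sd w ∧ pt a = pt w) ∧ ty s(a, w) = t) := by
    intro w hw
    obtain ⟨-, h1, h2, h3⟩ := mem_Xt.1 hw
    exact mem_filter.2 ⟨mem_nbr.2 (mem_sdiff.1 h1).1, h2, h3⟩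
  unfold mT
  exact_mod_cast card_le_card this

theorem Xt_ge (hW : WT E H sd pt ty At ε c) (hRc : ∀ e ∈ R, ¬ Exc sd pt e) (a : V) (t : Fin 3) :
    (mT sd pt ty E t a : ℝ) - ε * nn V ≤ ((Xt sd pt ty (E \ R) At a t).card : ℝ) := by
  have h1 : (nbr E a).filter (fun w => (sd a = sd w ∧ pt a = pt w) ∧ ty s(a, w) = t) ⊆
      Xt sd pt ty (E \ R) At a t ∪ At := by
    intro w hw
    obtain ⟨h1, h2, h5⟩ := mem_filter.1 hw
    by_cases h3 : w ∈ At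
    · exact mem_union_right _ h3
    exact mem_union_left _ (mem_Xt.2 ⟨h3, mem_sdiff.2 ⟨mem_nbr.1 h1,
      fun hc => hRc _ hc (Exc_iff.2 h2)⟩, h2, h5⟩)
  have h2 := (card_le_card h1).trans (card_union_le _ _)
  have h3 : (mT sd pt ty E t a : ℝ) ≤ ((Xt sd pt ty (E \ R) At a t).card : ℝ) + (At.card : ℝ) := by
    unfold mT
    exact_mod_cast h2
  have h4 := hW.At_card
  linarith

theorem NT_le (hW : WT E H sd pt ty At ε c) (a : V) (t : Fin 3) :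
    (NT sd pt E t a : ℝ) ≤ (1 / 4 + ε) * nn V := by
  rcases Finset.eq_empty_or_nonempty ((nbr E a).filter (fun w => CT sd pt t a w)) with h | ⟨w, hw⟩
  · have h1 : (NT sd pt E t a : ℝ) = 0 := by
      unfold NT
      rw [h]
      simp
    rw [h1]
    have := abs_le.1 (hW.part true true)
    have h2 : (0 : ℝ) ≤ ((Pa sd pt true true).card : ℝ) := Nat.cast_nonneg _
    linarith
  · have h0 := (mem_filter.1 hw).2
    have h1 : (nbr E a).filter (fun w => CT sd pt t a w) ⊆ Pa sd pt (sd w) (pt w) := by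
      intro x hx
      have h2 := CT_same (mem_filter.1 hx).2 h0
      unfold Pa
      exact mem_filter.2 ⟨mem_univ _, h2⟩
    have h2 : (NT sd pt E t a : ℝ) ≤ ((Pa sd pt (sd w) (pt w)).card : ℝ) := by
      unfold NT
      exact_mod_cast card_le_card h1
    have := abs_le.1 (hW.part (sd w) (pt w))
    linarith

/-- the statement of `link` for given constants -/
def LinkSt (δ₀ K : ℝ) : Prop := ∀ (V : Type) [Fintype V] [DecidableEq V] (n : ℝ)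
    (X Y : Fin 3 → Finset V) (Gd : V → V → Prop) (d : V → ℝ), 0 < n →
    (∀ x y, Gd x y → Gd y x) →
    (∀ t t' v, v ∈ X t → v ∈ X t' → t = t') → (∀ t t' v, v ∈ Y t → v ∈ Y t' → t = t') →
    (∀ t t' v, v ∈ X t → v ∉ Y t') →
    (∀ t, n / 16 ≤ ((Y t).card : ℝ)) → (∀ t, ((Y t).card : ℝ) ≤ n / 3) →
    (∀ t, (((Y t).card : ℝ) - (X t).card) + n / 200 ≤
      ∑ t' ∈ univ.erase t, (((Y t').card : ℝ) - (X t').card)) →
    (∀ v, |d v - 1| ≤ δ₀) →
    (∀ t, ∀ x ∈ X t, (((Y t).filter (fun y => ¬ Gd x y)).card : ℝ) ≤ δ₀ * n) →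
    (∀ t t', t ≠ t' → ∀ y ∈ Y t, (((Y t').filter (fun y' => ¬ Gd y y')).card : ℝ) ≤ δ₀ * n) →
    ∃ g : V → V → ℝ, (∀ x y, 0 ≤ g x y) ∧ (∀ x y, g x y ≤ K / n) ∧
      (∀ x y, g x y ≠ 0 → Gd x y ∧ ((∃ t, x ∈ X t ∧ y ∈ Y t) ∨
        ∃ t t', t ≠ t' ∧ x ∈ Y t ∧ y ∈ Y t')) ∧
      ∀ t, ∀ x, x ∈ X t ∨ x ∈ Y t → ∑ y, (g x y + g y x) = d x

theorem link_at {δ₀ K : ℝ} (hL : LinkSt δ₀ K) (hW : WT E H sd pt ty At ε c)
    (hRc : ∀ e ∈ R, ¬ Exc sd pt e) (hRs : Sm κ R) (hB : SmT κ B) (hn : 0 < nn V)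
    (hε0 : 0 ≤ ε) (hκ0 : 0 ≤ κ)
    (hε : ε ≤ 1 / 2000) (hκ : κ ≤ 1 / 2000) (hδ : ε + 2 * κ ≤ δ₀) (a : V) (d : V → ℝ)
    (hd : ∀ v, |d v - 1| ≤ δ₀) :
    ∃ g : V → V → ℝ, (∀ x y, 0 ≤ g x y) ∧ (∀ x y, g x y ≤ K / nn V) ∧
      (∀ x y, g x y ≠ 0 → x ∉ At ∧ y ∉ At ∧ ¬ Sa sd pt x y ∧ Ok sd pt ty (E \ R) B a x y) ∧
      ∀ x, x ∉ At → s(a, x) ∈ E \ R → ∑ y, (g x y + g y x) = d x := by
  have hL' := hL V (nn V) (Xt sd pt ty (E \ R) At a) (Yt sd pt (E \ R) At a)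
    (Gdd (E \ R) B a) d hn ?_ ?_ ?_ ?_ ?_ ?_ ?_ hd ?_ ?_
  · obtain ⟨g, g0, gK, gs, gd⟩ := hL'
    refine ⟨g, g0, gK, ?_, ?_⟩
    · intro x y h
      obtain ⟨⟨h1, h2⟩, h3⟩ := gs x y h
      rcases h3 with ⟨t, h4, h5⟩ | ⟨t, t', ht, h4, h5⟩
      · obtain ⟨a1, a2, a3, a4⟩ := mem_Xt.1 h4
        obtain ⟨b1, b2, b3⟩ := mem_Yt.1 h5
        refine ⟨a1, b1, fun hc => b3.2 (a3.trans hc), a2, b2, h1, h2, Or.inr (Or.inl ⟨a3, ?_⟩)⟩
        rw [a4]
        exact b3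
      · obtain ⟨a1, a2, a3⟩ := mem_Yt.1 h4
        obtain ⟨b1, b2, b3⟩ := mem_Yt.1 h5
        exact ⟨a1, b1, CT_diff ht a3 b3, a2, b2, h1, h2, Or.inl ⟨a3.2, b3.2, CT_diff ht a3 b3⟩⟩
    · intro x hx hax
      by_cases hs : Sa sd pt a x
      · exact gd (ty s(a, x)) x (Or.inl (mem_Xt.2 ⟨hx, hax, hs, rfl⟩))
      · obtain ⟨t, ht⟩ := exists_CT hs
        exact gd t x (Or.inr (mem_Yt.2 ⟨hx, hax, ht⟩))
  · rintro x y ⟨h1, h2⟩
    exact ⟨by rwa [Sym2.eq_swap], fun hc => h2 hc.swap23⟩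
  · intro t t' v h1 h2
    exact (mem_Xt.1 h1).2.2.2.symm.trans (mem_Xt.1 h2).2.2.2
  · intro t t' v h1 h2
    exact CT_inj (mem_Yt.1 h1).2.2 (mem_Yt.1 h2).2.2
  · intro t t' v h1 h2
    exact (mem_Yt.1 h2).2.2.2 (mem_Xt.1 h1).2.2.1
  · intro t
    have h1 := Yt_ge hW hRs a t
    have h2 := hW.deg a t
    nlinarith
  · intro t
    have h1 := Yt_le (R := R) hW a t
    have h2 := NT_le hW a t
    nlinarith
  · intro t
    have h1 := Yt_le (R := R) hW a t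
    have h2 := Xt_ge hW hRc a t
    have h3 := hW.slack a t
    have h4 : ∑ t' ∈ univ.erase t, ((NT sd pt E t' a : ℝ) - mT sd pt ty E t' a) ≤
        ∑ t' ∈ univ.erase t, (((Yt sd pt (E \ R) At a t').card : ℝ) -
          (Xt sd pt ty (E \ R) At a t').card + (ε + κ) * nn V) := by
      refine Finset.sum_le_sum fun t' _ => ?_
      have h5 := Yt_ge hW hRs a t'
      have h6 := Xt_le (R := R) hW a t'
      linarith
    rw [Finset.sum_add_distrib (f := fun t' => ((Yt sd pt (E \ R) At a t').card : ℝ) -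
          (Xt sd pt ty (E \ R) At a t').card), Finset.sum_const, card_erase_of_mem (mem_univ _),
      Finset.card_univ, Fintype.card_fin, nsmul_eq_mul] at h4
    push_cast at h4
    nlinarith
  · intro t x hx
    obtain ⟨a1, a2, a3, a4⟩ := mem_Xt.1 hx
    exact (miss' hW hRs hB a1 a _ (fun w hw hc => (mem_Yt.1 hw).2.2.2 (a3.trans hc))).trans
      (mul_le_mul_of_nonneg_right hδ hn.le)
  · intro t t' ht y hy
    obtain ⟨a1, a2, a3⟩ := mem_Yt.1 hy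
    exact (miss' hW hRs hB a1 a _ (fun w hw => CT_diff ht a3 (mem_Yt.1 hw).2.2)).trans
      (mul_le_mul_of_nonneg_right hδ hn.le)

end F3.FT
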