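import Pool.Agent.F3.FT.Trans

/-!
# F3, world T: the link of an atypical vertex
-/

set_option autoImplicit false
set_option linter.unusedSectionVars false

namespace F3.FT

open Finset Classical

/-- one pair of types: transport between the core neighbours -/
theorem link_tr {V : Type} [Fintype V] [DecidableEq V] (A B : Finset V) (Gd : V → V → Prop)
    (d : V → ℝ) {n δ c : ℝ} (hn : 0 < n) (hδ0 : 0 ≤ δ) (hsym : ∀ x y, Gd x y → Gd y x)
    (hdA : ∀ x ∈ A, 1 / 200 ≤ d x ∧ d x ≤ 1 + δ) (hdB : ∀ x ∈ B, 1 / 200 ≤ d x ∧ d x ≤ 1 + δ)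
    (hc : n / 500 ≤ c) (hcA : c ≤ ∑ x ∈ A, d x - n / 500) (hcB : c ≤ ∑ x ∈ B, d x - n / 500)
    (hA : ∑ x ∈ A, d x ≤ n / 2) (hB : ∑ x ∈ B, d x ≤ n / 2)
    (h1 : ∀ x ∈ A, ((B.filter (fun y => ¬ Gd x y)).card : ℝ) ≤ δ * n)
    (h2 : ∀ x ∈ B, ((A.filter (fun y => ¬ Gd x y)).card : ℝ) ≤ δ * n)
    (hδ : 12 * δ ≤ (1 / 50000 : ℝ) ^ 3 * (1 / 500)) :
    ∃ w : V → V → ℝ, (∀ x y, 0 ≤ w x y) ∧ (∀ x y, w x y ≤ 1000 / n) ∧
      (∀ x y, w x y ≠ 0 → x ∈ A ∧ y ∈ B ∧ Gd x y) ∧
      ∀ x, ∑ y, (w x y + w y x) = (if x ∈ A then d x * (c / ∑ x ∈ A, d x) else 0) +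
        (if x ∈ B then d x * (c / ∑ x ∈ B, d x) else 0) := by
  have hδ1 : δ ≤ 1 / 1000 := by
    have h3 : (1 / 50000 : ℝ) ^ 3 * (1 / 500) ≤ 12 * (1 / 1000) := by norm_num
    linarith
  have key : ∀ (C : Finset V), (∀ x ∈ C, 1 / 200 ≤ d x ∧ d x ≤ 1 + δ) →
      c ≤ ∑ x ∈ C, d x - n / 500 → ∑ x ∈ C, d x ≤ n / 2 →
      (∀ x ∈ C, (1 / 50000 : ℝ) ≤ d x * (c / ∑ x ∈ C, d x) ∧ d x * (c / ∑ x ∈ C, d x) ≤ 1) ∧
      ∑ x ∈ C, d x * (c / ∑ x ∈ C, d x) = c := by
    intro C hdC hcC hC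
    set S := ∑ x ∈ C, d x with hSdef
    have hS : 0 < S := by linarith
    have hlo : 1 / 250 ≤ c / S := by
      rw [le_div_iff₀ hS]
      linarith
    have hhi : c / S ≤ 1 - 1 / 250 := by
      rw [div_le_iff₀ hS]
      linarith
    refine ⟨fun x hx => ⟨?_, ?_⟩, ?_⟩
    · have h3 := (hdC x hx).1
      calc (1 / 50000 : ℝ) = 1 / 200 * (1 / 250) := by norm_num
        _ ≤ d x * (c / S) := mul_le_mul h3 hlo (by norm_num) (by linarith)
    · have h3 := (hdC x hx).2
      have h4 := (hdC x hx).1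
      calc d x * (c / S) ≤ (1 + δ) * (1 - 1 / 250) :=
            mul_le_mul h3 hhi (by linarith) (by linarith)
        _ ≤ 1 := by linarith
    · rw [← Finset.sum_mul, ← hSdef, mul_div_cancel₀ _ hS.ne']
  obtain ⟨kA, sA⟩ := key A hdA hcA hA
  obtain ⟨kB, sB⟩ := key B hdB hcB hB
  have h2' : ∀ y ∈ B, ((A.filter (fun x => ¬ Gd x y)).card : ℝ) ≤ δ * n := by
    intro y hy
    refine le_trans ?_ (h2 y hy)
    rw [Nat.cast_le]
    apply Finset.card_le_card
    intro x hx
    rw [Finset.mem_filter] at hx ⊢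
    exact ⟨hx.1, fun h => hx.2 (hsym _ _ h)⟩
  obtain ⟨w, w0, w1, w2, w3, w4⟩ := transport A B (fun x => d x * (c / ∑ x ∈ A, d x))
    (fun x => d x * (c / ∑ x ∈ B, d x)) (fun x y => ¬ Gd x y) (n := n) (c₁ := 1 / 50000)
    (s₀ := 1 / 500) (δ := δ) hn (by norm_num) (by norm_num) hδ0 kA kB (by rw [sA, sB])
    (by rw [sA]; linarith) (fun x hx => by convert h1 x hx) (fun y hy => by convert h2' y hy) hδ
  refine ⟨w, w0, ?_, ?_, ?_⟩
  · intro x y
    refine le_trans (w1 x y) (le_of_eq ?_)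
    field_simp
    norm_num
  · intro x y h
    obtain ⟨a, b, e⟩ := w2 x y h
    exact ⟨a, b, not_not.1 e⟩
  · intro x
    rw [Finset.sum_add_distrib]
    congr 1
    · by_cases hx : x ∈ A
      · rw [if_pos hx]
        exact w3 x hx
      · rw [if_neg hx]
        exact Finset.sum_eq_zero (fun y _ => by
          by_contra h
          exact hx (w2 x y h).1)
    · by_cases hx : x ∈ B
      · rw [if_pos hx]
        exact w4 x hx
      · rw [if_neg hx]
        exact Finset.sum_eq_zero (fun y _ => by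
          by_contra h
          exact hx (w2 y x h).2.1)

/-- one type: the exceptional neighbours -/
theorem link_one {V : Type} [Fintype V] [DecidableEq V] (X Y : Finset V) (Gd : V → V → Prop)
    (d : V → ℝ) {n δ : ℝ} (hn : 0 < n) (hδ0 : 0 ≤ δ) (hδ : δ ≤ 1 / 10000)
    (hY : n / 16 ≤ (Y.card : ℝ)) (hY3 : (Y.card : ℝ) ≤ n / 3)
    (hXY : (X.card : ℝ) + n / 200 ≤ Y.card) (hd : ∀ v, |d v - 1| ≤ δ)
    (h1 : ∀ x ∈ X, ((Y.filter (fun y => ¬ Gd x y)).card : ℝ) ≤ δ * n) :
    ∃ g : V → V → ℝ, (∀ x y, 0 ≤ g x y) ∧ (∀ x y, g x y ≤ 34 / n) ∧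
      (∀ x y, g x y ≠ 0 → x ∈ X ∧ y ∈ Y ∧ Gd x y) ∧
      (∀ x, ∑ y, g x y = if x ∈ X then d x else 0) ∧ (∀ y, ∑ x, g x y ≤ 99 / 100) := by
  have hdl : ∀ v, 1 - δ ≤ d v := fun v => by
    have := (abs_le.1 (hd v)).1
    linarith
  have hdu : ∀ v, d v ≤ 1 + δ := fun v => by
    have := (abs_le.1 (hd v)).2
    linarith
  have hN : ∀ x ∈ X, (Y.card : ℝ) - δ * n ≤ ((Y.filter (fun y => Gd x y)).card : ℝ) := by
    intro x hx
    have h2 := Finset.card_filter_add_card_filter_not (s := Y) (fun y => Gd x y)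
    have h3 := h1 x hx
    have h4 : ((Y.filter (fun y => Gd x y)).card : ℝ) +
        ((Y.filter (fun y => ¬ Gd x y)).card : ℝ) = Y.card := by exact_mod_cast h2
    linarith
  have hYn : n / 17 ≤ (Y.card : ℝ) - δ * n := by nlinarith
  have hYp : 0 < (Y.card : ℝ) - δ * n := by
    have : 0 < n / 17 := by positivity
    linarith
  let g : V → V → ℝ := fun x y => if x ∈ X ∧ y ∈ Y ∧ Gd x y then
    d x / ((Y.filter (fun y => Gd x y)).card : ℝ) else 0
  refine ⟨g, ?_, ?_, ?_, ?_, ?_⟩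
  · intro x y
    simp only [g]
    split_ifs
    · have := hdl x
      exact div_nonneg (by linarith) (Nat.cast_nonneg _)
    · exact le_refl _
  · intro x y
    simp only [g]
    split_ifs with h
    · have h2 := hN x h.1
      calc d x / ((Y.filter (fun y => Gd x y)).card : ℝ) ≤ 2 / (n / 17) := by
            apply div_le_div₀ (by norm_num) _ (by positivity) (by linarith)
            have := hdu x
            linarith
        _ = 34 / n := by
            field_simp
            norm_num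
    · positivity
  · intro x y h
    simp only [g] at h
    by_contra h2
    rw [if_neg h2] at h
    exact h rfl
  · intro x
    by_cases hx : x ∈ X
    · rw [if_pos hx]
      have h2 : ∀ y, g x y = if y ∈ Y.filter (fun y => Gd x y) then
          d x / ((Y.filter (fun y => Gd x y)).card : ℝ) else 0 := by
        intro y
        simp only [g, Finset.mem_filter]
        by_cases h3 : y ∈ Y ∧ Gd x y
        · rw [if_pos ⟨hx, h3⟩, if_pos h3]
        · rw [if_neg (fun h => h3 h.2), if_neg h3]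
      rw [Finset.sum_congr rfl (fun y _ => h2 y), Finset.sum_ite_mem, Finset.univ_inter,
        Finset.sum_const, nsmul_eq_mul]
      have h3 := hN x hx
      apply mul_div_cancel₀
      intro h4
      rw [h4] at h3
      linarith
    · rw [if_neg hx]
      apply Finset.sum_eq_zero
      intro y _
      simp only [g]
      rw [if_neg (fun h => hx h.1)]
  · intro y
    calc ∑ x, g x y ≤ ∑ x, if x ∈ X then (1 + δ) / ((Y.card : ℝ) - δ * n) else 0 := by
          apply Finset.sum_le_sum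
          intro x _
          simp only [g]
          by_cases hx : x ∈ X
          · rw [if_pos hx]
            split_ifs
            · apply div_le_div₀ (by linarith) (hdu x) hYp (hN x hx)
            · exact div_nonneg (by linarith) hYp.le
          · rw [if_neg hx, if_neg (fun h => hx h.1)]
      _ = X.card * ((1 + δ) / ((Y.card : ℝ) - δ * n)) := by
          rw [Finset.sum_ite_mem, Finset.univ_inter, Finset.sum_const, nsmul_eq_mul]
      _ ≤ 99 / 100 := by
          rw [← mul_div_assoc, div_le_iff₀ hYp]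
          have h2 : (X.card : ℝ) ≤ (Y.card : ℝ) * (1 - 3 / 200) := by linarith
          have h3 : (0 : ℝ) ≤ X.card := Nat.cast_nonneg _
          have h4 : δ * n ≤ 16 * δ * Y.card := by nlinarith
          have h5 : (X.card : ℝ) * (1 + δ) ≤ (Y.card : ℝ) * (1 - 3 / 200) * (1 + δ) :=
            mul_le_mul_of_nonneg_right h2 (by linarith)
          have h6 : (0 : ℝ) ≤ Y.card := Nat.cast_nonneg _
          have h7 : (Y.card : ℝ) * δ ≤ (Y.card : ℝ) * (1 / 10000) :=
            mul_le_mul_of_nonneg_left hδ h6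
          nlinarith

/-- `X t`: exceptional neighbours of type `t`, `Y t`: core neighbours of type `t`, `Gd`: good
pairs, `d`: demands. -/
theorem link : ∃ δ₀ K : ℝ, 0 < δ₀ ∧ 0 < K ∧ ∀ (V : Type) [Fintype V] [DecidableEq V] (n : ℝ)
    (X Y : Fin 3 → Finset V) (Gd : V → V → Prop) (d : V → ℝ), 0 < n →
    (∀ x y, Gd x y → Gd y x) →
    (∀ t t' v, v ∈ X t → v ∈ X t' → t = t') → (∀ t t' v, v ∈ Y t → v ∈ Y t' → t = t') →
    (∀ t t' v, v ∈ X t → v ∉ Y t') →
    (∀ t, n / 16 ≤ ((Y t).card : ℝ)) → (∀ t, ((Y t).card : ℝ) ≤ n / 3) →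
    (∀ t, (((Y t).card : ℝ) - (X t).card) + n / 200 ≤
      ∑ t' ∈ univ.erase t, (((Y t').card : ℝ) - (X t').card)) →
    (∀ v, |d v - 1| ≤ δ₀) →
    (∀ t, ∀ x ∈ X t, (((Y t).filter (fun y => ¬ Gd x y)).card : ℝ) ≤ δ₀ * n) →
    (∀ t t', t ≠ t' → ∀ y ∈ Y t, (((Y t').filter (fun y' => ¬ Gd y y')).card : ℝ) ≤ δ₀ * n) →
    ∃ g : V → V → ℝ, (∀ x y, 0 ≤ g x y) ∧ (∀ x y, g x y ≤ K / n) ∧
      (∀ x y, g x y ≠ 0 → Gd x y ∧ ((∃ t, x ∈ X t ∧ y ∈ Y t) ∨
        ∃ t t', t ≠ t' ∧ x ∈ Y t ∧ y ∈ Y t')) ∧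
      ∀ t, ∀ x, x ∈ X t ∨ x ∈ Y t → ∑ y, (g x y + g y x) = d x := by
  refine ⟨(1 / 50000 : ℝ) ^ 3 * (1 / 500) / 12, 5000, by positivity, by norm_num, ?_⟩
  intro V _ _ n X Y Gd d hn hsym hXX hYY hXY hYl hYu hsl hd hgX hgY
  obtain ⟨δ, hδdef⟩ : ∃ δ : ℝ, δ = (1 / 50000 : ℝ) ^ 3 * (1 / 500) / 12 := ⟨_, rfl⟩
  rw [← hδdef] at hd hgX hgY
  have hδ0 : 0 ≤ δ := by rw [hδdef]; positivity
  have hδ1 : δ ≤ 1 / 10000 := by rw [hδdef]; norm_num
  have hδt : 12 * δ ≤ (1 / 50000 : ℝ) ^ 3 * (1 / 500) := by rw [hδdef]; linarith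
  clear hδdef
  -- the slack
  have hb0 := hsl 0
  have hb1 := hsl 1
  have hb2 := hsl 2
  have e0 : (univ.erase (0 : Fin 3)) = {1, 2} := by decide
  have e1 : (univ.erase (1 : Fin 3)) = {0, 2} := by decide
  have e2 : (univ.erase (2 : Fin 3)) = {0, 1} := by decide
  rw [e0, Finset.sum_pair (by decide)] at hb0
  rw [e1, Finset.sum_pair (by decide)] at hb1
  rw [e2, Finset.sum_pair (by decide)] at hb2
  have hXc : ∀ t, ((X t).card : ℝ) + n / 200 ≤ (Y t).card := by
    intro t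
    fin_cases t
    · show ((X 0).card : ℝ) + n / 200 ≤ (Y 0).card
      linarith
    · show ((X 1).card : ℝ) + n / 200 ≤ (Y 1).card
      linarith
    · show ((X 2).card : ℝ) + n / 200 ≤ (Y 2).card
      linarith
  have hone := fun t => link_one (X t) (Y t) Gd d hn hδ0 hδ1 (hYl t) (hYu t) (hXc t) hd (hgX t)
  choose g g0 g1 g2 g3 g4 using hone
  -- the load
  obtain ⟨l, hldef⟩ : ∃ l : V → ℝ, ∀ y, l y = ∑ t, ∑ x, g t x y := ⟨_, fun _ => rfl⟩
  have hl : ∀ t, ∀ y ∈ Y t, l y = ∑ x, g t x y := by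
    intro t y hy
    rw [hldef]
    apply Finset.sum_eq_single t
    · intro t' _ ht
      apply Finset.sum_eq_zero
      intro x _
      by_contra h
      exact ht (hYY _ _ _ (g2 t' x y h).2.1 hy)
    · intro h
      exact absurd (Finset.mem_univ t) h
  have hl0 : ∀ t, ∀ y ∈ X t, l y = 0 := by
    intro t y hy
    rw [hldef]
    apply Finset.sum_eq_zero
    intro t' _
    apply Finset.sum_eq_zero
    intro x _
    by_contra h
    exact hXY _ _ _ hy (g2 t' x y h).2.1
  have hlnn : ∀ y, 0 ≤ l y := fun y => by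
    rw [hldef]
    exact Finset.sum_nonneg (fun t _ => Finset.sum_nonneg (fun x _ => g0 t x y))
  obtain ⟨d', hd'def⟩ : ∃ d' : V → ℝ, ∀ v, d' v = d v - l v := ⟨_, fun _ => rfl⟩
  have hdl : ∀ v, 1 - δ ≤ d v := fun v => by
    have := (abs_le.1 (hd v)).1
    linarith
  have hdu : ∀ v, d v ≤ 1 + δ := fun v => by
    have := (abs_le.1 (hd v)).2
    linarith
  have hd' : ∀ t, ∀ y ∈ Y t, 1 / 200 ≤ d' y ∧ d' y ≤ 1 + δ := by
    intro t y hy
    have h1 := g4 t y
    have h2 := hl t y hy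
    have h3 := hdl y
    have h4 := hdu y
    have h5 := hlnn y
    rw [hd'def]
    constructor
    · linarith
    · linarith
  -- the sums
  have hS : ∀ t, ∑ y ∈ Y t, d' y = ∑ y ∈ Y t, d y - ∑ x ∈ X t, d x := by
    intro t
    rw [Finset.sum_congr rfl (fun y _ => hd'def y), Finset.sum_sub_distrib]
    congr 1
    rw [Finset.sum_congr rfl (fun y hy => hl t y hy)]
    have h1 : ∀ y ∈ Y t, ∑ x, g t x y = ∑ x ∈ X t, g t x y := by
      intro y _
      symm
      apply Finset.sum_subset (Finset.subset_univ _)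
      intro x _ hx
      by_contra h
      exact hx (g2 t x y h).1
    rw [Finset.sum_congr rfl h1, Finset.sum_comm]
    apply Finset.sum_congr rfl
    intro x hx
    have h2 := g3 t x
    rw [if_pos hx] at h2
    rw [← h2]
    apply Finset.sum_subset (Finset.subset_univ _)
    intro y _ hy
    by_contra h
    exact hy (g2 t x y h).2.1
  have hsum : ∀ A : Finset V, (1 - δ) * (A.card : ℝ) ≤ ∑ v ∈ A, d v ∧
      ∑ v ∈ A, d v ≤ (1 + δ) * (A.card : ℝ) := by
    intro A
    constructor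
    · have h := Finset.card_nsmul_le_sum A d (1 - δ) (fun v _ => hdl v)
      rw [nsmul_eq_mul] at h
      linarith
    · have h := Finset.sum_le_card_nsmul A d (1 + δ) (fun v _ => hdu v)
      rw [nsmul_eq_mul] at h
      linarith
  have hSb : ∀ t, (((Y t).card : ℝ) - (X t).card) - δ * n ≤ ∑ y ∈ Y t, d' y ∧
      ∑ y ∈ Y t, d' y ≤ (((Y t).card : ℝ) - (X t).card) + δ * n := by
    intro t
    rw [hS t]
    have h1 := hsum (Y t)
    have h2 := hsum (X t)
    have h3 := hYu t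
    have h4 := hXc t
    have h5 : δ * (Y t).card ≤ δ * (n / 3) := mul_le_mul_of_nonneg_left h3 hδ0
    have h6 : δ * (X t).card ≤ δ * (n / 3) := mul_le_mul_of_nonneg_left (by linarith) hδ0
    have h7 : 0 ≤ δ * n := by positivity
    constructor
    · nlinarith
    · nlinarith
  have hSu : ∀ t, ∑ y ∈ Y t, d' y ≤ n / 2 := by
    intro t
    have h1 := (hSb t).2
    have h2 := hYu t
    have h3 : (0 : ℝ) ≤ (X t).card := Nat.cast_nonneg _
    have h4 : δ * n ≤ 1 / 10000 * n := mul_le_mul_of_nonneg_right hδ1 hn.le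
    linarith
  obtain ⟨S, hSdef⟩ : ∃ S : Fin 3 → ℝ, ∀ t, S t = ∑ y ∈ Y t, d' y := ⟨_, fun _ => rfl⟩
  have hSb' : ∀ t, (((Y t).card : ℝ) - (X t).card) - n / 10000 ≤ S t ∧
      S t ≤ (((Y t).card : ℝ) - (X t).card) + n / 10000 := by
    intro t
    have h1 := hSb t
    have h4 : δ * n ≤ 1 / 10000 * n := mul_le_mul_of_nonneg_right hδ1 hn.le
    rw [hSdef]
    constructor
    · have := h1.1
      linarith
    · have := h1.2
      linarith
  obtain ⟨s0l, s0u⟩ := hSb' 0
  obtain ⟨s1l, s1u⟩ := hSb' 1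
  obtain ⟨s2l, s2u⟩ := hSb' 2
  have c0 := hXc 0
  have c1 := hXc 1
  have c2 := hXc 2
  obtain ⟨u, u0, u1, u2, u3⟩ := link_tr (Y 0) (Y 1) Gd d' (c := (S 0 + S 1 - S 2) / 2) hn hδ0 hsym
    (hd' 0) (hd' 1) (by linarith) (by rw [← hSdef]; linarith)
    (by rw [← hSdef]; linarith) (hSu 0) (hSu 1) (hgY 0 1 (by decide))
    (hgY 1 0 (by decide)) hδt
  obtain ⟨v, v0, v1, v2, v3⟩ := link_tr (Y 0) (Y 2) Gd d' (c := (S 0 + S 2 - S 1) / 2) hn hδ0 hsym
    (hd' 0) (hd' 2) (by linarith) (by rw [← hSdef]; linarith)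
    (by rw [← hSdef]; linarith) (hSu 0) (hSu 2) (hgY 0 2 (by decide))
    (hgY 2 0 (by decide)) hδt
  obtain ⟨w, w0, w1, w2, w3⟩ := link_tr (Y 1) (Y 2) Gd d' (c := (S 1 + S 2 - S 0) / 2) hn hδ0 hsym
    (hd' 1) (hd' 2) (by linarith) (by rw [← hSdef]; linarith)
    (by rw [← hSdef]; linarith) (hSu 1) (hSu 2) (hgY 1 2 (by decide))
    (hgY 2 1 (by decide)) hδt
  have p0 : S 0 ≠ 0 := by
    have : 0 < S 0 := by linarith
    exact this.ne'
  have p1 : S 1 ≠ 0 := by
    have : 0 < S 1 := by linarith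
    exact this.ne'
  have p2 : S 2 ≠ 0 := by
    have : 0 < S 2 := by linarith
    exact this.ne'
  rw [← hSdef, ← hSdef] at u3
  rw [← hSdef, ← hSdef] at v3
  rw [← hSdef, ← hSdef] at w3
  have hgg : ∀ x, ∑ y, (∑ t, g t x y + ∑ t, g t y x) = (∑ t, if x ∈ X t then d x else 0) + l x := by
    intro x
    rw [Finset.sum_add_distrib]
    congr 1
    · rw [Finset.sum_comm]
      exact Finset.sum_congr rfl (fun t _ => g3 t x)
    · rw [Finset.sum_comm, hldef]
  refine ⟨fun x y => ∑ t, g t x y + u x y + v x y + w x y, ?_, ?_, ?_, ?_⟩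
  · intro x y
    have h1 : 0 ≤ ∑ t, g t x y := Finset.sum_nonneg (fun t _ => g0 t x y)
    have h2 := u0 x y
    have h3 := v0 x y
    have h4 := w0 x y
    show 0 ≤ ∑ t, g t x y + u x y + v x y + w x y
    linarith
  · intro x y
    show ∑ t, g t x y + u x y + v x y + w x y ≤ 5000 / n
    rw [Fin.sum_univ_three]
    have h1 := g1 0 x y
    have h1' := g1 1 x y
    have h1'' := g1 2 x y
    have h2 := u1 x y
    have h3 := v1 x y
    have h4 := w1 x y
    have h5 : 5000 / n = 34 / n + 34 / n + 34 / n + 1000 / n + 1000 / n + 1000 / n + 1898 / n := by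
      rw [← add_div, ← add_div, ← add_div, ← add_div, ← add_div, ← add_div]
      norm_num
    have h6 : 0 ≤ 1898 / n := by positivity
    linarith
  · intro x y h
    change ∑ t, g t x y + u x y + v x y + w x y ≠ 0 at h
    by_cases h1 : ∃ t, g t x y ≠ 0
    · obtain ⟨t, ht⟩ := h1
      obtain ⟨a, b, c⟩ := g2 t x y ht
      exact ⟨c, Or.inl ⟨t, a, b⟩⟩
    · push Not at h1
      rw [Finset.sum_eq_zero (fun t _ => h1 t), zero_add] at h
      by_cases h2 : u x y = 0
      · rw [h2, zero_add] at h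
        by_cases h3 : v x y = 0
        · rw [h3, zero_add] at h
          obtain ⟨a, b, c⟩ := w2 x y h
          exact ⟨c, Or.inr ⟨1, 2, by decide, a, b⟩⟩
        · obtain ⟨a, b, c⟩ := v2 x y h3
          exact ⟨c, Or.inr ⟨0, 2, by decide, a, b⟩⟩
      · obtain ⟨a, b, c⟩ := u2 x y h2
        exact ⟨c, Or.inr ⟨0, 1, by decide, a, b⟩⟩
  · intro t x hx
    have h1 : ∑ y, (∑ t, g t x y + u x y + v x y + w x y +
        (∑ t, g t y x + u y x + v y x + w y x)) =
        ∑ y, (∑ t, g t x y + ∑ t, g t y x) + ∑ y, (u x y + u y x) + ∑ y, (v x y + v y x) +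
        ∑ y, (w x y + w y x) := by
      rw [← Finset.sum_add_distrib, ← Finset.sum_add_distrib, ← Finset.sum_add_distrib]
      apply Finset.sum_congr rfl
      intro y _
      ring
    show ∑ y, (∑ t, g t x y + u x y + v x y + w x y +
        (∑ t, g t y x + u y x + v y x + w y x)) = d x
    rw [h1, hgg, u3, v3, w3]
    rcases hx with hx | hx
    · have h2 : ∀ t', x ∉ Y t' := fun t' => hXY t t' x hx
      rw [if_neg (h2 0), if_neg (h2 1), if_neg (h2 0), if_neg (h2 2), if_neg (h2 1), if_neg (h2 2),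
        hl0 t x hx, Finset.sum_eq_single t, if_pos hx]
      · ring
      · intro t' _ ht
        rw [if_neg (fun h => ht (hXX _ _ _ h hx))]
      · intro h
        exact absurd (Finset.mem_univ t) h
    · have h2 : ∀ t', x ∉ X t' := fun t' h => hXY t' t x h hx
      rw [Finset.sum_eq_zero (fun t' _ => if_neg (h2 t'))]
      have h3 : d' x = d x - l x := hd'def x
      have h4 : ∀ t', t' ≠ t → x ∉ Y t' := fun t' ht h => ht (hYY _ _ _ h hx)
      obtain rfl | rfl | rfl : t = 0 ∨ t = 1 ∨ t = 2 := by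
        fin_cases t
        · exact Or.inl rfl
        · exact Or.inr (Or.inl rfl)
        · exact Or.inr (Or.inr rfl)
      · rw [if_pos hx, if_neg (h4 1 (by decide)), if_pos hx, if_neg (h4 2 (by decide)),
          if_neg (h4 1 (by decide)), if_neg (h4 2 (by decide)), h3]
        field_simp
        ring
      · rw [if_pos hx, if_neg (h4 0 (by decide)), if_neg (h4 0 (by decide)),
          if_neg (h4 2 (by decide)), if_pos hx, if_neg (h4 2 (by decide)), h3]
        field_simp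
        ring
      · rw [if_neg (h4 0 (by decide)), if_neg (h4 1 (by decide)),
          if_neg (h4 0 (by decide)), if_pos hx, if_neg (h4 1 (by decide)), if_pos hx, h3]
        field_simp
        ring

end F3.FT
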