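import Pool.Agent.F3.FT.Asm

/-!
# F3, world T: the fractional decomposition theorem `FTStatement`
-/

set_option autoImplicit false

namespace F3.FT

open Finset NW F1

theorem ft : FTStatement := by
  intro c hc
  obtain ⟨ε₀, hε₀, hF⟩ := four
  obtain ⟨δ₀, K, hδ₀, hK, hL⟩ := link
  have hF' : FourSt ε₀ := hF
  have hL' : LinkSt δ₀ K := hL
  have hq : 0 < 2 * K + 4 / c := by positivity
  obtain ⟨ε, hε, e1, e2, e3, e4, e5⟩ : ∃ ε : ℝ, 0 < ε ∧ ε ≤ 1 / 2000 ∧ ε ≤ δ₀ / 3 ∧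
      ε ≤ δ₀ * c / 2 ∧ ε ≤ ε₀ / 3 ∧ ε ≤ ε₀ / (2 * K + 4 / c) :=
    ⟨min (1 / 2000) (min (δ₀ / 3) (min (δ₀ * c / 2) (min (ε₀ / 3) (ε₀ / (2 * K + 4 / c))))),
      by positivity, min_le_left _ _, (min_le_right _ _).trans (min_le_left _ _),
      (min_le_right _ _).trans ((min_le_right _ _).trans (min_le_left _ _)),
      (min_le_right _ _).trans ((min_le_right _ _).trans ((min_le_right _ _).trans
        (min_le_left _ _))),
      (min_le_right _ _).trans ((min_le_right _ _).trans ((min_le_right _ _).trans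
        (min_le_right _ _)))⟩
  obtain ⟨κ, hκ, k1, k2, k3, k4⟩ : ∃ κ : ℝ, 0 < κ ∧ κ ≤ 1 / 2000 ∧ κ ≤ c / 6 ∧ κ ≤ δ₀ / 3 ∧
      κ ≤ ε₀ / 3 :=
    ⟨min (1 / 2000) (min (c / 6) (min (δ₀ / 3) (ε₀ / 3))), by positivity, min_le_left _ _,
      (min_le_right _ _).trans (min_le_left _ _),
      (min_le_right _ _).trans ((min_le_right _ _).trans (min_le_left _ _)),
      (min_le_right _ _).trans ((min_le_right _ _).trans (min_le_right _ _))⟩
  refine ⟨ε, 6 * (K + 1 + 4 / c), κ, hε, by positivity, hκ, 1, ?_⟩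
  intro V _ _ E H R sd pt ty At B hn hW hRE hRc hRs hRt hB
  have hn' : 0 < nn V := by
    unfold nn
    exact_mod_cast hn
  refine asm hF' hL' hK hc hW hRE hRc hRs hRt hB hn' hε.le hκ.le e1 k1 k2 (by linarith) ?_ ?_
    (by linarith)
  · rw [div_le_iff₀ hc]
    linarith
  · have h1 := (le_div_iff₀ hq).1 e5
    have h2 : 2 * K * ε + 4 * ε / c = ε * (2 * K + 4 / c) := by ring
    rw [h2]
    exact h1

end F3.FT
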