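import Pool.Agent.F3.FT.Sp
import Pool.Agent.F3.FT.Link
import Pool.Agent.F3.FT.Four

/-!
# F3, world T: allowed ordered triples
-/

set_option autoImplicit false
set_option linter.unusedSectionVars false

namespace F3.FT

open Finset Classical NW F1

variable {V : Type} [Fintype V] [DecidableEq V]

/-- the triple `u v w` is in `B` -/
def BdB (B : Finset (Tri V)) (u v w : V) : Prop := ∃ T ∈ B, T.1 = {u, v, w}

theorem BdB.swap12 {B : Finset (Tri V)} {u v w : V} (h : BdB B u v w) : BdB B v u w := by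
  obtain ⟨T, hT, h⟩ := h
  refine ⟨T, hT, ?_⟩
  rw [h]
  ext x
  simp only [mem_insert, mem_singleton]
  tauto

theorem BdB.swap23 {B : Finset (Tri V)} {u v w : V} (h : BdB B u v w) : BdB B u w v := by
  obtain ⟨T, hT, h⟩ := h
  refine ⟨T, hT, ?_⟩
  rw [h]
  ext x
  simp only [mem_insert, mem_singleton]
  tauto

theorem card_three {a b c : V} (h : ({a, b, c} : Finset V).card = 3) : a ≠ b ∧ a ≠ c ∧ b ≠ c := by
  have h2 : ∀ x y : V, ({x, y} : Finset V).card ≤ 2 := fun x y => Finset.card_le_two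
  refine ⟨?_, ?_, ?_⟩
  · rintro rfl
    have := h2 a c
    rw [Finset.insert_eq_of_mem (by simp)] at h
    omega
  · rintro rfl
    have := h2 b a
    rw [Finset.insert_eq_of_mem (by simp)] at h
    omega
  · rintro rfl
    have := h2 a b
    have h3 : ({a, b, b} : Finset V) = {a, b} := by
      ext x
      simp
    rw [h3] at h
    omega

theorem card_BdB {κ : ℝ} {B : Finset (Tri V)} (hB : SmT κ B) (u v : V) :
    ((univ.filter (fun w => BdB B u v w)).card : ℝ) ≤ κ * nn V := by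
  refine le_trans ?_ (hB s(u, v))
  have h1 : (univ.filter (fun w => BdB B u v w)).card ≤
      (B.filter (fun T => s(u, v) ∈ NW.edg T.1)).card := by
    have h2 : ∀ w ∈ univ.filter (fun w => BdB B u v w), ∃ T : Tri V, T ∈ B ∧ T.1 = {u, v, w} := by
      intro w hw
      obtain ⟨T, hT, h⟩ := (mem_filter.1 hw).2
      exact ⟨T, hT, h⟩
    rcases isEmpty_or_nonempty (Tri V) with he | hne
    · have h3 : univ.filter (fun w => BdB B u v w) = ∅ := by
        refine Finset.eq_empty_of_forall_notMem fun w hw => ?_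
        obtain ⟨T, -⟩ := h2 w hw
        exact he.elim T
      rw [h3]
      simp
    choose! g hg using h2
    refine Finset.card_le_card_of_injOn g ?_ ?_
    · intro w hw
      obtain ⟨h3, h4⟩ := hg w hw
      have h5 := card_three (h4 ▸ (g w).2)
      refine mem_coe.2 (mem_filter.2 ⟨h3, ?_⟩)
      rw [h4, mk_mem_edg]
      exact ⟨by simp, by simp, h5.1⟩
    · intro w hw w' hw' he
      obtain ⟨h3, h4⟩ := hg w hw
      obtain ⟨h3', h4'⟩ := hg w' hw'
      have h5 := card_three (h4 ▸ (g w).2)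
      have h6 : w ∈ ({u, v, w'} : Finset V) := by
        rw [← h4', ← he, h4]
        simp
      simp only [mem_insert, mem_singleton] at h6
      rcases h6 with h6 | h6 | h6
      · exact absurd h6.symm h5.2.1
      · exact absurd h6.symm h5.2.2
      · exact h6
  exact_mod_cast h1

variable {sd pt : V → Bool} {ty : Sym2 V → Fin 3}

theorem Sa.symm {u v : V} (h : Sa sd pt u v) : Sa sd pt v u := ⟨h.1.symm, h.2.symm⟩

theorem Sa.trans {u v w : V} (h : Sa sd pt u v) (h' : Sa sd pt v w) : Sa sd pt u w :=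
  ⟨h.1.trans h'.1, h.2.trans h'.2⟩

theorem CT_symm {t : Fin 3} {u v : V} (h : CT sd pt t u v) : CT sd pt t v u :=
  ⟨h.1.symm, fun hc => h.2 ⟨hc.1.symm, hc.2.symm⟩⟩

theorem CT_nSa {t : Fin 3} {u v : V} (h : CT sd pt t u v) : ¬ Sa sd pt u v := h.2

theorem cut_Sa {t : Fin 3} {u v : V} (h : Sa sd pt u v) : cut sd pt t u = cut sd pt t v := by
  unfold cut
  rw [h.1, h.2]

theorem CT_Sa_left {t : Fin 3} {u v w : V} (h : Sa sd pt u v) (hc : CT sd pt t u w) :
    CT sd pt t v w :=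
  ⟨(cut_Sa h).symm.trans hc.1, fun h' => hc.2 (Sa.trans h h')⟩

theorem exists_CT {u v : V} (h : ¬ Sa sd pt u v) : ∃ t, CT sd pt t u v := by
  unfold Sa at h
  by_cases h1 : sd u = sd v
  · exact ⟨0, by simp [cut, h1], h⟩
  · by_cases h2 : pt u = pt v
    · exact ⟨1, by simp [cut, h2], h⟩
    · refine ⟨2, ?_, h⟩
      unfold cut
      cases hu : sd u <;> cases hv : sd v <;> cases pu : pt u <;> cases pv : pt v <;>
        simp_all

theorem CT_inj {t t' : Fin 3} {u v : V} (h : CT sd pt t u v) (h' : CT sd pt t' u v) : t = t' := by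
  obtain ⟨h1, h2⟩ := h
  obtain ⟨h1', -⟩ := h'
  unfold cut at h1 h1'
  fin_cases t <;> fin_cases t' <;>
    cases hu : sd u <;> cases hv : sd v <;> cases pu : pt u <;> cases pv : pt v <;>
    simp_all

/-- two vertices of the same type relative to `a` are in the same part -/
theorem CT_same {t : Fin 3} {a u v : V} (h : CT sd pt t a u) (h' : CT sd pt t a v) :
    Sa sd pt u v := by
  obtain ⟨h1, h2⟩ := h
  obtain ⟨h1', h2'⟩ := h'
  unfold cut at h1 h1'
  unfold Sa
  fin_cases t <;>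
    cases hu : sd u <;> cases hv : sd v <;> cases pu : pt u <;> cases pv : pt v <;>
    cases ha : sd a <;> cases pa : pt a <;>
    simp_all

/-- vertices of different types relative to `a` are in different parts -/
theorem CT_diff {t t' : Fin 3} {a u v : V} (ht : t ≠ t') (h : CT sd pt t a u)
    (h' : CT sd pt t' a v) : ¬ Sa sd pt u v := by
  intro hs
  exact ht (CT_inj h (CT_symm (CT_Sa_left hs.symm (CT_symm h'))))

/-- allowed ordered triples in the graph `G` -/
def Ok (sd pt : V → Bool) (ty : Sym2 V → Fin 3) (G : Finset (Sym2 V)) (B : Finset (Tri V))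
    (u v w : V) : Prop :=
  s(u, v) ∈ G ∧ s(u, w) ∈ G ∧ s(v, w) ∈ G ∧ ¬ BdB B u v w ∧
    ((¬ Sa sd pt u v ∧ ¬ Sa sd pt u w ∧ ¬ Sa sd pt v w) ∨
      (Sa sd pt u v ∧ CT sd pt (ty s(u, v)) u w) ∨
      (Sa sd pt u w ∧ CT sd pt (ty s(u, w)) u v) ∨
      (Sa sd pt v w ∧ CT sd pt (ty s(v, w)) v u))

variable {G : Finset (Sym2 V)} {B : Finset (Tri V)}

theorem ok_tri (hG : NW.NL G) {u v w : V} (h : Ok sd pt ty G B u v w) :
    ∃ T : Tri V, T.1 = {u, v, w} ∧ T ∉ B ∧ alT sd pt ty T ∧ NW.edg T.1 ⊆ G := by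
  obtain ⟨h1, h2, h3, h4, h5⟩ := h
  have n1 : u ≠ v := fun hc => hG _ h1 (by rw [hc]; simp)
  have n2 : u ≠ w := fun hc => hG _ h2 (by rw [hc]; simp)
  have n3 : v ≠ w := fun hc => hG _ h3 (by rw [hc]; simp)
  refine ⟨⟨{u, v, w}, Finset.card_eq_three.2 ⟨u, v, w, n1, n2, n3, rfl⟩⟩, rfl,
    fun hc => h4 ⟨_, hc, rfl⟩, ?_, ?_⟩
  · unfold alT
    rcases h5 with ⟨a, b, c⟩ | ⟨a, b⟩ | ⟨a, b⟩ | ⟨a, b⟩
    · left
      intro x hx y hy hxy
      simp only [mem_insert, mem_singleton] at hx hy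
      rcases hx with rfl | rfl | rfl <;> rcases hy with rfl | rfl | rfl
      · exact absurd rfl hxy
      · exact a
      · exact b
      · exact fun hc => a (Sa.symm hc)
      · exact absurd rfl hxy
      · exact c
      · exact fun hc => b (Sa.symm hc)
      · exact fun hc => c (Sa.symm hc)
      · exact absurd rfl hxy
    · right
      exact ⟨u, v, w, rfl, n1, a, b⟩
    · right
      refine ⟨u, w, v, ?_, n2, a, b⟩
      ext x
      simp only [mem_insert, mem_singleton]
      tauto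
    · right
      refine ⟨v, w, u, ?_, n3, a, b⟩
      ext x
      simp only [mem_insert, mem_singleton]
      tauto
  · rw [edg_triple n1 n3 n2]
    intro e he
    rw [mem_tri] at he
    rcases he with rfl | rfl | rfl
    · exact h1
    · exact h3
    · exact h2

theorem Exc_iff {u v : V} : Exc sd pt s(u, v) ↔ Sa sd pt u v := by
  unfold Exc Sa
  constructor
  · intro h
    exact h u (by simp) v (by simp)
  · intro h x hx y hy
    simp only [Sym2.mem_iff] at hx hy
    rcases hx with rfl | rfl <;> rcases hy with rfl | rfl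
    · exact ⟨rfl, rfl⟩
    · exact h
    · exact ⟨h.1.symm, h.2.symm⟩
    · exact ⟨rfl, rfl⟩

theorem gam_mk {χ : V → Bool} {u v : V} : gam χ s(u, v) = if χ u = χ v then 2 else -1 := by
  unfold gam
  have : Int χ s(u, v) ↔ χ u = χ v := by
    unfold Int
    constructor
    · intro h
      exact h u (by simp) v (by simp)
    · intro h x hx y hy
      simp only [Sym2.mem_iff] at hx hy
      rcases hx with rfl | rfl <;> rcases hy with rfl | rfl
      · rfl
      · exact h
      · exact h.symm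
      · rfl
  by_cases h : χ u = χ v
  · rw [if_pos h, if_pos (this.2 h)]
  · rw [if_neg h, if_neg (fun hc => h (this.1 hc))]

theorem gamT_core {t : Fin 3} {u v : V} (h : ¬ Sa sd pt u v) :
    gamT sd pt ty t s(u, v) = if CT sd pt t u v then 2 else -1 := by
  unfold gamT
  rw [if_neg (fun hc => h (Exc_iff.1 hc.1)), gam_mk]
  by_cases h1 : cut sd pt t u = cut sd pt t v
  · rw [if_pos h1, if_pos ⟨h1, h⟩]
  · rw [if_neg h1, if_neg (fun hc => h1 hc.1)]

theorem gamT_exc {t : Fin 3} {u v : V} (h : Sa sd pt u v) :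
    gamT sd pt ty t s(u, v) = if ty s(u, v) = t then -4 else 2 := by
  unfold gamT
  by_cases h1 : ty s(u, v) = t
  · rw [if_pos ⟨Exc_iff.2 h, h1⟩, if_pos h1]
  · rw [if_neg (fun hc => h1 hc.2), if_neg h1, gam_mk, if_pos (cut_Sa h)]

/-- for a transversal triple exactly one pair is of type `t` -/
theorem trans_type {t : Fin 3} {u v w : V} (h1 : ¬ Sa sd pt u v) (h2 : ¬ Sa sd pt u w)
    (h3 : ¬ Sa sd pt v w) :
    ((if CT sd pt t u v then (2 : ℤ) else -1) + (if CT sd pt t u w then 2 else -1)) +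
      (if CT sd pt t v w then 2 else -1) = 0 := by
  obtain ⟨a, ha⟩ := exists_CT h1
  obtain ⟨b, hb⟩ := exists_CT h2
  obtain ⟨c, hc⟩ := exists_CT h3
  have hab : a ≠ b := by
    rintro rfl
    exact h3 (CT_same ha hb)
  have hac : a ≠ c := by
    rintro rfl
    exact h2 (CT_same (CT_symm ha) hc)
  have hbc : b ≠ c := by
    rintro rfl
    exact h1 (CT_same (CT_symm hb) (CT_symm hc))
  have e1 : CT sd pt t u v ↔ t = a := ⟨fun h => CT_inj h ha, fun h => h ▸ ha⟩
  have e2 : CT sd pt t u w ↔ t = b := ⟨fun h => CT_inj h hb, fun h => h ▸ hb⟩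
  have e3 : CT sd pt t v w ↔ t = c := ⟨fun h => CT_inj h hc, fun h => h ▸ hc⟩
  simp only [e1, e2, e3]
  clear e1 e2 e3 ha hb hc
  revert t a b c
  decide

theorem exc_type {t s : Fin 3} {u v w : V} (h1 : Sa sd pt u v) (h2 : CT sd pt s u w) :
    ((if s = t then (-4 : ℤ) else 2) + (if CT sd pt t u w then 2 else -1)) +
      (if CT sd pt t v w then 2 else -1) = 0 := by
  have h3 : CT sd pt s v w := CT_Sa_left h1 h2
  by_cases h : s = t
  · subst h
    rw [if_pos rfl, if_pos h2, if_pos h3]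
    norm_num
  · rw [if_neg h, if_neg (fun hc => h (CT_inj h2 hc)), if_neg (fun hc => h (CT_inj h3 hc))]
    norm_num

theorem ok_gam {u v w : V} (h : Ok sd pt ty G B u v w) (t : Fin 3) :
    gamT sd pt ty t s(u, v) + gamT sd pt ty t s(u, w) + gamT sd pt ty t s(v, w) = 0 := by
  obtain ⟨-, -, -, -, h5⟩ := h
  rcases h5 with ⟨a, b, c⟩ | ⟨a, b⟩ | ⟨a, b⟩ | ⟨a, b⟩
  · rw [gamT_core a, gamT_core b, gamT_core c]
    exact trans_type a b c
  · have b' := CT_Sa_left a b
    rw [gamT_exc a, gamT_core b.2, gamT_core b'.2]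
    exact exc_type a b
  · have b' := CT_Sa_left a b
    have h1 := exc_type (t := t) a b
    rw [gamT_exc a, gamT_core b.2, Sym2.eq_swap (a := v) (b := w), gamT_core b'.2]
    linarith
  · have b' := CT_Sa_left a b
    have h1 := exc_type (t := t) a b
    rw [gamT_exc a, Sym2.eq_swap (a := u) (b := v), Sym2.eq_swap (a := u) (b := w),
      gamT_core b.2, gamT_core b'.2]
    linarith

theorem Ok.swap12 {u v w : V} (h : Ok sd pt ty G B u v w) : Ok sd pt ty G B v u w := by
  obtain ⟨h1, h2, h3, h4, h5⟩ := h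
  refine ⟨by rwa [Sym2.eq_swap], h3, h2, fun hc => h4 hc.swap12, ?_⟩
  rcases h5 with ⟨a, b, c⟩ | ⟨a, b⟩ | ⟨a, b⟩ | ⟨a, b⟩
  · exact Or.inl ⟨fun hc => a hc.symm, c, b⟩
  · refine Or.inr (Or.inl ⟨a.symm, ?_⟩)
    rw [Sym2.eq_swap]
    exact CT_Sa_left a b
  · exact Or.inr (Or.inr (Or.inr ⟨a, b⟩))
  · exact Or.inr (Or.inr (Or.inl ⟨a, b⟩))

theorem Ok.swap23 {u v w : V} (h : Ok sd pt ty G B u v w) : Ok sd pt ty G B u w v := by
  obtain ⟨h1, h2, h3, h4, h5⟩ := h
  refine ⟨h2, h1, by rwa [Sym2.eq_swap], fun hc => h4 hc.swap23, ?_⟩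
  rcases h5 with ⟨a, b, c⟩ | ⟨a, b⟩ | ⟨a, b⟩ | ⟨a, b⟩
  · exact Or.inl ⟨b, a, fun hc => c hc.symm⟩
  · exact Or.inr (Or.inr (Or.inl ⟨a, b⟩))
  · exact Or.inr (Or.inl ⟨a, b⟩)
  · refine Or.inr (Or.inr (Or.inr ⟨a.symm, ?_⟩))
    rw [Sym2.eq_swap]
    exact CT_Sa_left a b

end F3.FT
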