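import Pool.Agent.F3.FT.Tw

/-!
# F3: uniform spreading of an edge over its apexes
-/

set_option autoImplicit false
set_option linter.unusedSectionVars false

namespace F3.FT

open Finset Classical

variable {V : Type} [Fintype V] [DecidableEq V]

theorem ld_eq (f : V → V → V → ℝ) (u v : V) :
    ld f u v = ∑ w, (f u v w + f v u w) + (∑ w, (f u w v + f w u v) + ∑ w, (f v w u + f w v u)) := by
  unfold ld
  rw [← Finset.sum_add_distrib, ← Finset.sum_add_distrib]
  refine Finset.sum_congr rfl fun w _ => ?_
  ring

/-- `P`: the pairs to be covered, `A u v`: the apexes of the pair `u v` -/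
theorem spread {m : ℝ} (hm : 0 < m) (P : V → V → Prop) (A : V → V → V → Prop)
    (hP : ∀ u v, P u v → P v u) (hA : ∀ u v w, P u v → A u v w → A v u w)
    (hne : ∀ u v, P u v → m ≤ ((univ.filter (fun w => A u v w)).card : ℝ))
    (hx : ∀ u v w, P u v → P u w → ¬ A u w v) :
    ∃ f : V → V → V → ℝ, (∀ u v w, 0 ≤ f u v w) ∧ (∀ u v w, f u v w ≤ 1 / m) ∧
      (∀ u v w, f u v w ≠ 0 → P u v ∧ A u v w) ∧ (∀ u v, P u v → ld f u v = 1) ∧
      ∀ u v, ¬ P u v → ld f u v ≤
        (((univ.filter (fun w => P u w)).card : ℝ) + ((univ.filter (fun w => P v w)).card : ℝ)) *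
          (1 / m) := by
  let k : V → V → ℝ := fun u v => ((univ.filter (fun w => A u v w)).card : ℝ)
  have hk : ∀ u v, P u v → k u v = k v u := by
    intro u v h
    have : univ.filter (fun w => A u v w) = univ.filter (fun w => A v u w) := by
      ext w
      simp only [mem_filter, mem_univ, true_and]
      exact ⟨hA u v w h, hA v u w (hP u v h)⟩
    simp only [k, this]
  have hk0 : ∀ u v, P u v → 0 < k u v := fun u v h => lt_of_lt_of_le hm (hne u v h)
  let f : V → V → V → ℝ := fun u v w => if P u v ∧ A u v w then 1 / (2 * k u v) else 0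
  have f0 : ∀ u v w, 0 ≤ f u v w := by
    intro u v w
    simp only [f]
    split_ifs with h
    · have := hk0 u v h.1
      positivity
    · exact le_refl _
  have f1 : ∀ u v w, f u v w ≤ (1 / m) / 2 := by
    intro u v w
    simp only [f]
    split_ifs with h
    · have h1 := hne u v h.1
      have h2 := hk0 u v h.1
      rw [div_div, mul_comm m 2]
      exact one_div_le_one_div_of_le (by linarith) (by
        have : m ≤ k u v := h1
        linarith)
    · positivity
  have f2 : ∀ u v w, f u v w ≠ 0 → P u v ∧ A u v w := by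
    intro u v w h
    by_contra hc
    exact h (by simp only [f]; rw [if_neg hc])
  have f3 : ∀ u v, P u v → ∑ w, f u v w = 1 / 2 := by
    intro u v h
    have h0 := hk0 u v h
    simp only [f]
    rw [Finset.sum_ite, Finset.sum_const_zero, add_zero, Finset.sum_const, nsmul_eq_mul]
    have : univ.filter (fun w => P u v ∧ A u v w) = univ.filter (fun w => A u v w) := by
      ext w
      simp [h]
    rw [this]
    change k u v * (1 / (2 * k u v)) = 1 / 2
    field_simp
  have f4 : ∀ u v w, f u v w ≤ if P u v then (1 / m) / 2 else 0 := by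
    intro u v w
    split_ifs with h
    · exact f1 u v w
    · simp only [f]
      rw [if_neg (fun hc => h hc.1)]
  have f5 : ∀ u v w, f u w v + f w u v ≤ if P u w then 1 / m else 0 := by
    intro u v w
    have h1 := f4 u w v
    have h2 := f4 w u v
    split_ifs with h
    · rw [if_pos h] at h1
      rw [if_pos (hP u w h)] at h2
      linarith
    · rw [if_neg h] at h1
      rw [if_neg (fun hc => h (hP w u hc))] at h2
      linarith
  have f6 : ∀ u v, ∑ w, (f u w v + f w u v) ≤ ((univ.filter (fun w => P u w)).card : ℝ) * (1 / m) := by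
    intro u v
    calc ∑ w, (f u w v + f w u v) ≤ ∑ w, (if P u w then 1 / m else 0) :=
          Finset.sum_le_sum fun w _ => f5 u v w
      _ = ((univ.filter (fun w => P u w)).card : ℝ) * (1 / m) := by
          rw [Finset.sum_ite, Finset.sum_const_zero, add_zero, Finset.sum_const, nsmul_eq_mul]
  refine ⟨f, f0, fun u v w => (f1 u v w).trans (by
    have : 0 < 1 / m := by positivity
    linarith), f2, ?_, ?_⟩
  · intro u v h
    rw [ld_eq, Finset.sum_add_distrib, f3 u v h, f3 v u (hP u v h)]
    have h1 : ∀ u v, P u v → ∑ w, (f u w v + f w u v) = 0 := by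
      intro u v h
      refine Finset.sum_eq_zero fun w _ => ?_
      have h2 : f u w v = 0 := by
        by_contra hc
        obtain ⟨p, a⟩ := f2 _ _ _ hc
        exact hx u v w h p a
      have h3 : f w u v = 0 := by
        by_contra hc
        obtain ⟨p, a⟩ := f2 _ _ _ hc
        exact hx u v w h (hP _ _ p) (hA _ _ _ p a)
      rw [h2, h3, add_zero]
    rw [h1 u v h, h1 v u (hP u v h)]
    norm_num
  · intro u v h
    rw [ld_eq]
    have h1 : ∑ w, (f u v w + f v u w) = 0 := by
      refine Finset.sum_eq_zero fun w _ => ?_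
      have h2 : f u v w = 0 := by
        by_contra hc
        exact h (f2 _ _ _ hc).1
      have h3 : f v u w = 0 := by
        by_contra hc
        exact h (hP _ _ (f2 _ _ _ hc).1)
      rw [h2, h3, add_zero]
    rw [h1, add_mul, zero_add]
    exact add_le_add (f6 u v) (f6 v u)

end F3.FT
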