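import Pool.Agent.F3.FT.Contr

/-!
# Transport on a nearly complete bipartite graph
-/

set_option autoImplicit false

namespace F3.FT

open Finset Classical

private theorem tr_split {V : Type} [Fintype V] [DecidableEq V] (X Y : Finset V)
    (Mb : V → V → Prop) (F : V → ℝ) {x : V} (hx : x ∈ X) :
    ∑ y, (if x ∈ X ∧ y ∈ Y ∧ ¬ Mb x y then F y else 0) =
      ∑ y ∈ Y, F y - ∑ y ∈ Y.filter (fun y => Mb x y), F y := by
  rw [← Finset.sum_filter]
  have h : univ.filter (fun y => x ∈ X ∧ y ∈ Y ∧ ¬ Mb x y) = Y.filter (fun y => ¬ Mb x y) := by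
    ext y
    simp [hx]
  rw [h, ← Finset.sum_filter_add_sum_filter_not Y (fun y => Mb x y)]
  ring

private theorem tr_split' {V : Type} [Fintype V] [DecidableEq V] (X Y : Finset V)
    (Mb : V → V → Prop) (F : V → ℝ) {y : V} (hy : y ∈ Y) :
    ∑ x, (if x ∈ X ∧ y ∈ Y ∧ ¬ Mb x y then F x else 0) =
      ∑ x ∈ X, F x - ∑ x ∈ X.filter (fun x => Mb x y), F x := by
  rw [← Finset.sum_filter]
  have h : univ.filter (fun x => x ∈ X ∧ y ∈ Y ∧ ¬ Mb x y) = X.filter (fun x => ¬ Mb x y) := by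
    ext x
    simp [hy]
  rw [h, ← Finset.sum_filter_add_sum_filter_not X (fun x => Mb x y)]
  ring

/-- a sum over few terms -/
private theorem tr_few {V : Type} (A : Finset V) (F : V → ℝ) {m b : ℝ}
    (hb : ∀ y ∈ A, |F y| ≤ b) (hb0 : 0 ≤ b) (hm : (A.card : ℝ) ≤ m) :
    |∑ y ∈ A, F y| ≤ m * b := by
  calc |∑ y ∈ A, F y| ≤ ∑ y ∈ A, |F y| := Finset.abs_sum_le_sum_abs _ _
    _ ≤ ∑ y ∈ A, b := Finset.sum_le_sum hb
    _ = A.card * b := by rw [Finset.sum_const, nsmul_eq_mul]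
    _ ≤ m * b := mul_le_mul_of_nonneg_right hm hb0

/-- a row of the exact solution -/
private theorem tr_row {V : Type} (Y : Finset V) (q s : V → ℝ) {S T r p : ℝ} (hS : S ≠ 0)
    (h1 : ∑ y ∈ Y, q y = S) (h2 : ∑ y ∈ Y, s y = T) :
    ∑ y ∈ Y, ((r * q y + p * s y) / S - p * q y * T / S ^ 2) = r := by
  rw [Finset.sum_sub_distrib, ← Finset.sum_div, ← Finset.sum_div, Finset.sum_add_distrib,
    ← Finset.mul_sum, ← Finset.mul_sum, ← Finset.sum_mul, ← Finset.mul_sum, h1, h2]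
  field_simp
  ring

private theorem tr_col {V : Type} (X : Finset V) (p r : V → ℝ) {S T s q : ℝ} (hS : S ≠ 0)
    (h1 : ∑ x ∈ X, p x = S) (h2 : ∑ x ∈ X, r x = T) :
    ∑ x ∈ X, ((r x * q + p x * s) / S - p x * q * T / S ^ 2) = s := by
  refine Eq.trans (Finset.sum_congr rfl fun x _ => ?_) (tr_row (r := s) (p := q) X p r hS h1 h2)
  ring

/-- the size of the exact solution -/
private theorem tr_bd {S T r s p q M c : ℝ} (hS : 0 < S) (hc : 0 < c) (hc1 : c ≤ 1) (hM : 0 ≤ M)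
    (hr : |r| ≤ M) (hs : |s| ≤ M) (hp0 : 0 ≤ p) (hp : p ≤ 1) (hq0 : 0 ≤ q) (hq : q ≤ 1)
    (hT : |T| ≤ M * S / c) : |(r * q + p * s) / S - p * q * T / S ^ 2| ≤ 3 * M / (c * S) := by
  have h1 : |r * q + p * s| ≤ 2 * M := by
    refine (abs_add_le _ _).trans ?_
    rw [abs_mul, abs_mul, abs_of_nonneg hp0, abs_of_nonneg hq0]
    have := mul_le_mul hr hq hq0 hM
    have := mul_le_mul hp hs (abs_nonneg s) zero_le_one
    linarith
  have h2 : |p * q * T| ≤ M * S / c := by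
    rw [abs_mul, abs_mul, abs_of_nonneg hp0, abs_of_nonneg hq0]
    have h3 : p * q ≤ 1 := mul_le_one₀ hp hq0 hq
    calc p * q * |T| ≤ 1 * |T| := mul_le_mul_of_nonneg_right h3 (abs_nonneg T)
      _ ≤ M * S / c := by rw [one_mul]; exact hT
  have h4 : 2 * M / S ≤ 2 * M / (c * S) := by
    apply div_le_div_of_nonneg_left (by positivity) (by positivity)
    nlinarith
  calc |(r * q + p * s) / S - p * q * T / S ^ 2|
      ≤ |(r * q + p * s) / S| + |p * q * T / S ^ 2| := abs_sub _ _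
    _ = |r * q + p * s| / S + |p * q * T| / S ^ 2 := by
        rw [abs_div, abs_div, abs_of_pos hS, abs_of_pos (by positivity : (0 : ℝ) < S ^ 2)]
    _ ≤ 2 * M / S + M * S / c / S ^ 2 := by gcongr
    _ ≤ 2 * M / (c * S) + M * S / c / S ^ 2 := by linarith
    _ = 3 * M / (c * S) := by
        field_simp
        ring

/-- `Mb x y`: the pair `x y` is missing. -/
theorem transport {V : Type} [Fintype V] [DecidableEq V] (X Y : Finset V) (p q : V → ℝ)
    (Mb : V → V → Prop) {n c₁ s₀ δ : ℝ} (hn : 0 < n) (hc : 0 < c₁) (hs0 : 0 < s₀)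
    (hδ0 : 0 ≤ δ)
    (hp : ∀ x ∈ X, c₁ ≤ p x ∧ p x ≤ 1) (hq : ∀ y ∈ Y, c₁ ≤ q y ∧ q y ≤ 1)
    (hS : ∑ x ∈ X, p x = ∑ y ∈ Y, q y) (hlow : s₀ * n ≤ ∑ x ∈ X, p x)
    (h1 : ∀ x ∈ X, ((Y.filter (fun y => Mb x y)).card : ℝ) ≤ δ * n)
    (h2 : ∀ y ∈ Y, ((X.filter (fun x => Mb x y)).card : ℝ) ≤ δ * n)
    (hδ : 12 * δ ≤ c₁ ^ 3 * s₀) :
    ∃ w : V → V → ℝ, (∀ x y, 0 ≤ w x y) ∧ (∀ x y, w x y ≤ 2 / (s₀ * n)) ∧
      (∀ x y, w x y ≠ 0 → x ∈ X ∧ y ∈ Y ∧ ¬ Mb x y) ∧
      (∀ x ∈ X, ∑ y, w x y = p x) ∧ (∀ y ∈ Y, ∑ x, w x y = q y) := by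
  set S := ∑ x ∈ X, p x with hSdef
  have hsn : 0 < s₀ * n := mul_pos hs0 hn
  have hS0 : 0 < S := lt_of_lt_of_le hsn hlow
  have hSY : ∑ y ∈ Y, q y = S := hS.symm
  obtain ⟨x0, hx0⟩ : X.Nonempty := by
    rw [Finset.nonempty_iff_ne_empty]
    intro h
    rw [hSdef, h, Finset.sum_empty] at hS0
    exact lt_irrefl _ hS0
  have hc1 : c₁ ≤ 1 := (hp x0 hx0).1.trans (hp x0 hx0).2
  have hc3 : c₁ ^ 3 ≤ c₁ := by
    have : c₁ ^ 2 ≤ 1 := pow_le_one₀ hc.le hc1
    nlinarith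
  have hp0 : ∀ x ∈ X, 0 ≤ p x := fun x hx => hc.le.trans (hp x hx).1
  have hq0 : ∀ y ∈ Y, 0 ≤ q y := fun y hy => hc.le.trans (hq y hy).1
  have hcardX : (X.card : ℝ) ≤ S / c₁ := by
    rw [le_div_iff₀ hc, hSdef]
    calc (X.card : ℝ) * c₁ = ∑ x ∈ X, c₁ := by rw [Finset.sum_const, nsmul_eq_mul]
      _ ≤ ∑ x ∈ X, p x := Finset.sum_le_sum fun x hx => (hp x hx).1
  -- the exact solution
  let Φ : (V ⊕ V → ℝ) → V → V → ℝ := fun φ x y =>
    (φ (Sum.inl x) * q y + p x * φ (Sum.inr y)) / S -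
      p x * q y * (∑ x' ∈ X, φ (Sum.inl x')) / S ^ 2
  have hΦdef : ∀ φ x y, Φ φ x y = (φ (Sum.inl x) * q y + p x * φ (Sum.inr y)) / S -
      p x * q y * (∑ x' ∈ X, φ (Sum.inl x')) / S ^ 2 := fun _ _ _ => rfl
  have hΦadd : ∀ φ ψ x y, Φ (φ + ψ) x y = Φ φ x y + Φ ψ x y := by
    intro φ ψ x y
    simp only [hΦdef, Pi.add_apply, Finset.sum_add_distrib]
    ring
  have hΦsmul : ∀ (c : ℝ) φ x y, Φ (c • φ) x y = c * Φ φ x y := by
    intro c φ x y
    simp only [hΦdef, Pi.smul_apply, smul_eq_mul, ← Finset.mul_sum]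
    ring
  have hΦbd : ∀ (φ : V ⊕ V → ℝ) (M : ℝ), (∀ i, |φ i| ≤ M) → ∀ x ∈ X, ∀ y ∈ Y,
      |Φ φ x y| ≤ 3 * M / (c₁ * S) := by
    intro φ M hφ x hx y hy
    have hM : 0 ≤ M := (abs_nonneg _).trans (hφ (Sum.inl x))
    refine tr_bd hS0 hc hc1 hM (hφ _) (hφ _) (hp0 x hx) (hp x hx).2 (hq0 y hy) (hq y hy).2 ?_
    have h3 := tr_few X (fun x' => φ (Sum.inl x')) (m := S / c₁) (b := M) (fun x' _ => hφ _) hM
      hcardX
    calc |∑ x' ∈ X, φ (Sum.inl x')| ≤ S / c₁ * M := h3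
      _ = M * S / c₁ := by ring
  let L : (V ⊕ V → ℝ) →ₗ[ℝ] (V ⊕ V → ℝ) :=
    { toFun := fun φ => Sum.elim
        (fun x => ∑ y, if x ∈ X ∧ y ∈ Y ∧ ¬ Mb x y then Φ φ x y else 0)
        (fun y => ∑ x, if x ∈ X ∧ y ∈ Y ∧ ¬ Mb x y then Φ φ x y else 0)
      map_add' := by
        intro φ ψ
        funext i
        rcases i with x | y
        · simp only [Sum.elim_inl, Pi.add_apply, ← Finset.sum_add_distrib]
          refine Finset.sum_congr rfl fun y _ => ?_
          split_ifs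
          · exact hΦadd φ ψ x y
          · rw [add_zero]
        · simp only [Sum.elim_inr, Pi.add_apply, ← Finset.sum_add_distrib]
          refine Finset.sum_congr rfl fun x _ => ?_
          split_ifs
          · exact hΦadd φ ψ x y
          · rw [add_zero]
      map_smul' := by
        intro c φ
        funext i
        rcases i with x | y
        · simp only [Sum.elim_inl, Pi.smul_apply, smul_eq_mul, RingHom.id_apply, Finset.mul_sum]
          refine Finset.sum_congr rfl fun y _ => ?_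
          split_ifs
          · exact hΦsmul c φ x y
          · rw [mul_zero]
        · simp only [Sum.elim_inr, Pi.smul_apply, smul_eq_mul, RingHom.id_apply, Finset.mul_sum]
          refine Finset.sum_congr rfl fun x _ => ?_
          split_ifs
          · exact hΦsmul c φ x y
          · rw [mul_zero] }
  have hLl : ∀ φ x, L φ (Sum.inl x) = ∑ y, if x ∈ X ∧ y ∈ Y ∧ ¬ Mb x y then Φ φ x y else 0 :=
    fun _ _ => rfl
  have hLr : ∀ φ y, L φ (Sum.inr y) = ∑ x, if x ∈ X ∧ y ∈ Y ∧ ¬ Mb x y then Φ φ x y else 0 :=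
    fun _ _ => rfl
  let Z : Submodule ℝ (V ⊕ V → ℝ) :=
    { carrier := {φ | (∀ x, x ∉ X → φ (Sum.inl x) = 0) ∧ (∀ y, y ∉ Y → φ (Sum.inr y) = 0) ∧
        ∑ x ∈ X, φ (Sum.inl x) = ∑ y ∈ Y, φ (Sum.inr y)}
      add_mem' := by
        rintro φ ψ ⟨a1, a2, a3⟩ ⟨b1, b2, b3⟩
        refine ⟨fun x hx => ?_, fun y hy => ?_, ?_⟩
        · rw [Pi.add_apply, a1 x hx, b1 x hx, add_zero]
        · rw [Pi.add_apply, a2 y hy, b2 y hy, add_zero]
        · simp only [Pi.add_apply, Finset.sum_add_distrib, a3, b3]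
      zero_mem' := ⟨fun _ _ => rfl, fun _ _ => rfl, by simp⟩
      smul_mem' := by
        rintro c φ ⟨a1, a2, a3⟩
        refine ⟨fun x hx => ?_, fun y hy => ?_, ?_⟩
        · rw [Pi.smul_apply, a1 x hx, smul_zero]
        · rw [Pi.smul_apply, a2 y hy, smul_zero]
        · simp only [Pi.smul_apply, smul_eq_mul, ← Finset.mul_sum, a3] }
  -- totals of functions supported on the pairs
  have htot : ∀ F : V → V → ℝ,
      ∑ x ∈ X, ∑ y, (if x ∈ X ∧ y ∈ Y ∧ ¬ Mb x y then F x y else 0) =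
      ∑ y ∈ Y, ∑ x, (if x ∈ X ∧ y ∈ Y ∧ ¬ Mb x y then F x y else 0) := by
    intro F
    have e1 : ∑ x ∈ X, ∑ y, (if x ∈ X ∧ y ∈ Y ∧ ¬ Mb x y then F x y else 0) =
        ∑ x, ∑ y, (if x ∈ X ∧ y ∈ Y ∧ ¬ Mb x y then F x y else 0) := by
      refine Finset.sum_subset (Finset.subset_univ X) fun x _ hx => ?_
      exact Finset.sum_eq_zero fun y _ => if_neg fun h => hx h.1
    have e2 : ∑ y ∈ Y, ∑ x, (if x ∈ X ∧ y ∈ Y ∧ ¬ Mb x y then F x y else 0) =
        ∑ y, ∑ x, (if x ∈ X ∧ y ∈ Y ∧ ¬ Mb x y then F x y else 0) := by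
      refine Finset.sum_subset (Finset.subset_univ Y) fun y _ hy => ?_
      exact Finset.sum_eq_zero fun x _ => if_neg fun h => hy h.2.1
    rw [e1, e2, Finset.sum_comm]
  have hZ : ∀ φ ∈ Z, L φ ∈ Z := by
    intro φ _
    refine ⟨fun x hx => ?_, fun y hy => ?_, ?_⟩
    · rw [hLl]
      exact Finset.sum_eq_zero fun y _ => if_neg fun h => hx h.1
    · rw [hLr]
      exact Finset.sum_eq_zero fun x _ => if_neg fun h => hy h.2.1
    · simp only [hLl, hLr]
      exact htot (Φ φ)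
  have hnS : n / S ≤ 1 / s₀ := by
    rw [div_le_div_iff₀ hS0 hs0]
    linarith
  have hL : ∀ φ ∈ Z, ∀ M : ℝ, (∀ i, |φ i| ≤ M) → ∀ i, |L φ i - φ i| ≤ M / 2 := by
    rintro φ ⟨a1, a2, a3⟩ M hM i
    have hM0 : 0 ≤ M := (abs_nonneg _).trans (hM i)
    have hb : 0 ≤ 3 * M / (c₁ * S) := by positivity
    have hfin : δ * n * (3 * M / (c₁ * S)) ≤ M / 2 := by
      have e1 : δ * n * (3 * M / (c₁ * S)) = 3 * δ * M / c₁ * (n / S) := by
        field_simp
      rw [e1]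
      have e2 : 3 * δ * M / c₁ * (n / S) ≤ 3 * δ * M / c₁ * (1 / s₀) :=
        mul_le_mul_of_nonneg_left hnS (by positivity)
      refine e2.trans ?_
      have e3 : 3 * δ * M / c₁ * (1 / s₀) = 3 * δ * M / (c₁ * s₀) := by
        field_simp
      rw [e3, div_le_iff₀ (by positivity)]
      have e4 : 12 * δ ≤ c₁ * s₀ := hδ.trans (mul_le_mul_of_nonneg_right hc3 hs0.le)
      nlinarith
    rcases i with x | y
    · by_cases hx : x ∈ X
      · have e1 : L φ (Sum.inl x) - φ (Sum.inl x) =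
            - ∑ y ∈ Y.filter (fun y => Mb x y), Φ φ x y := by
          rw [hLl, tr_split X Y Mb (fun y => Φ φ x y) hx]
          have e2 : ∑ y ∈ Y, Φ φ x y = φ (Sum.inl x) := by
            simp only [hΦdef]
            exact tr_row Y q (fun y => φ (Sum.inr y)) hS0.ne' hSY a3.symm
          rw [e2]
          ring
        rw [e1, abs_neg]
        refine (tr_few _ _ (fun y hy => ?_) hb (h1 x hx)).trans hfin
        exact hΦbd φ M hM x hx y (Finset.mem_filter.mp hy).1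
      · rw [hLl, a1 x hx]
        rw [Finset.sum_eq_zero fun y _ => if_neg fun h => hx h.1]
        simp only [sub_zero, abs_zero]
        linarith
    · by_cases hy : y ∈ Y
      · have e1 : L φ (Sum.inr y) - φ (Sum.inr y) =
            - ∑ x ∈ X.filter (fun x => Mb x y), Φ φ x y := by
          rw [hLr, tr_split' X Y Mb (fun x => Φ φ x y) hy]
          have e2 : ∑ x ∈ X, Φ φ x y = φ (Sum.inr y) := by
            simp only [hΦdef]
            exact tr_col X p (fun x => φ (Sum.inl x)) hS0.ne' hSdef.symm rfl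
          rw [e2]
          ring
        rw [e1, abs_neg]
        refine (tr_few _ _ (fun x hx => ?_) hb (h2 y hy)).trans hfin
        exact hΦbd φ M hM x (Finset.mem_filter.mp hx).1 y hy
      · rw [hLr, a2 y hy]
        rw [Finset.sum_eq_zero fun x _ => if_neg fun h => hy h.2.1]
        simp only [sub_zero, abs_zero]
        linarith
  -- the error of the product solution
  let φ0 : V ⊕ V → ℝ := Sum.elim
    (fun x => if x ∈ X then p x - ∑ y, (if x ∈ X ∧ y ∈ Y ∧ ¬ Mb x y then p x * q y / S else 0)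
      else 0)
    (fun y => if y ∈ Y then q y - ∑ x, (if x ∈ X ∧ y ∈ Y ∧ ¬ Mb x y then p x * q y / S else 0)
      else 0)
  have hl0 : ∀ x, φ0 (Sum.inl x) = if x ∈ X then
      p x - ∑ y, (if x ∈ X ∧ y ∈ Y ∧ ¬ Mb x y then p x * q y / S else 0) else 0 := fun _ => rfl
  have hr0 : ∀ y, φ0 (Sum.inr y) = if y ∈ Y then
      q y - ∑ x, (if x ∈ X ∧ y ∈ Y ∧ ¬ Mb x y then p x * q y / S else 0) else 0 := fun _ => rfl
  have hφ0 : φ0 ∈ Z := by
    refine ⟨fun x hx => ?_, fun y hy => ?_, ?_⟩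
    · rw [hl0, if_neg hx]
    · rw [hr0, if_neg hy]
    · have e1 : ∑ x ∈ X, φ0 (Sum.inl x) = S - ∑ x ∈ X, ∑ y,
          (if x ∈ X ∧ y ∈ Y ∧ ¬ Mb x y then p x * q y / S else 0) := by
        rw [hSdef, ← Finset.sum_sub_distrib]
        refine Finset.sum_congr rfl fun x hx => ?_
        rw [hl0, if_pos hx]
      have e2 : ∑ y ∈ Y, φ0 (Sum.inr y) = S - ∑ y ∈ Y, ∑ x,
          (if x ∈ X ∧ y ∈ Y ∧ ¬ Mb x y then p x * q y / S else 0) := by
        rw [← hSY, ← Finset.sum_sub_distrib]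
        refine Finset.sum_congr rfl fun y hy => ?_
        rw [hr0, if_pos hy]
        rw [hSY]
      rw [e1, e2, htot]
  have hpq : ∀ x ∈ X, ∀ y ∈ Y, |p x * q y / S| ≤ 1 / S := by
    intro x hx y hy
    have e1 := hp0 x hx
    have e2 := hq0 y hy
    rw [abs_of_nonneg (by positivity)]
    gcongr
    exact mul_le_one₀ (hp x hx).2 e2 (hq y hy).2
  have hsmall : δ * n * (1 / S) ≤ δ / s₀ := by
    have e1 : δ * n * (1 / S) = δ * (n / S) := by ring
    rw [e1, div_eq_mul_one_div δ s₀]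
    exact mul_le_mul_of_nonneg_left hnS hδ0
  have hφ0b : ∀ i, |φ0 i| ≤ δ / s₀ := by
    have hz : 0 ≤ δ / s₀ := by positivity
    rintro (x | y)
    · rw [hl0]
      split_ifs with hx
      · rw [tr_split X Y Mb (fun y => p x * q y / S) hx]
        have e2 : ∑ y ∈ Y, p x * q y / S = p x := by
          rw [← Finset.sum_div, ← Finset.mul_sum, hSY]
          field_simp
        rw [e2]
        have e3 : p x - (p x - ∑ y ∈ Y.filter (fun y => Mb x y), p x * q y / S) =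
            ∑ y ∈ Y.filter (fun y => Mb x y), p x * q y / S := by ring
        rw [e3]
        refine (tr_few _ _ (fun y hy => ?_) (by positivity) (h1 x hx)).trans hsmall
        exact hpq x hx y (Finset.mem_filter.mp hy).1
      · rwa [abs_zero]
    · rw [hr0]
      split_ifs with hy
      · rw [tr_split' X Y Mb (fun x => p x * q y / S) hy]
        have e2 : ∑ x ∈ X, p x * q y / S = q y := by
          rw [← Finset.sum_div, ← Finset.sum_mul, ← hSdef]
          field_simp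
        rw [e2]
        have e3 : q y - (q y - ∑ x ∈ X.filter (fun x => Mb x y), p x * q y / S) =
            ∑ x ∈ X.filter (fun x => Mb x y), p x * q y / S := by ring
        rw [e3]
        refine (tr_few _ _ (fun x hx => ?_) (by positivity) (h2 y hy)).trans hsmall
        exact hpq x (Finset.mem_filter.mp hx).1 y hy
      · rwa [abs_zero]
  obtain ⟨ψ, hψZ, hψL, hψb⟩ := approx_inv Z L hZ hL φ0 hφ0 (δ / s₀) hφ0b
  have hΨ : ∀ x ∈ X, ∀ y ∈ Y, |Φ ψ x y| ≤ c₁ ^ 2 / 2 / S := by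
    intro x hx y hy
    refine (hΦbd ψ _ hψb x hx y hy).trans ?_
    have e1 : 3 * (2 * (δ / s₀)) / (c₁ * S) = 6 * δ / (s₀ * c₁) / S := by
      field_simp
      ring
    rw [e1]
    apply div_le_div_of_nonneg_right _ hS0.le
    rw [div_le_iff₀ (by positivity)]
    have e2 : c₁ ^ 2 / 2 * (s₀ * c₁) = c₁ ^ 3 * s₀ / 2 := by ring
    linarith
  refine ⟨fun x y => if x ∈ X ∧ y ∈ Y ∧ ¬ Mb x y then p x * q y / S + Φ ψ x y else 0,
    fun x y => ?_, fun x y => ?_, fun x y h => ?_, fun x hx => ?_, fun y hy => ?_⟩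
  · dsimp only
    split_ifs with h
    · have e1 := hΨ x h.1 y h.2.1
      have e2 : c₁ ^ 2 / S ≤ p x * q y / S := by
        gcongr
        have := mul_le_mul (hp x h.1).1 (hq y h.2.1).1 hc.le (hp0 x h.1)
        nlinarith
      have e3 : c₁ ^ 2 / 2 / S ≤ c₁ ^ 2 / S := by
        gcongr
        have : 0 < c₁ ^ 2 := by positivity
        linarith
      have e4 := neg_le_of_abs_le e1
      linarith
    · exact le_rfl
  · dsimp only
    split_ifs with h
    · have e1 := hΨ x h.1 y h.2.1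
      have e2 := hpq x h.1 y h.2.1
      have e3 : c₁ ^ 2 / 2 / S ≤ 1 / S := by
        gcongr
        have : c₁ ^ 2 ≤ 1 := pow_le_one₀ hc.le hc1
        linarith
      have e4 : 1 / S ≤ 1 / (s₀ * n) := one_div_le_one_div_of_le hsn hlow
      have e5 := le_of_abs_le e1
      have e6 := le_of_abs_le e2
      have e7 : 2 / (s₀ * n) = 1 / (s₀ * n) + 1 / (s₀ * n) := by ring
      rw [e7]
      linarith
    · positivity
  · by_contra hcon
    exact h (if_neg hcon)
  · have e1 : ∀ y, (if x ∈ X ∧ y ∈ Y ∧ ¬ Mb x y then p x * q y / S + Φ ψ x y else 0) =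
        (if x ∈ X ∧ y ∈ Y ∧ ¬ Mb x y then p x * q y / S else 0) +
        (if x ∈ X ∧ y ∈ Y ∧ ¬ Mb x y then Φ ψ x y else 0) := by
      intro y
      split_ifs
      · rfl
      · rw [add_zero]
    simp only [e1]
    rw [Finset.sum_add_distrib, ← hLl ψ x, hψL, hl0, if_pos hx]
    ring
  · have e1 : ∀ x, (if x ∈ X ∧ y ∈ Y ∧ ¬ Mb x y then p x * q y / S + Φ ψ x y else 0) =
        (if x ∈ X ∧ y ∈ Y ∧ ¬ Mb x y then p x * q y / S else 0) +
        (if x ∈ X ∧ y ∈ Y ∧ ¬ Mb x y then Φ ψ x y else 0) := by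
      intro x
      split_ifs
      · rfl
      · rw [add_zero]
    simp only [e1]
    rw [Finset.sum_add_distrib, ← hLr ψ y, hψL, hr0, if_pos hy]
    ring

end F3.FT
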