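import Pool.Agent.F3.FT.La

/-!
# F3, world T: the type sums of the residual demand
-/

set_option autoImplicit false
set_option linter.unusedSectionVars false

namespace F3.FT

open Finset Classical NW F1

variable {V : Type} [Fintype V] [DecidableEq V] {sd pt : V → Bool}
  {ty : Sym2 V → Fin 3} {At : Finset V} {B : Finset (Tri V)}

theorem sum_mk_eq {e : Sym2 V} (he : ¬ e.IsDiag) (y : ℝ) :
    ∑ x : V × V, (if s(x.1, x.2) = e then y else 0) = 2 * y := by
  induction e with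
  | _ a b =>
    have hab : a ≠ b := by simpa using he
    have h1 : ∀ x : V × V, (if s(x.1, x.2) = s(a, b) then y else 0) =
        (if x = (a, b) then y else 0) + (if x = (b, a) then y else 0) := by
      intro x
      rcases x with ⟨u, v⟩
      by_cases h1 : (u, v) = (a, b)
      · obtain ⟨rfl, rfl⟩ := Prod.mk.inj h1
        rw [if_pos rfl, if_pos rfl, if_neg (by
          intro hc
          exact hab (Prod.mk.inj hc).1), add_zero]
      · by_cases h2 : (u, v) = (b, a)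
        · obtain ⟨rfl, rfl⟩ := Prod.mk.inj h2
          rw [if_pos Sym2.eq_swap, if_neg h1, if_pos rfl, zero_add]
        · rw [if_neg h1, if_neg h2, if_neg, add_zero]
          intro hc
          simp only [Sym2.eq_iff] at hc
          rcases hc with ⟨rfl, rfl⟩ | ⟨rfl, rfl⟩
          · exact h1 rfl
          · exact h2 rfl
    simp only [h1, Finset.sum_add_distrib, Finset.sum_ite_eq', Finset.mem_univ, if_true]
    ring

theorem sum_pairs {G : Finset (Sym2 V)} (hG : NW.NL G) (φ : Sym2 V → ℝ) :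
    ∑ x : V × V, (if s(x.1, x.2) ∈ G then φ s(x.1, x.2) else 0) = 2 * ∑ e ∈ G, φ e := by
  have h1 : ∀ x : V × V, (if s(x.1, x.2) ∈ G then φ s(x.1, x.2) else 0) =
      ∑ e ∈ G, (if s(x.1, x.2) = e then φ e else 0) := by
    intro x
    rw [Finset.sum_ite_eq]
  simp only [h1]
  rw [Finset.sum_comm, Finset.mul_sum]
  exact Finset.sum_congr rfl fun e he => sum_mk_eq (hG e he) (φ e)

theorem ld_supp {f : V → V → V → ℝ} {u v : V}
    (h : ∀ w, f u v w = 0 ∧ f u w v = 0 ∧ f v u w = 0 ∧ f v w u = 0 ∧ f w u v = 0 ∧ f w v u = 0) :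
    ld f u v = 0 := by
  unfold ld
  refine Finset.sum_eq_zero fun w _ => ?_
  obtain ⟨h1, h2, h3, h4, h5, h6⟩ := h w
  rw [h1, h2, h3, h4, h5, h6]
  norm_num

theorem ld_nG {G : Finset (Sym2 V)} {F : V → V → V → ℝ}
    (hF : ∀ u v w, F u v w ≠ 0 → Ok sd pt ty G B u v w) {u v : V} (h : s(u, v) ∉ G) :
    ld F u v = 0 := by
  have z : ∀ a b c, ¬ Ok sd pt ty G B a b c → F a b c = 0 := fun a b c h =>
    by_contra fun hc => h (hF a b c hc)
  have h' : s(v, u) ∉ G := by rwa [Sym2.eq_swap]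
  exact ld_supp fun w => ⟨z _ _ _ fun hc => h hc.1, z _ _ _ fun hc => h hc.2.1,
    z _ _ _ fun hc => h' hc.1, z _ _ _ fun hc => h' hc.2.1, z _ _ _ fun hc => h hc.2.2.1,
    z _ _ _ fun hc => h' hc.2.2.1⟩

theorem sum_filter_pairs (W : Finset V) (P : V × V → Prop) [DecidablePred P] (φ : V × V → ℝ) :
    ∑ x ∈ (W ×ˢ W).filter P, φ x = ∑ x : V × V, if x.1 ∈ W ∧ x.2 ∈ W ∧ P x then φ x else 0 := by
  rw [← Finset.sum_filter]
  refine Finset.sum_congr ?_ fun _ _ => rfl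
  ext x
  simp only [mem_filter, mem_product, mem_univ, true_and]
  tauto

/-- adjacency -/
def Gr (G : Finset (Sym2 V)) (u v : V) : Prop := s(u, v) ∈ G

theorem type_sum {G : Finset (Sym2 V)} (hG : NW.NL G) {F : V → V → V → ℝ}
    (hF : ∀ u v w, F u v w ≠ 0 → Ok sd pt ty G B u v w)
    (h1 : ∀ u v, s(u, v) ∈ G → (u ∈ At ∨ v ∈ At ∨ Sa sd pt u v) → ld F u v = 1) (t : Fin 3)
    (htot : ∑ e ∈ G, gamT sd pt ty t e = 0) :
    3 * ∑ x ∈ ((univ \ At) ×ˢ (univ \ At)).filter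
        (fun x => CT sd pt t x.1 x.2 ∧ Gr G x.1 x.2), (1 - ld F x.1 x.2) =
      ∑ x ∈ ((univ \ At) ×ˢ (univ \ At)).filter
        (fun x => ¬ Sa sd pt x.1 x.2 ∧ Gr G x.1 x.2), (1 - ld F x.1 x.2) := by
  have e1 : ∑ u, ∑ v, ((gamT sd pt ty t s(u, v) : ℤ) : ℝ) * ld F u v = 0 := by
    refine sum_ld_eq_zero (g := fun u v => ((gamT sd pt ty t s(u, v) : ℤ) : ℝ)) ?_ ?_
    · intro u v
      rw [Sym2.eq_swap]
    · intro a b c h
      have h2 := ok_gam (hF a b c h) t
      exact_mod_cast h2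
  rw [← Fintype.sum_prod_type' (fun u v => ((gamT sd pt ty t s(u, v) : ℤ) : ℝ) * ld F u v)] at e1
  have e2 := sum_pairs hG (fun e => ((gamT sd pt ty t e : ℤ) : ℝ))
  have e3 : ∑ e ∈ G, ((gamT sd pt ty t e : ℤ) : ℝ) = 0 := by exact_mod_cast htot
  rw [e3, mul_zero] at e2
  rw [sum_filter_pairs (univ \ At) _ (fun x => 1 - ld F x.1 x.2),
    sum_filter_pairs (univ \ At) _ (fun x => 1 - ld F x.1 x.2), Finset.mul_sum, ← sub_eq_zero,
    ← Finset.sum_sub_distrib]
  have e4 : ∑ x : V × V, ((if s(x.1, x.2) ∈ G then ((gamT sd pt ty t s(x.1, x.2) : ℤ) : ℝ) else 0) -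
      ((gamT sd pt ty t s(x.1, x.2) : ℤ) : ℝ) * ld F x.1 x.2) = 0 := by
    rw [Finset.sum_sub_distrib, e1, e2, sub_zero]
  refine Eq.trans (Finset.sum_congr rfl fun x _ => ?_) e4
  rcases x with ⟨u, v⟩
  simp only [mem_sdiff, mem_univ, true_and]
  by_cases hg : s(u, v) ∈ G
  · by_cases hc : u ∈ At ∨ v ∈ At ∨ Sa sd pt u v
    · rw [h1 u v hg hc, if_pos hg]
      simp
    · push Not at hc
      obtain ⟨c1, c2, c3⟩ := hc
      rw [if_pos hg, gamT_core c3, if_pos (show u ∉ At ∧ v ∉ At ∧ ¬ Sa sd pt u v ∧ Gr G u v from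
        ⟨c1, c2, c3, hg⟩)]
      by_cases ht : CT sd pt t u v
      · rw [if_pos (show u ∉ At ∧ v ∉ At ∧ CT sd pt t u v ∧ Gr G u v from ⟨c1, c2, ht, hg⟩),
          if_pos ht]
        push_cast
        ring
      · rw [if_neg (fun hc => ht hc.2.2.1), if_neg ht]
        push_cast
        ring
  · rw [ld_nG hF hg, if_neg hg, if_neg (fun hc => hg hc.2.2.2), if_neg (fun hc => hg hc.2.2.2)]
    ring

end F3.FT
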