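import Pool.Agent.F3.Worlds

/-!
# F3, fractional decompositions: weights from functions of ordered triples
-/

set_option autoImplicit false
set_option linter.unusedSectionVars false

namespace F3.FT

open Finset NW F1

variable {V : Type} [Fintype V] [DecidableEq V]

/-- the load of the pair `u v`: the sum over the third vertex and the six orders -/
noncomputable def ld (f : V → V → V → ℝ) (u v : V) : ℝ :=
  ∑ w, (f u v w + f u w v + f v u w + f v w u + f w u v + f w v u)

theorem ld_comm (f : V → V → V → ℝ) (u v : V) : ld f u v = ld f v u := by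
  unfold ld
  exact Finset.sum_congr rfl fun w _ => by ring

theorem ld_add (f g : V → V → V → ℝ) (u v : V) :
    ld (fun a b c => f a b c + g a b c) u v = ld f u v + ld g u v := by
  unfold ld
  rw [← Finset.sum_add_distrib]
  exact Finset.sum_congr rfl fun w _ => by ring

theorem ld_nonneg {f : V → V → V → ℝ} (h : ∀ a b c, 0 ≤ f a b c) (u v : V) : 0 ≤ ld f u v := by
  unfold ld
  refine Finset.sum_nonneg fun w _ => ?_
  have h1 := h u v w
  have h2 := h u w v
  have h3 := h v u w
  have h4 := h v w u
  have h5 := h w u v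
  have h6 := h w v u
  linarith

theorem tw_h12 (F : V → V → V → ℝ) :
    ∑ a, ∑ b, ∑ c, F a b c = ∑ a, ∑ b, ∑ c, F b a c := Finset.sum_comm

theorem tw_h23 (F : V → V → V → ℝ) :
    ∑ a, ∑ b, ∑ c, F a b c = ∑ a, ∑ b, ∑ c, F a c b :=
  Finset.sum_congr rfl fun _ _ => Finset.sum_comm

/-- double counting: if `g` is symmetric and sums to zero on the support of `f` -/
theorem sum_ld_eq_zero {f : V → V → V → ℝ} {g : V → V → ℝ} (hg : ∀ u v, g u v = g v u)
    (h : ∀ a b c, f a b c ≠ 0 → g a b + g a c + g b c = 0) :
    ∑ u, ∑ v, g u v * ld f u v = 0 := by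
  have e0 : ∑ u, ∑ v, g u v * ld f u v =
      (∑ u, ∑ v, ∑ w, g u v * f u v w) + (∑ u, ∑ v, ∑ w, g u v * f u w v) +
      (∑ u, ∑ v, ∑ w, g u v * f v u w) + (∑ u, ∑ v, ∑ w, g u v * f v w u) +
      (∑ u, ∑ v, ∑ w, g u v * f w u v) + (∑ u, ∑ v, ∑ w, g u v * f w v u) := by
    simp only [← Finset.sum_add_distrib]
    refine Finset.sum_congr rfl fun u _ => Finset.sum_congr rfl fun v _ => ?_
    unfold ld
    rw [Finset.mul_sum]
    exact Finset.sum_congr rfl fun w _ => by ring
  have e2 : (∑ u, ∑ v, ∑ w, g u v * f u w v) = ∑ a, ∑ b, ∑ c, g a c * f a b c :=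
    tw_h23 fun u v w => g u v * f u w v
  have e3 : (∑ u, ∑ v, ∑ w, g u v * f v u w) = ∑ a, ∑ b, ∑ c, g b a * f a b c :=
    tw_h12 fun u v w => g u v * f v u w
  have e4 : (∑ u, ∑ v, ∑ w, g u v * f v w u) = ∑ a, ∑ b, ∑ c, g c a * f a b c := by
    rw [tw_h12 fun u v w => g u v * f v w u]
    exact tw_h23 fun v u w => g u v * f v w u
  have e5 : (∑ u, ∑ v, ∑ w, g u v * f w u v) = ∑ a, ∑ b, ∑ c, g b c * f a b c := by
    rw [tw_h23 fun u v w => g u v * f w u v]
    exact tw_h12 fun u w v => g u v * f w u v
  have e6 : (∑ u, ∑ v, ∑ w, g u v * f w v u) = ∑ a, ∑ b, ∑ c, g c b * f a b c := by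
    rw [tw_h23 fun u v w => g u v * f w v u]
    rw [tw_h12 fun u w v => g u v * f w v u]
    exact tw_h23 fun w u v => g u v * f w v u
  rw [e0, e2, e3, e4, e5, e6]
  simp only [← Finset.sum_add_distrib]
  refine Finset.sum_eq_zero fun a _ => Finset.sum_eq_zero fun b _ =>
    Finset.sum_eq_zero fun c _ => ?_
  rw [hg b a, hg c a, hg c b]
  by_cases h0 : f a b c = 0
  · rw [h0]
    ring
  · have h1 := h a b c h0
    have h2 : g a b * f a b c + g a c * f a b c + g a b * f a b c + g a c * f a b c +
        g b c * f a b c + g b c * f a b c = 2 * (g a b + g a c + g b c) * f a b c := by ring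
    rw [h2, h1]
    ring

/-- the weight of a triangle -/
noncomputable def twW (f : V → V → V → ℝ) (t : Finset V) : ℝ :=
  ∑ u ∈ t, ∑ v ∈ t, ∑ w ∈ t, if u ≠ v ∧ u ≠ w ∧ v ≠ w then f u v w else 0

theorem twW_eq (f : V → V → V → ℝ) {a b c : V} (hab : a ≠ b) (hac : a ≠ c) (hbc : b ≠ c) :
    twW f {a, b, c} = f a b c + f a c b + f b a c + f b c a + f c a b + f c b a := by
  have h1 : a ∉ ({b, c} : Finset V) := by simp [hab, hac]
  have h2 : b ∉ ({c} : Finset V) := by simp [hbc]
  have key : ∀ F : V → ℝ, ∑ x ∈ ({a, b, c} : Finset V), F x = F a + F b + F c := by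
    intro F
    rw [Finset.sum_insert h1, Finset.sum_insert h2, Finset.sum_singleton]
    ring
  unfold twW
  simp only [key]
  simp [hab, hac, hbc, hab.symm, hac.symm, hbc.symm]
  ring

theorem tw_card {a b c : V} (hab : a ≠ b) (hac : a ≠ c) (hbc : b ≠ c) :
    ({a, b, c} : Finset V).card = 3 := Finset.card_eq_three.2 ⟨a, b, c, hab, hac, hbc, rfl⟩

/-- a fractional decomposition from a function of ordered triples -/
theorem frac_of_fun {K : ℝ} {al : Tri V → Prop} {E : Finset (Sym2 V)} {B : Finset (Tri V)}
    (hE : NW.NL E) (f : V → V → V → ℝ) (h0 : ∀ u v w, 0 ≤ f u v w)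
    (hK : ∀ u v w, f u v w ≤ K / nn V)
    (hs : ∀ u v w, f u v w ≠ 0 → ∃ T : Tri V, T.1 = {u, v, w} ∧ T ∉ B ∧ al T ∧ NW.edg T.1 ⊆ E)
    (hl : ∀ u v, s(u, v) ∈ E → ld f u v = 1) : Frac (6 * K) al E B := by
  refine ⟨fun T => twW f T.1, fun T => ?_, fun T => ?_, fun T hT => ?_, fun e he => ?_⟩
  · refine Finset.sum_nonneg fun u _ => Finset.sum_nonneg fun v _ => Finset.sum_nonneg fun w _ => ?_
    split_ifs
    · exact h0 u v w
    · exact le_refl _
  · obtain ⟨a, b, c, hab, hac, hbc, ht⟩ := Finset.card_eq_three.1 T.2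
    show twW f T.1 ≤ 6 * K / nn V
    rw [ht, twW_eq f hab hac hbc]
    have h1 := hK a b c
    have h2 := hK a c b
    have h3 := hK b a c
    have h4 := hK b c a
    have h5 := hK c a b
    have h6 := hK c b a
    have h7 : 6 * K / nn V = 6 * (K / nn V) := by ring
    rw [h7]
    linarith
  · have hT' : twW f T.1 ≠ 0 := hT
    obtain ⟨u, hu, hT1⟩ := Finset.exists_ne_zero_of_sum_ne_zero hT'
    obtain ⟨v, hv, hT2⟩ := Finset.exists_ne_zero_of_sum_ne_zero hT1
    obtain ⟨w, hw, hT3⟩ := Finset.exists_ne_zero_of_sum_ne_zero hT2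
    split_ifs at hT3 with hd
    · obtain ⟨T', h1, h2, h3, h4⟩ := hs u v w hT3
      have h5 : ({u, v, w} : Finset V) = T.1 := by
        refine Finset.eq_of_subset_of_card_le ?_ ?_
        · intro x hx
          rw [Finset.mem_insert, Finset.mem_insert, Finset.mem_singleton] at hx
          rcases hx with rfl | rfl | rfl
          · exact hu
          · exact hv
          · exact hw
        · rw [T.2, tw_card hd.1 hd.2.1 hd.2.2]
      have h6 : T' = T := Subtype.ext (h1.trans h5)
      rw [h6] at h2 h3 h4
      exact ⟨h4, h2, h3⟩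
    · exact absurd rfl hT3
  · induction e using Sym2.ind with
    | _ u v =>
      have huv : u ≠ v := by
        have h := hE _ he
        rwa [Sym2.mk_isDiag_iff] at h
      have hz : ∀ a b c : V, (a = b ∨ a = c ∨ b = c) → f a b c = 0 := by
        intro a b c h
        by_contra hne
        obtain ⟨T, hT, -⟩ := hs a b c hne
        have h3 := T.2
        rw [hT] at h3
        have h4 : ({a, b, c} : Finset V).card ≤ 2 := by
          rcases h with rfl | rfl | rfl
          · rw [Finset.insert_idem]
            exact Finset.card_le_two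
          · rw [Finset.pair_comm b a, Finset.insert_idem]
            exact Finset.card_le_two
          · rw [Finset.pair_eq_singleton]
            exact Finset.card_le_two
        omega
      rw [← hl u v he]
      unfold ld
      have hsub : ∑ w, (f u v w + f u w v + f v u w + f v w u + f w u v + f w v u) =
          ∑ w ∈ univ.filter (fun w => u ≠ w ∧ v ≠ w),
            (f u v w + f u w v + f v u w + f v w u + f w u v + f w v u) := by
        symm
        refine Finset.sum_subset (Finset.filter_subset _ _) fun w _ hw => ?_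
        rw [Finset.mem_filter] at hw
        have hw' : u = w ∨ v = w := by
          by_contra hc
          push Not at hc
          exact hw ⟨Finset.mem_univ _, hc⟩
        rcases hw' with rfl | rfl
        · rw [hz u v u (by tauto), hz u u v (by tauto), hz v u u (by tauto)]
          ring
        · rw [hz u v v (by tauto), hz v u v (by tauto), hz v v u (by tauto)]
          ring
      rw [hsub]
      symm
      refine Finset.sum_bij (fun w hw => (⟨{u, v, w}, tw_card huv
        (Finset.mem_filter.1 hw).2.1 (Finset.mem_filter.1 hw).2.2⟩ : Tri V)) ?_ ?_ ?_ ?_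
      · intro w hw
        rw [Finset.mem_filter]
        refine ⟨Finset.mem_univ _, ?_⟩
        rw [NW.mk_mem_edg]
        exact ⟨by simp, by simp, huv⟩
      · intro w hw w' hw' h
        have h1 : ({u, v, w} : Finset V) = {u, v, w'} := congrArg Subtype.val h
        have h2 : w ∈ ({u, v, w'} : Finset V) := by
          rw [← h1]
          simp
        rw [Finset.mem_insert, Finset.mem_insert, Finset.mem_singleton] at h2
        rcases h2 with h2 | h2 | h2
        · exact absurd h2.symm (Finset.mem_filter.1 hw).2.1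
        · exact absurd h2.symm (Finset.mem_filter.1 hw).2.2
        · exact h2
      · intro T hT
        rw [Finset.mem_filter, NW.mk_mem_edg] at hT
        obtain ⟨-, hu, hv, -⟩ := hT
        have h1 : ({u, v} : Finset V) ⊆ T.1 := by
          intro x hx
          rw [Finset.mem_insert, Finset.mem_singleton] at hx
          rcases hx with rfl | rfl
          · exact hu
          · exact hv
        have h2 : (T.1 \ {u, v}).card = 1 := by
          rw [Finset.card_sdiff_of_subset h1, T.2, Finset.card_pair huv]
        obtain ⟨w, hw⟩ := Finset.card_eq_one.1 h2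
        have h3 : w ∈ T.1 \ {u, v} := by
          rw [hw]
          simp
        rw [Finset.mem_sdiff, Finset.mem_insert, Finset.mem_singleton, not_or] at h3
        have h4 : u ≠ w := fun h => h3.2.1 h.symm
        have h5 : v ≠ w := fun h => h3.2.2 h.symm
        refine ⟨w, Finset.mem_filter.2 ⟨Finset.mem_univ _, h4, h5⟩, ?_⟩
        apply Subtype.ext
        refine Finset.eq_of_subset_of_card_le ?_ ?_
        · intro x hx
          rw [Finset.mem_insert, Finset.mem_insert, Finset.mem_singleton] at hx
          rcases hx with rfl | rfl | rfl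
          · exact hu
          · exact hv
          · exact h3.1
        · rw [T.2, tw_card huv h4 h5]
      · intro w hw
        have h := (Finset.mem_filter.1 hw).2
        exact (twW_eq f huv h.1 h.2).symm

end F3.FT
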